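import Pool.Agent.Helper84.BT.Defs

open Set

namespace Pool.Agent.Helper84.BT

set_option linter.unusedSectionVars false

variable {α : Type*}

/-- `X` is a cyclic set of the matroid `M`: a union of circuits. -/
def IsCyclic (M : Matroid α) (X : Set α) : Prop :=
  ∀ x ∈ X, ∃ C ⊆ X, M.IsCircuit C ∧ x ∈ C

/-- natural number valued rank -/
noncomputable def rk (M : Matroid α) (X : Set α) : ℕ := (M.eRk X).toNat

lemma IsCyclic.subset_ground {M : Matroid α} {X : Set α} (h : IsCyclic M X) : X ⊆ M.E := by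
  intro x hx
  obtain ⟨C, -, hC, hxC⟩ := h x hx
  exact hC.subset_ground hxC

lemma isCyclic_iff {M : Matroid α} {X : Set α} :
    IsCyclic M X ↔ ∀ x ∈ X, x ∈ M.closure (X \ {x}) := by
  constructor
  · intro h x hx
    obtain ⟨C, hCX, hC, hxC⟩ := h x hx
    exact M.closure_subset_closure (sdiff_subset_sdiff_left hCX)
      (hC.mem_closure_sdiff_singleton_of_mem hxC)
  · intro h x hx
    obtain ⟨C, hCX, hC, hxC⟩ := Matroid.exists_isCircuit_of_mem_closure (h x hx) (by simp)
    refine ⟨C, ?_, hC, hxC⟩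
    intro y hy
    have := hCX hy
    simp only [mem_insert_iff, mem_sdiff, mem_singleton_iff] at this
    rcases this with rfl | h
    · exact hx
    · exact h.1

lemma IsCyclic.union {M : Matroid α} {X Y : Set α} (hX : IsCyclic M X) (hY : IsCyclic M Y) :
    IsCyclic M (X ∪ Y) := by
  intro x hx
  rcases hx with hx | hx
  · obtain ⟨C, hCX, h⟩ := hX x hx
    exact ⟨C, hCX.trans subset_union_left, h⟩
  · obtain ⟨C, hCX, h⟩ := hY x hx
    exact ⟨C, hCX.trans subset_union_right, h⟩

lemma IsCyclic.sUnion {M : Matroid α} {S : Set (Set α)} (h : ∀ X ∈ S, IsCyclic M X) :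
    IsCyclic M (⋃₀ S) := by
  intro x hx
  obtain ⟨X, hXS, hxX⟩ := hx
  obtain ⟨C, hCX, h⟩ := h X hXS x hxX
  exact ⟨C, hCX.trans (subset_sUnion_of_mem hXS), h⟩

lemma IsCyclic.closure {M : Matroid α} {X : Set α} (hX : IsCyclic M X) :
    IsCyclic M (M.closure X) := by
  rw [isCyclic_iff]
  intro x hx
  by_cases hxX : x ∈ X
  · have := isCyclic_iff.1 hX x hxX
    refine M.closure_subset_closure (sdiff_subset_sdiff_left ?_) this
    exact M.subset_closure X hX.subset_ground
  · refine M.closure_subset_closure ?_ hx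
    intro y hy
    refine ⟨M.subset_closure X hX.subset_ground hy, ?_⟩
    rintro rfl
    exact hxX hy

lemma IsCyclic.isCyclicFlat_closure {M : Matroid α} {X : Set α} (hX : IsCyclic M X) :
    IsCyclicFlat M (M.closure X) :=
  ⟨M.isFlat_closure X, hX.closure⟩

lemma IsCyclicFlat.isCyclic {M : Matroid α} {X : Set α} (h : IsCyclicFlat M X) :
    IsCyclic M X := h.2

lemma IsCyclicFlat.subset_ground {M : Matroid α} {X : Set α} (h : IsCyclicFlat M X) :
    X ⊆ M.E := h.isCyclic.subset_ground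

section rank

variable [Finite α] (M : Matroid α)

lemma coe_rk (X : Set α) : (rk M X : ℕ∞) = M.eRk X := by
  rw [rk, ENat.natCast_toNat]
  rw [Matroid.eRk_ne_top_iff]
  exact M.isRkFinite_of_finite (Set.toFinite X)

lemma rk_mono {X Y : Set α} (h : X ⊆ Y) : rk M X ≤ rk M Y := by
  have := M.eRk_mono h
  rw [← coe_rk, ← coe_rk] at this
  exact_mod_cast this

lemma rk_le_ncard (X : Set α) : rk M X ≤ X.ncard := by
  have := M.eRk_le_encard X
  rw [← coe_rk, ← Set.Finite.cast_ncard_eq (Set.toFinite X)] at this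
  exact_mod_cast this

lemma rk_closure (X : Set α) : rk M (M.closure X) = rk M X := by
  rw [rk, M.eRk_closure_eq, rk]

lemma rk_submod (X Y : Set α) : rk M (X ∩ Y) + rk M (X ∪ Y) ≤ rk M X + rk M Y := by
  have := M.eRk_inter_add_eRk_union_le X Y
  rw [← coe_rk, ← coe_rk, ← coe_rk, ← coe_rk] at this
  exact_mod_cast this

lemma rk_union_le_add_ncard (X Y : Set α) : rk M (X ∪ Y) ≤ rk M X + Y.ncard := by
  have := M.eRk_union_le_eRk_add_encard X Y
  rw [← coe_rk, ← coe_rk, ← Set.Finite.cast_ncard_eq (Set.toFinite Y)] at this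
  exact_mod_cast this

lemma _root_.Matroid.Indep.ncard_eq_rk' {M : Matroid α} {I : Set α} (hI : M.Indep I) :
    rk M I = I.ncard := by
  have := hI.eRk_eq_encard
  rw [← coe_rk, ← Set.Finite.cast_ncard_eq (Set.toFinite I)] at this
  exact_mod_cast this

lemma _root_.Matroid.Indep.ncard_le_rk' {M : Matroid α} {I X : Set α} (hI : M.Indep I)
    (h : I ⊆ X) : I.ncard ≤ rk M X := by
  rw [← hI.ncard_eq_rk']
  exact rk_mono M h

lemma _root_.Matroid.IsBasis.ncard_eq_rk' {M : Matroid α} {I X : Set α} (hI : M.IsBasis I X) :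
    I.ncard = rk M X := by
  rw [← hI.indep.ncard_eq_rk', rk, rk, hI.eRk_eq_eRk]

lemma exists_basis' {X : Set α} (hX : X ⊆ M.E) :
    ∃ I, M.IsBasis I X ∧ I.ncard = rk M X := by
  obtain ⟨I, hI⟩ := M.exists_isBasis X
  exact ⟨I, hI, hI.ncard_eq_rk'⟩

lemma mem_closure_iff_rk {X : Set α} {e : α} (he : e ∈ M.E) :
    e ∈ M.closure X ↔ rk M (insert e X) = rk M X := by
  constructor
  · intro h
    rw [← rk_closure M X, ← rk_closure M (insert e X),
      Matroid.closure_insert_eq_of_mem_closure h]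
  · intro h
    by_contra hcon
    have := Matroid.eRk_insert_eq_add_one (M := M) ⟨he, hcon⟩
    rw [← coe_rk, ← coe_rk] at this
    have h2 : rk M (insert e X) = rk M X + 1 := by exact_mod_cast this
    omega

lemma rk_insert_of_notMem {X : Set α} {e : α} (he : e ∈ M.E) (hn : e ∉ M.closure X) :
    rk M (insert e X) = rk M X + 1 := by
  have := Matroid.eRk_insert_eq_add_one (M := M) ⟨he, hn⟩
  rw [← coe_rk, ← coe_rk] at this
  exact_mod_cast this

lemma subset_closure_of_rk {X Y : Set α} (hXY : X ⊆ Y) (hY : Y ⊆ M.E) (h : rk M Y ≤ rk M X) :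
    Y ⊆ M.closure X := by
  intro y hy
  rw [mem_closure_iff_rk M (hY hy)]
  apply le_antisymm _ (rk_mono M (subset_insert _ _))
  exact (rk_mono M (insert_subset hy hXY)).trans h

lemma indep_iff_rk {I : Set α} : M.Indep I ↔ rk M I = I.ncard := by
  rw [Matroid.indep_iff_eRk_eq_encard, ← coe_rk, ← Set.Finite.cast_ncard_eq (Set.toFinite I)]
  exact_mod_cast Iff.rfl

lemma indep_of_ncard_le_rk {I : Set α} (h : I.ncard ≤ rk M I) : M.Indep I := by
  rw [indep_iff_rk]
  exact le_antisymm (rk_le_ncard M I) h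

lemma rk_dual {X : Set α} (hX : X ⊆ M.E) :
    rk M✶ X + rk M M.E = rk M (M.E \ X) + X.ncard := by
  have := M.eRk_dual_add_eRank X hX
  rw [← M.eRk_ground, ← coe_rk, ← coe_rk, ← coe_rk,
    ← Set.Finite.cast_ncard_eq (Set.toFinite X)] at this
  exact_mod_cast this

/-- nullity is monotone -/
lemma nullity_mono {X Y : Set α} (h : X ⊆ Y) :
    X.ncard + rk M Y ≤ Y.ncard + rk M X := by
  have h1 := rk_union_le_add_ncard M X (Y \ X)
  rw [union_sdiff_cancel h] at h1
  have h2 := Set.ncard_sdiff_add_ncard_of_subset h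
  omega

lemma IsCyclic.nullity_lt {M : Matroid α} {X Y : Set α} (hY : IsCyclic M Y) (h : X ⊆ Y)
    (hne : X ≠ Y) : X.ncard + rk M Y < Y.ncard + rk M X := by
  obtain ⟨y, hyY, hyX⟩ := exists_of_ssubset (h.ssubset_of_ne hne)
  have h1 : X ⊆ Y \ {y} := fun x hx => ⟨h hx, by rintro rfl; exact hyX hx⟩
  have h2 := nullity_mono M h1
  have h3 := isCyclic_iff.1 hY y hyY
  rw [mem_closure_iff_rk M (hY.subset_ground hyY)] at h3
  rw [insert_sdiff_singleton, insert_eq_of_mem hyY] at h3
  have h4 := Set.ncard_sdiff_singleton_add_one hyY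
  omega

end rank

end Pool.Agent.Helper84.BT
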