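import Pool.Agent.Helper84.BT.Fund

open Set

namespace Pool.Agent.Helper84.BT

set_option linter.unusedSectionVars false

/-- the cyclic flats of `M`, ordered by inclusion -/
abbrev Z {α : Type*} (M : Matroid α) := CyclicFlats M

section lattice

variable {α : Type*} [Finite α] {M : Matroid α}

/-- join in the lattice of cyclic flats -/
def joinZ (M : Matroid α) (S : Set (Z M)) : Z M :=
  ⟨M.closure (⋃ X ∈ S, (X : Set α)), by
    apply IsCyclic.isCyclicFlat_closure
    rw [← sUnion_image]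
    apply IsCyclic.sUnion
    rintro _ ⟨X, -, rfl⟩
    exact X.2.2⟩

lemma iUnion_subset_ground (S : Set (Z M)) : ⋃ X ∈ S, (X : Set α) ⊆ M.E :=
  iUnion₂_subset fun X _ => X.2.subset_ground

lemma isLUB_joinZ (S : Set (Z M)) : IsLUB S (joinZ M S) := by
  constructor
  · intro X hX
    change (X : Set α) ⊆ M.closure (⋃ X ∈ S, (X : Set α))
    exact (subset_biUnion_of_mem (u := fun X : Z M => (X : Set α)) hX).trans
      (M.subset_closure _ (iUnion_subset_ground S))
  · intro Y hY
    change M.closure (⋃ X ∈ S, (X : Set α)) ⊆ Y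
    rw [← Y.2.1.closure]
    apply M.closure_subset_closure
    exact iUnion₂_subset fun X hX => hY hX

lemma flat_iInter {S : Set (Z M)} (hS : S.Nonempty) : M.IsFlat (⋂ X ∈ S, (X : Set α)) := by
  rw [biInter_eq_iInter]
  have : Nonempty S := hS.to_subtype
  exact Matroid.IsFlat.iInter (fun X => X.1.2.1)

/-- meet in the lattice of cyclic flats -/
def meetZ (M : Matroid α) (S : Set (Z M)) (hS : S.Nonempty) : Z M :=
  ⟨cyc M (⋂ X ∈ S, (X : Set α)), isCyclicFlat_cyc (flat_iInter hS)⟩

lemma isGLB_meetZ {S : Set (Z M)} (hS : S.Nonempty) : IsGLB S (meetZ M S hS) := by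
  constructor
  · intro X hX
    change cyc M (⋂ X ∈ S, (X : Set α)) ⊆ X
    exact cyc_subset.trans (biInter_subset_of_mem hX)
  · intro Y hY
    change (Y : Set α) ⊆ cyc M (⋂ X ∈ S, (X : Set α))
    apply Y.2.isCyclic.subset_cyc
    exact subset_iInter₂ fun X hX => hY hX

lemma nullity_meetZ {S : Set (Z M)} (hS : S.Nonempty) :
    (meetZ M S hS : Set α).ncard + rk M (⋂ X ∈ S, (X : Set α)) =
      (⋂ X ∈ S, (X : Set α)).ncard + rk M (meetZ M S hS : Set α) :=
  nullity_cyc (flat_iInter hS).subset_ground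

/-- the top cyclic flat -/
def topZ (M : Matroid α) : Z M := ⟨cyc M M.E, isCyclicFlat_top M⟩

lemma le_topZ (X : Z M) : X ≤ topZ M := X.2.isCyclic.subset_cyc X.2.subset_ground

lemma nullity_topZ : (topZ M : Set α).ncard + rk M M.E = M.E.ncard + rk M (topZ M : Set α) :=
  nullity_cyc Subset.rfl

end lattice

section iso

variable {α β : Type*} [Finite α] [Finite β] {M : Matroid α} {N : Matroid β} (φ : Z M ≃o Z N)

lemma map_joinZ (S : Set (Z M)) : φ (joinZ M S) = joinZ N (φ '' S) :=
  ((φ.isLUB_image').2 (isLUB_joinZ S)).unique (isLUB_joinZ _)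

lemma map_meetZ {S : Set (Z M)} (hS : S.Nonempty) :
    φ (meetZ M S hS) = meetZ N (φ '' S) (hS.image _) :=
  ((φ.isGLB_image').2 (isGLB_meetZ hS)).unique (isGLB_meetZ _)

lemma map_topZ : φ (topZ M) = topZ N := by
  apply le_antisymm (le_topZ _)
  have := φ.monotone (le_topZ (φ.symm (topZ N)))
  rwa [φ.apply_symm_apply] at this

variable (hr : ∀ X : Z M, rk N (φ X) = rk M X) (hc : ∀ X : Z M, (φ X : Set β).ncard = (X : Set α).ncard)
include hr

lemma rk_iUnion_map (S : Set (Z M)) :
    rk N (⋃ X ∈ S, (φ X : Set β)) = rk M (⋃ X ∈ S, (X : Set α)) := by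
  have h1 := congrArg (fun X : Z N => rk N (X : Set β)) (map_joinZ φ S)
  simp only [hr] at h1
  change rk M (M.closure (⋃ X ∈ S, (X : Set α))) =
    rk N (N.closure (⋃ X ∈ φ '' S, (X : Set β))) at h1
  rw [rk_closure, rk_closure] at h1
  rw [h1, biUnion_image]

include hc

lemma nullity_iInter_map {S : Set (Z M)} (hS : S.Nonempty) :
    (⋂ X ∈ S, (φ X : Set β)).ncard + rk M (⋂ X ∈ S, (X : Set α)) =
      (⋂ X ∈ S, (X : Set α)).ncard + rk N (⋂ X ∈ S, (φ X : Set β)) := by
  have h1 := congrArg (fun X : Z N => rk N (X : Set β)) (map_meetZ φ hS)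
  have h2 := congrArg (fun X : Z N => (X : Set β).ncard) (map_meetZ φ hS)
  simp only [hr] at h1
  simp only [hc] at h2
  have h3 := nullity_meetZ hS
  have h4 := nullity_meetZ (hS.image φ)
  rw [← h1, ← h2, biInter_image] at h4
  omega

lemma rk_ground_map (hE : N.E.ncard = M.E.ncard) : rk N N.E = rk M M.E := by
  have h1 := congrArg (fun X : Z N => rk N (X : Set β)) (map_topZ φ)
  have h2 := congrArg (fun X : Z N => (X : Set β).ncard) (map_topZ φ)
  simp only [hr] at h1
  simp only [hc] at h2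
  have h3 := nullity_topZ (M := M)
  have h4 := nullity_topZ (M := N)
  rw [← h1, ← h2] at h4
  omega

/-- the family presenting `M`, indexed by the base of the principal matroid `N` -/
def confFam (b : β) : Set α := M.E \ joinZ M {X | b ∉ (φ X : Set β)}

lemma conf_presentation {B : Set β} (hF : Fund N B) (hE : N.E.ncard = M.E.ncard)
    (hint : ∀ S : Set (Z M), S.Nonempty →
      (⋂ X ∈ S, (X : Set α)).ncard ≤ (⋂ X ∈ S, (φ X : Set β)).ncard) :
    IsPresentation (fun b : B => confFam φ (b : β)) M := by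
  have hsub : ∀ b : β, confFam φ b ⊆ M.E := fun b => sdiff_subset
  have hnot : ∀ b ∈ B, b ∉ (φ (joinZ M {X | b ∉ (φ X : Set β)}) : Set β) := by
    intro b hb hcon
    rw [map_joinZ] at hcon
    change b ∈ N.closure (⋃ X ∈ φ '' {X | b ∉ (φ X : Set β)}, (X : Set β)) at hcon
    have h1 := hF.closure_sUnion (S := Subtype.val '' (φ '' {X | b ∉ (φ X : Set β)}))
      (by rintro _ ⟨X, -, rfl⟩; exact X.2)
    rw [sUnion_image] at h1
    have h2 : b ∈ B ∩ N.closure (⋃ X ∈ φ '' {X | b ∉ (φ X : Set β)}, (X : Set β)) := ⟨hb, hcon⟩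
    rw [h1] at h2
    obtain ⟨-, h2⟩ := h2
    simp only [mem_iUnion, exists_prop] at h2
    obtain ⟨Y, ⟨X, hX, rfl⟩, hbX⟩ := h2
    exact hX hbX
  have hadj : ∀ b ∈ B, ∀ X : Z M, (confFam φ b ∩ X).Nonempty ↔ b ∈ (φ X : Set β) := by
    intro b hb X
    constructor
    · rintro ⟨x, hx, hxX⟩
      by_contra hcon
      exact hx.2 ((isLUB_joinZ {X | b ∉ (φ X : Set β)}).1 hcon hxX)
    · intro h
      by_contra hcon
      have h1 : X ≤ joinZ M {X | b ∉ (φ X : Set β)} := by
        intro x hx
        by_contra hx2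
        exact hcon ⟨x, ⟨X.2.subset_ground hx, hx2⟩, hx⟩
      exact hnot b hb (φ.monotone h1 h)
  refine ⟨fun b => hsub _, fun I => ?_⟩
  constructor
  · intro hI
    rw [hall]
    intro T hT
    have hTi := hI.subset hT
    have hTE : T ⊆ M.E := hTi.subset_ground
    -- the labels missing T
    have h0 : (nb (fun b : B => confFam φ (b : β)) T).ncard +
        {b | b ∈ B ∧ ¬ (confFam φ b ∩ T).Nonempty}.ncard = B.ncard := by
      rw [← Set.ncard_image_of_injective _ Subtype.val_injective]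
      have e1 : Subtype.val '' nb (fun b : B => confFam φ (b : β)) T =
          {b | b ∈ B ∧ (confFam φ b ∩ T).Nonempty} := by
        ext b
        simp only [nb, mem_image, mem_ofPred_eq, Subtype.exists, exists_and_right,
          exists_eq_right]
        exact ⟨fun ⟨h1, h2⟩ => ⟨h1, h2⟩, fun ⟨h1, h2⟩ => ⟨h1, h2⟩⟩
      rw [e1, ← Set.ncard_union_eq _ (Set.toFinite _) (Set.toFinite _)]
      · congr 1
        ext b
        simp only [mem_union, mem_ofPred_eq]
        tauto
      · rw [Set.disjoint_left]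
        exact fun b h1 h2 => h2.2 h1.2
    have hrE := rk_ground_map φ hr hc hE
    have hBr : B.ncard = rk N N.E := hF.base.isBasis_ground.ncard_eq_rk'
    set J0 := {b | b ∈ B ∧ ¬ (confFam φ b ∩ T).Nonempty} with hJ0
    by_cases hne : J0.Nonempty
    · set S : Set (Z M) := (fun b => joinZ M {X | b ∉ (φ X : Set β)}) '' J0 with hS
      have hSne : S.Nonempty := hne.image _
      have h1 : T ⊆ ⋂ X ∈ S, (X : Set α) := by
        apply subset_iInter₂
        rintro _ ⟨b, hb, rfl⟩ x hx
        by_contra hcon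
        exact hb.2 ⟨x, ⟨hTE hx, hcon⟩, hx⟩
      have h2 := hTi.ncard_le_rk' h1
      have h3 := nullity_iInter_map φ hr hc hSne
      have h4 := hint S hSne
      have h5 := hF.isBasis_sInter (S := Subtype.val '' (φ '' S)) ((hSne.image _).image _)
        (by rintro _ ⟨X, -, rfl⟩; exact X.2)
      rw [sInter_image, biInter_image] at h5
      have h6 := h5.ncard_eq_rk'
      have h7 : B ∩ (⋂ X ∈ S, (φ X : Set β)) ⊆ B \ J0 := by
        rintro b ⟨hb, hbS⟩
        refine ⟨hb, fun hbJ => ?_⟩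
        have : b ∈ (φ (joinZ M {X | b ∉ (φ X : Set β)}) : Set β) := by
          simp only [mem_iInter] at hbS
          exact hbS _ ⟨b, hbJ, rfl⟩
        exact hnot b hb this
      have h8 := Set.ncard_le_ncard h7 (Set.toFinite _)
      have h9 := Set.ncard_sdiff_add_ncard_of_subset (show J0 ⊆ B from fun b hb => hb.1)
      omega
    · rw [not_nonempty_iff_eq_empty] at hne
      rw [hne, Set.ncard_empty] at h0
      have := hTi.ncard_le_rk' hTE
      omega
  · intro hI
    rw [indep_iff_cyclicFlat (hI.subset_of (fun b => hsub _))]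
    intro X hX
    have h1 := ncard_le_nb (hI.subset (inter_subset_left : I ∩ X ⊆ I))
    refine h1.trans ?_
    have h2 := hr ⟨X, hX⟩
    have h3 := hF.rk_eq (φ ⟨X, hX⟩).2
    rw [← h2, ← h3]
    rw [← Set.ncard_image_of_injective _ Subtype.val_injective]
    apply Set.ncard_le_ncard _ (Set.toFinite _)
    rintro _ ⟨b, ⟨x, hx, hx2⟩, rfl⟩
    exact ⟨b.2, (hadj b b.2 ⟨X, hX⟩).1 ⟨x, hx, hx2.2⟩⟩

end iso

end Pool.Agent.Helper84.BT
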