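import Mathlib

open Set

namespace Pool.Agent.Helper84.BT

lemma fiber_gen {γ K : Type*} [Fintype γ] [Fintype K] [PartialOrder K]
    [DecidableEq K] [DecidableRel (α := K) (· ≤ ·)] [DecidableRel (α := K) (· < ·)]
    (t : K) (u : γ → K) :
    (Finset.univ.filter (fun a => t ≤ u a)).card =
      (Finset.univ.filter (fun a => u a = t)).card +
      ∑ s ∈ Finset.univ.filter (fun s => t < s), (Finset.univ.filter (fun a => u a = s)).card := by
  classical
  have h1 : (Finset.univ.filter (fun a => t ≤ u a)) =
      (Finset.univ.filter (fun a => u a = t)) ∪ (Finset.univ.filter (fun a => t < u a)) := by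
    ext a
    simp only [Finset.mem_filter, Finset.mem_univ, true_and, Finset.mem_union]
    rw [le_iff_lt_or_eq, eq_comm (a := t), or_comm]
  rw [h1, Finset.card_union_of_disjoint]
  · congr 1
    rw [Finset.card_eq_sum_card_fiberwise (f := u)
      (t := Finset.univ.filter (fun s => t < s))]
    · apply Finset.sum_congr rfl
      intro s hs
      simp only [Finset.mem_filter, Finset.mem_univ, true_and] at hs
      congr 1
      ext a
      simp only [Finset.mem_filter, Finset.mem_univ, true_and, and_iff_right_iff_imp]
      rintro rfl
      exact hs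
    · intro a ha
      simpa using ha
  · rw [Finset.disjoint_left]
    intro a ha hb
    simp only [Finset.mem_filter, Finset.mem_univ, true_and] at ha hb
    exact absurd ha.symm hb.ne

lemma fiber_card_eq {α β K : Type*} [Fintype α] [Fintype β] [Fintype K] [PartialOrder K]
    [DecidableEq K] [DecidableRel (α := K) (· ≤ ·)] [DecidableRel (α := K) (· < ·)]
    (f : α → K) (g : β → K)
    (h : ∀ t : K, (Finset.univ.filter (fun a => t ≤ f a)).card =
      (Finset.univ.filter (fun b => t ≤ g b)).card) (t : K) :
    (Finset.univ.filter (fun a => f a = t)).card = (Finset.univ.filter (fun b => g b = t)).card := by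
  induction t using WellFoundedGT.induction with
  | ind t ih =>
    have h1 := h t
    rw [fiber_gen t f, fiber_gen t g] at h1
    have h2 : ∑ s ∈ Finset.univ.filter (fun s => t < s),
        (Finset.univ.filter (fun a => f a = s)).card =
        ∑ s ∈ Finset.univ.filter (fun s => t < s),
        (Finset.univ.filter (fun b => g b = s)).card := by
      apply Finset.sum_congr rfl
      intro s hs
      simp only [Finset.mem_filter, Finset.mem_univ, true_and] at hs
      exact ih s hs
    omega

/-- two families of subsets with equal numbers of common elements are equivalent -/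
lemma exists_equiv_of_inter_card {α β ι : Type*} [Finite α] [Finite β] [Finite ι]
    (P : ι → Set α) (Q : ι → Set β)
    (h : ∀ S : Set ι, {a | ∀ i ∈ S, a ∈ P i}.ncard = {b | ∀ i ∈ S, b ∈ Q i}.ncard) :
    ∃ e : α ≃ β, ∀ i a, a ∈ P i ↔ e a ∈ Q i := by
  classical
  have := Fintype.ofFinite α
  have := Fintype.ofFinite β
  have := Fintype.ofFinite ι
  have key := fiber_card_eq (K := Set ι) (fun a => {i | a ∈ P i}) (fun b => {i | b ∈ Q i}) (by
    intro t
    have h1 := h t
    rw [Set.ncard_eq_toFinset_card', Set.ncard_eq_toFinset_card'] at h1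
    convert h1 using 2
    · ext a
      simp only [Finset.mem_filter, Finset.mem_univ, true_and, mem_toFinset, mem_ofPred_eq]
      exact Iff.rfl
    · ext a
      simp only [Finset.mem_filter, Finset.mem_univ, true_and, mem_toFinset, mem_ofPred_eq]
      exact Iff.rfl)
  have key2 : ∀ c : Set ι, Nonempty ({a // {i | a ∈ P i} = c} ≃ {b // {i | b ∈ Q i} = c}) := by
    intro c
    apply Fintype.card_eq.1
    rw [Fintype.card_subtype, Fintype.card_subtype]
    exact key c
  let e := Equiv.ofFiberEquiv (f := fun a => {i | a ∈ P i}) (g := fun b => {i | b ∈ Q i})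
    (fun c => (key2 c).some)
  refine ⟨e, fun i a => ?_⟩
  have h2 : {i | e a ∈ Q i} = {i | a ∈ P i} := Equiv.ofFiberEquiv_map
    (f := fun a => {i | a ∈ P i}) (g := fun b => {i | b ∈ Q i}) (fun c => (key2 c).some) a
  have h3 := Set.ext_iff.1 h2 i
  exact h3.symm

end Pool.Agent.Helper84.BT
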