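import Pool.Agent.Helper84.BT.Basic

open Set

namespace Pool.Agent.Helper84.BT

set_option linter.unusedSectionVars false

variable {α : Type*} [Finite α] {M : Matroid α}

lemma isFlat_iff_dual_cyclic {X : Set α} (hX : X ⊆ M.E) :
    M.IsFlat X ↔ IsCyclic M✶ (M.E \ X) := by
  rw [isCyclic_iff]
  have key : ∀ y ∈ M.E \ X, (y ∈ M✶.closure ((M.E \ X) \ {y}) ↔ y ∉ M.closure X) := by
    intro y hy
    have h0 : y ∈ M✶.E := hy.1
    rw [mem_closure_iff_rk M✶ h0, mem_closure_iff_rk M hy.1, insert_sdiff_singleton,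
      insert_eq_of_mem hy]
    have h1 := rk_dual M (X := M.E \ X) sdiff_subset
    have h2 := rk_dual M (X := (M.E \ X) \ {y}) (sdiff_subset.trans sdiff_subset)
    have e1 : M.E \ (M.E \ X) = X := by
      rw [sdiff_sdiff_right_self]; exact inter_eq_self_of_subset_right hX
    have e2 : M.E \ ((M.E \ X) \ {y}) = insert y X := by
      ext z
      simp only [mem_sdiff, mem_singleton_iff, mem_insert_iff]
      constructor
      · rintro ⟨hz, hz2⟩
        by_cases h : z = y
        · exact Or.inl h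
        · right
          by_contra h3
          exact hz2 ⟨⟨hz, h3⟩, h⟩
      · rintro (rfl | h)
        · exact ⟨hy.1, fun h => h.2 rfl⟩
        · exact ⟨hX h, fun h' => h'.1.2 h⟩
    rw [e1] at h1
    rw [e2] at h2
    have h3 := Set.ncard_sdiff_singleton_add_one hy
    have h4 := rk_mono M (subset_insert y X)
    constructor
    · intro h h'
      omega
    · intro h
      have h5 := rk_insert_of_notMem M hy.1 (by rwa [mem_closure_iff_rk M hy.1])
      omega
  constructor
  · intro hF y hy
    rw [key y hy, hF.closure]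
    exact hy.2
  · intro h
    rw [Matroid.isFlat_iff_closure_eq]
    apply subset_antisymm _ (M.subset_closure X hX)
    intro y hy
    by_contra hcon
    have hyE : y ∈ M.E := M.closure_subset_ground X hy
    exact (key y ⟨hyE, hcon⟩).1 (h y ⟨hyE, hcon⟩) hy

lemma isCyclic_iff_dual_flat {X : Set α} (hX : X ⊆ M.E) :
    IsCyclic M X ↔ M✶.IsFlat (M.E \ X) := by
  have h := isFlat_iff_dual_cyclic (M := M✶) (X := M.E \ X) sdiff_subset
  rw [h, Matroid.dual_dual, Matroid.dual_ground, sdiff_sdiff_right_self,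
    inter_eq_self_of_subset_right hX]

lemma IsCyclicFlat.dual {X : Set α} (h : IsCyclicFlat M X) : IsCyclicFlat M✶ (M.E \ X) :=
  ⟨(isCyclic_iff_dual_flat h.subset_ground).1 h.2,
    (isFlat_iff_dual_cyclic h.subset_ground).1 h.1⟩

lemma IsCyclicFlat.dual' {X : Set α} (h : IsCyclicFlat M✶ X) : IsCyclicFlat M (M.E \ X) := by
  have := h.dual
  rwa [Matroid.dual_dual] at this

/-- the largest cyclic set inside `Y` -/
def cyc (M : Matroid α) (Y : Set α) : Set α := M.E \ M✶.closure (M.E \ Y)

lemma cyc_subset {Y : Set α} : cyc M Y ⊆ Y := by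
  intro x hx
  by_contra hcon
  refine hx.2 (M✶.subset_closure (M.E \ Y) sdiff_subset ⟨hx.1, hcon⟩)

lemma cyc_subset_ground {Y : Set α} : cyc M Y ⊆ M.E := sdiff_subset

lemma compl_cyc {Y : Set α} : M.E \ cyc M Y = M✶.closure (M.E \ Y) := by
  rw [cyc, sdiff_sdiff_right_self]
  exact inter_eq_self_of_subset_right (M✶.closure_subset_ground _)

lemma isCyclic_cyc {Y : Set α} : IsCyclic M (cyc M Y) := by
  rw [isCyclic_iff_dual_flat cyc_subset_ground, compl_cyc]
  exact M✶.isFlat_closure _

lemma isCyclicFlat_cyc {Y : Set α} (hY : M.IsFlat Y) : IsCyclicFlat M (cyc M Y) := by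
  refine ⟨?_, isCyclic_cyc⟩
  rw [isFlat_iff_dual_cyclic cyc_subset_ground, compl_cyc]
  apply IsCyclic.closure
  exact (isFlat_iff_dual_cyclic hY.subset_ground).1 hY

lemma IsCyclic.subset_cyc {U Y : Set α} (hU : IsCyclic M U) (h : U ⊆ Y) : U ⊆ cyc M Y := by
  intro x hx
  refine ⟨hU.subset_ground hx, fun hcon => ?_⟩
  have h1 : M✶.closure (M.E \ Y) ⊆ M.E \ U := by
    have h2 := (isCyclic_iff_dual_flat hU.subset_ground).1 hU
    rw [← h2.closure]
    exact M✶.closure_subset_closure (sdiff_subset_sdiff_right h)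
  exact (h1 hcon).2 hx

lemma nullity_cyc {Y : Set α} (hY : Y ⊆ M.E) :
    (cyc M Y).ncard + rk M Y = Y.ncard + rk M (cyc M Y) := by
  have h1 := rk_dual M (X := M.E \ Y) sdiff_subset
  have h2 := rk_dual M (X := M.E \ cyc M Y) sdiff_subset
  have e1 : ∀ Z ⊆ M.E, M.E \ (M.E \ Z) = Z := by
    intro Z hZ
    rw [sdiff_sdiff_right_self]; exact inter_eq_self_of_subset_right hZ
  rw [e1 _ hY] at h1
  rw [e1 _ cyc_subset_ground] at h2
  rw [compl_cyc, rk_closure] at h2
  have h3 := Set.ncard_sdiff_add_ncard_of_subset hY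
  have h4 := Set.ncard_sdiff_add_ncard_of_subset (cyc_subset_ground (M := M) (Y := Y))
  rw [compl_cyc] at h4
  omega

/-- every independent set test: independence is detected by cyclic flats -/
lemma indep_iff_cyclicFlat {I : Set α} (hI : I ⊆ M.E) :
    M.Indep I ↔ ∀ X, IsCyclicFlat M X → (I ∩ X).ncard ≤ rk M X := by
  constructor
  · intro h X _
    exact (h.subset inter_subset_left).ncard_le_rk' inter_subset_right
  · intro h
    by_contra hcon
    have hdep : M.Dep I := ⟨hcon, hI⟩
    obtain ⟨C, hCI, hC⟩ := hdep.exists_isCircuit_subset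
    have hcyc : IsCyclic M C := fun x hx => ⟨C, Subset.rfl, hC, hx⟩
    have h1 := h _ hcyc.isCyclicFlat_closure
    rw [rk_closure] at h1
    have h2 : C ⊆ I ∩ M.closure C := subset_inter hCI (M.subset_closure C hC.subset_ground)
    have h3 := Set.ncard_le_ncard h2 (Set.toFinite _)
    exact hC.not_indep (indep_of_ncard_le_rk M (h3.trans h1))

end Pool.Agent.Helper84.BT
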