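import Mathlib

open Set

namespace Pool.Agent.Helper84.BT

/-- `I` is a partial transversal of the family `A`: its elements have distinct indices `f x` with
`x` in `A (f x)`. -/
def IsPartialTransversal {α ι : Type*} (A : ι → Set α) (I : Set α) : Prop :=
  ∃ f : I → ι, Function.Injective f ∧ ∀ x : I, (x : α) ∈ A (f x)

/-- `A` is a presentation of the matroid `M`: the members of `A` are subsets of the ground set
and the independent sets of `M` are exactly the partial transversals of `A`. -/
def IsPresentation {α ι : Type*} (A : ι → Set α) (M : Matroid α) : Prop :=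
  (∀ i, A i ⊆ M.E) ∧ ∀ I : Set α, M.Indep I ↔ IsPartialTransversal A I

/-- `M` is a transversal matroid: it has a presentation by a finite family of sets. -/
def IsTransversal {α : Type*} (M : Matroid α) : Prop :=
  ∃ (m : ℕ) (A : Fin m → Set α), IsPresentation A M

/-- `M` is a principal transversal matroid: it has a presentation `A` and a base consisting of
elements `b i` such that `b i` lies in `A i` and in no other member of `A`. -/
def IsPrincipal {α : Type*} (M : Matroid α) : Prop :=
  ∃ (m : ℕ) (A : Fin m → Set α) (b : Fin m → α),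
    IsPresentation A M ∧ M.IsBase (range b) ∧ ∀ i j, b i ∈ A j ↔ i = j

/-- `X` is a cyclic flat of `M`: a flat which is a union of circuits. -/
def IsCyclicFlat {α : Type*} (M : Matroid α) (X : Set α) : Prop :=
  M.IsFlat X ∧ ∀ x ∈ X, ∃ C ⊆ X, M.IsCircuit C ∧ x ∈ C

/-- the cyclic flats of `M`, ordered by inclusion -/
abbrev CyclicFlats {α : Type*} (M : Matroid α) := {X : Set α // IsCyclicFlat M X}

/-- `ψ` is a rearrangement of the cyclic flats of `N`: it sends each cyclic flat to a subset of the
ground set of the same size, it preserves inclusions, and for every nonempty set `S` of cyclic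
flats the sets `ψ X`, `X ∈ S`, have at most as many common elements as the sets `X ∈ S`, and cover
at least as many elements. -/
structure IsRearrangement {α : Type*} (N : Matroid α) (ψ : CyclicFlats N → Set α) : Prop where
  subset_ground : ∀ X, ψ X ⊆ N.E
  mono : ∀ X Y : CyclicFlats N, (X : Set α) ⊆ (Y : Set α) → ψ X ⊆ ψ Y
  encard_eq : ∀ X : CyclicFlats N, (ψ X).encard = (X : Set α).encard
  inter_le : ∀ S : Set (CyclicFlats N), S.Nonempty →
    (⋂ X ∈ S, ψ X).encard ≤ (⋂ X ∈ S, (X : Set α)).encard
  le_union : ∀ S : Set (CyclicFlats N), S.Nonempty →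
    (⋃ X ∈ S, (X : Set α)).encard ≤ (⋃ X ∈ S, ψ X).encard

/-- `M` is the matroid on the ground set of `N` in which a set `I` is independent exactly when it
meets each `ψ X` in at most `r_N(X)` elements, `X` running over the cyclic flats of `N`. -/
def IsRearranged {α : Type*} (M N : Matroid α) (ψ : CyclicFlats N → Set α) : Prop :=
  M.E = N.E ∧ ∀ I ⊆ M.E, (M.Indep I ↔ ∀ X : CyclicFlats N, (I ∩ ψ X).encard ≤ N.eRk (X : Set α))

end Pool.Agent.Helper84.BT
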