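import Pool.Agent.Helper84.BT.HatMatroid

open Set

namespace Pool.Agent.Helper84.BT

set_option linter.unusedSectionVars false

variable {α : Type*}

/-- `B` is a base meeting each cyclic flat in a basis -/
structure Fund (N : Matroid α) (B : Set α) : Prop where
  base : N.IsBase B
  basis : ∀ X, IsCyclicFlat N X → N.IsBasis (B ∩ X) X

variable [Finite α] {N : Matroid α} {B : Set α}

lemma Fund.rk_eq (h : Fund N B) {X : Set α} (hX : IsCyclicFlat N X) :
    (B ∩ X).ncard = rk N X := (h.basis X hX).ncard_eq_rk'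

lemma Fund.closure_sUnion (h : Fund N B) {S : Set (Set α)} (hS : ∀ X ∈ S, IsCyclicFlat N X) :
    B ∩ N.closure (⋃₀ S) = B ∩ ⋃₀ S := by
  have hE : ⋃₀ S ⊆ N.E := sUnion_subset fun X hX => (hS X hX).subset_ground
  apply subset_antisymm _ (inter_subset_inter_right _ (N.subset_closure _ hE))
  rintro b ⟨hb, hbc⟩
  refine ⟨hb, ?_⟩
  by_contra hcon
  have h1 : ⋃₀ S ⊆ N.closure (B ∩ ⋃₀ S) := by
    apply sUnion_subset
    intro X hX
    refine (h.basis X (hS X hX)).subset_closure.trans (N.closure_subset_closure ?_)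
    exact inter_subset_inter_right _ (subset_sUnion_of_mem hX)
  have h2 : N.closure (⋃₀ S) ⊆ N.closure (B \ {b}) := by
    refine (N.closure_subset_closure_of_subset_closure h1).trans (N.closure_subset_closure ?_)
    rintro x ⟨hx, hx2⟩
    refine ⟨hx, ?_⟩
    rintro rfl
    exact hcon hx2
  exact h.base.indep.notMem_closure_sdiff_of_mem hb (h2 hbc)

lemma Fund.dual (h : Fund N B) : Fund N✶ (N.E \ B) := by
  refine ⟨h.base.compl_isBase_dual, fun X hX => ?_⟩
  have h1 := h.base.compl_inter_isBasis_of_inter_isBasis (h.basis _ hX.dual')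
  have h2 : N.E \ (N.E \ X) = X := by
    rw [sdiff_sdiff_right_self]
    exact inter_eq_self_of_subset_right hX.subset_ground
  rwa [h2] at h1

lemma Fund.sInter_sdiff (h : Fund N B) {S : Set (Set α)} (hne : S.Nonempty)
    (hS : ∀ X ∈ S, IsCyclicFlat N X) : (⋂₀ S) \ B ⊆ cyc N (⋂₀ S) := by
  rintro k ⟨hk, hkB⟩
  obtain ⟨X0, hX0⟩ := hne
  have hkE : k ∈ N.E := (hS X0 hX0).subset_ground (hk X0 hX0)
  refine ⟨hkE, fun hcl => ?_⟩
  have e1 : N.E \ ⋂₀ S = ⋃₀ ((fun X => N.E \ X) '' S) := by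
    ext x
    simp only [mem_sdiff, mem_sInter, not_forall, sUnion_image, mem_iUnion, exists_prop]
    constructor
    · rintro ⟨hx, X, hX, hxX⟩
      exact ⟨X, hX, hx, hxX⟩
    · rintro ⟨X, hX, hx, hxX⟩
      exact ⟨hx, X, hX, hxX⟩
  rw [e1] at hcl
  have h1 := h.dual.closure_sUnion (S := (fun X => N.E \ X) '' S)
    (by rintro _ ⟨X, hX, rfl⟩; exact (hS X hX).dual)
  have h2 : k ∈ (N.E \ B) ∩ N✶.closure (⋃₀ ((fun X => N.E \ X) '' S)) := ⟨⟨hkE, hkB⟩, hcl⟩
  rw [h1, ← e1] at h2
  exact h2.2.2 hk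

lemma Fund.isBasis_sInter (h : Fund N B) {S : Set (Set α)} (hne : S.Nonempty)
    (hS : ∀ X ∈ S, IsCyclicFlat N X) : N.IsBasis (B ∩ ⋂₀ S) (⋂₀ S) := by
  rw [inter_comm]
  apply h.base.indep.inter_isBasis_sInter hne
  intro X hX
  rw [inter_comm]
  exact h.basis X (hS X hX)

/-- the greatest cyclic flat -/
lemma isCyclicFlat_top (M : Matroid α) : IsCyclicFlat M (cyc M M.E) :=
  isCyclicFlat_cyc M.ground_isFlat

/-- the principal family -/
def fundFam (N : Matroid α) (B : Set α) (b : α) : Set α :=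
  {x | b ∈ B ∧ (x = b ∨ (x ∈ N.E \ B ∧ ∀ X, IsCyclicFlat N X → x ∈ X → b ∈ X))}

lemma Fund.presentation (h : Fund N B) : IsPresentation (fundFam N B) N := by
  have hsub : ∀ b, fundFam N B b ⊆ N.E := by
    rintro b x ⟨hb, rfl | hx⟩
    · exact h.base.subset_ground hb
    · exact hx.1.1
  refine ⟨hsub, fun I => ?_⟩
  constructor
  · intro hI
    rw [hall]
    intro T hT
    have hTi := hI.subset hT
    have hTE : T ⊆ N.E := hTi.subset_ground
    -- the smallest cyclic flat containing x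
    set C : α → Set α := fun x => cyc N (⋂₀ {X | IsCyclicFlat N X ∧ x ∈ X}) with hC
    have hnb : ∀ x ∈ N.E \ B, (∃ X, IsCyclicFlat N X ∧ x ∈ X) := by
      intro x hx
      have h1 := h.base.fundCircuit_isCircuit hx.1 hx.2
      have h2 : IsCyclic N (N.fundCircuit x B) := fun y hy => ⟨_, Subset.rfl, h1, hy⟩
      refine ⟨_, h2.isCyclicFlat_closure, ?_⟩
      exact N.subset_closure _ h1.subset_ground (N.mem_fundCircuit x B)
    have hCflat : ∀ x ∈ N.E \ B, IsCyclicFlat N (C x) := by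
      intro x hx
      apply isCyclicFlat_cyc
      obtain ⟨X0, hX0⟩ := hnb x hx
      rw [sInter_eq_iInter]
      have : Nonempty {X | IsCyclicFlat N X ∧ x ∈ X} := ⟨⟨X0, hX0⟩⟩
      exact Matroid.IsFlat.iInter (fun X => X.2.1.1)
    have hCmem : ∀ x ∈ N.E \ B, x ∈ C x := by
      intro x hx
      obtain ⟨X0, hX0⟩ := hnb x hx
      apply h.sInter_sdiff ⟨X0, hX0⟩ (fun X hX => hX.1)
      exact ⟨fun X hX => hX.2, hx.2⟩
    have hCle : ∀ x, ∀ X, IsCyclicFlat N X → x ∈ X → C x ⊆ X := by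
      intro x X hX hxX
      exact cyc_subset.trans (sInter_subset_of_mem ⟨hX, hxX⟩)
    set U := ⋃₀ (C '' (T \ B)) with hU
    have hS : ∀ X ∈ C '' (T \ B), IsCyclicFlat N X := by
      rintro _ ⟨k, hk, rfl⟩
      exact hCflat k ⟨hTE hk.1, hk.2⟩
    have h1 := h.closure_sUnion hS
    have hcyc : IsCyclic N U := IsCyclic.sUnion fun X hX => (hS X hX).2
    set X := N.closure U with hX
    have hXc : IsCyclicFlat N X := hcyc.isCyclicFlat_closure
    have h2 : (B ∩ T) ∪ (B ∩ X) ⊆ nb (fundFam N B) T := by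
      rintro b (⟨hb, hbT⟩ | hb)
      · exact ⟨b, ⟨hb, Or.inl rfl⟩, hbT⟩
      · rw [h1] at hb
        obtain ⟨hbB, _, ⟨k, hk, rfl⟩, hbk⟩ := hb
        refine ⟨k, ⟨hbB, Or.inr ⟨⟨hTE hk.1, hk.2⟩, ?_⟩⟩, hk.1⟩
        intro Y hY hkY
        exact hCle k Y hY hkY hbk
    have h3 : T \ X ⊆ (B ∩ T) \ X := by
      rintro x ⟨hx, hxX⟩
      refine ⟨⟨?_, hx⟩, hxX⟩
      by_contra hxB
      apply hxX
      have hxEB : x ∈ N.E \ B := ⟨hTE hx, hxB⟩
      have hmem : C x ∈ C '' (T \ B) := ⟨x, ⟨hx, hxB⟩, rfl⟩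
      have : C x ⊆ X := Subset.trans (subset_sUnion_of_mem hmem)
        (N.subset_closure U hcyc.subset_ground)
      exact this (hCmem x hxEB)
    have h4 := Set.ncard_le_ncard h2 (Set.toFinite _)
    have h5 : ((B ∩ T) \ X ∪ (B ∩ X)).ncard ≤ ((B ∩ T) ∪ (B ∩ X)).ncard :=
      Set.ncard_le_ncard (union_subset_union_left _ sdiff_subset) (Set.toFinite _)
    have h6 : ((B ∩ T) \ X ∪ (B ∩ X)).ncard = ((B ∩ T) \ X).ncard + (B ∩ X).ncard := by
      apply Set.ncard_union_eq _ (Set.toFinite _) (Set.toFinite _)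
      rw [Set.disjoint_left]
      exact fun x hx hx2 => hx.2 hx2.2
    have h7 := Set.ncard_le_ncard h3 (Set.toFinite _)
    have h8 := h.rk_eq hXc
    have h9 := (hTi.subset (inter_subset_left : T ∩ X ⊆ T)).ncard_le_rk' inter_subset_right
    have h10 := Set.ncard_inter_add_ncard_sdiff_eq_ncard T X
    omega
  · intro hI
    rw [indep_iff_cyclicFlat (hI.subset_of hsub)]
    intro X hX
    have h1 := ncard_le_nb (hI.subset (inter_subset_left : I ∩ X ⊆ I))
    refine h1.trans ?_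
    rw [← h.rk_eq hX]
    apply Set.ncard_le_ncard _ (Set.toFinite _)
    rintro b ⟨x, ⟨hb, hx⟩, -, hxX⟩
    refine ⟨hb, ?_⟩
    rcases hx with rfl | hx
    · exact hxX
    · exact hx.2 X hX hxX

lemma Fund.isPrincipal (h : Fund N B) : IsPrincipal N := by
  classical
  have hp := h.presentation
  have := Fintype.ofFinite B
  let e : B ≃ Fin (Fintype.card B) := Fintype.equivFin B
  refine ⟨Fintype.card B, fun i => fundFam N B (e.symm i), fun i => e.symm i, ⟨fun i => hp.1 _, ?_⟩,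
    ?_, ?_⟩
  · intro I
    rw [hp.2]
    constructor
    · rintro ⟨f, hf, hfA⟩
      refine ⟨fun x => e ⟨f x, (hfA x).1⟩, ?_, ?_⟩
      · intro x y hxy
        have := e.injective hxy
        exact hf (congrArg Subtype.val this)
      · intro x
        simp only [Equiv.symm_apply_apply]
        exact hfA x
    · rintro ⟨f, hf, hfA⟩
      refine ⟨fun x => e.symm (f x), ?_, hfA⟩
      intro x y hxy
      exact hf (e.symm.injective (Subtype.ext hxy))
  · have : range (fun i => ((e.symm i : B) : α)) = B := by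
      ext x
      constructor
      · rintro ⟨i, rfl⟩
        exact (e.symm i).2
      · intro hx
        exact ⟨e ⟨x, hx⟩, by simp⟩
    rw [this]
    exact h.base
  · intro i j
    constructor
    · rintro ⟨-, h1 | h1⟩
      · exact e.symm.injective (Subtype.ext h1)
      · exact absurd (e.symm i).2 h1.1.2
    · rintro rfl
      exact ⟨(e.symm i).2, Or.inl rfl⟩

lemma IsPrincipal.exists_fund (h : IsPrincipal N) : ∃ B, Fund N B := by
  obtain ⟨m, A, b, hA, hB, hb⟩ := h
  refine ⟨range b, hB, fun X hX => ?_⟩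
  have hinj : Function.Injective b := by
    intro i j hij
    exact (hb i j).1 (by rw [hij]; exact (hb j j).2 rfl)
  have hXE := hX.subset_ground
  have h1 : ∀ i ∈ nb A X, b i ∈ X := by
    intro i hi
    rw [← hX.1.closure]
    have hiE : b i ∈ N.E := hB.subset_ground ⟨i, rfl⟩
    rw [mem_closure_iff_rk _ hiE]
    apply le_antisymm _ (rk_mono _ (subset_insert _ _))
    rw [← nb_ncard_of_cyclic hA hX.isCyclic]
    refine (rk_le_nb hA (insert_subset hiE hXE)).trans ?_
    apply Set.ncard_le_ncard _ (Set.toFinite _)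
    rw [← singleton_union, nb_union]
    refine union_subset ?_ Subset.rfl
    rintro j ⟨x, hx, hx2⟩
    rw [mem_singleton_iff.1 hx2, hb] at hx
    rw [← hx]
    exact hi
  have h2 : (nb A X).ncard ≤ (range b ∩ X).ncard := by
    rw [← Set.ncard_image_of_injective _ hinj]
    apply Set.ncard_le_ncard _ (Set.toFinite _)
    rintro _ ⟨i, hi, rfl⟩
    exact ⟨⟨i, rfl⟩, h1 i hi⟩
  have hI : N.Indep (range b ∩ X) := hB.indep.subset inter_subset_left
  apply hI.isBasis_of_subset_of_subset_closure inter_subset_right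
  apply subset_closure_of_rk _ inter_subset_right hXE
  rw [hI.ncard_eq_rk']
  rwa [nb_ncard_of_cyclic hA hX.isCyclic] at h2

section
variable {M : Matroid α} {A D : α → Set α}

lemma hat_fund (hA : Half M B A) (hD : Half M✶ (M.E \ B) D) : Fund (hatMatroid hA hD) B := by
  refine ⟨hat_isBase hA hD, fun F hF => ?_⟩
  obtain ⟨X, hX, rfl⟩ := hat_surj hA hD hF
  rw [hat_inter]
  exact hat_isBasis hA hD X

end

end Pool.Agent.Helper84.BT
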