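import Pool.Agent.Helper84.BT.Hall

open Set

namespace Pool.Agent.Helper84.BT

set_option linter.unusedSectionVars false

variable {α : Type*} [Finite α] {ι : Type*} [Finite ι] {M : Matroid α} {A : ι → Set α}

lemma circuit_nb (hA : IsPresentation A M) {C : Set α} (hC : M.IsCircuit C) {x : α} (hx : x ∈ C) :
    nb A (C \ {x}) = nb A C ∧ (nb A C).ncard = (C \ {x}).ncard := by
  have h1 : ¬ IsPartialTransversal A C := by
    rw [← hA.2]; exact hC.not_indep
  rw [hall] at h1
  push Not at h1
  obtain ⟨T, hTC, hlt⟩ := h1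
  have hT : T = C := by
    by_contra hne
    have h2 := hC.ssubset_indep (hTC.ssubset_of_ne hne)
    rw [hA.2] at h2
    have := ncard_le_nb h2
    omega
  subst hT
  have h3 := hC.sdiff_singleton_indep hx
  rw [hA.2] at h3
  have h4 := ncard_le_nb h3
  have h5 : nb A (T \ {x}) ⊆ nb A T := nb_mono A sdiff_subset
  have h6 := Set.ncard_le_ncard h5 (Set.toFinite _)
  have h7 := Set.ncard_sdiff_singleton_add_one hx
  exact ⟨Set.eq_of_subset_of_ncard_le h5 (by omega) (Set.toFinite _), by omega⟩

lemma nb_subset_range {I : Set α} {f : I → ι} (hf : Function.Injective f)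
    (hfA : ∀ x : I, (x : α) ∈ A (f x)) {T : Set α} (hT : T ⊆ I)
    (h : (nb A T).ncard ≤ T.ncard) : nb A T ⊆ range f := by
  have h1 : f '' {x : I | (x : α) ∈ T} ⊆ nb A T := by
    rintro _ ⟨x, hx, rfl⟩
    exact ⟨x, hfA x, hx⟩
  have h2 : (f '' {x : I | (x : α) ∈ T}).ncard = T.ncard := by
    rw [Set.ncard_image_of_injective _ hf]
    rw [← Set.ncard_image_of_injective _ Subtype.val_injective]
    congr 1
    ext y
    simp only [mem_image, mem_ofPred_eq, Subtype.exists, exists_and_left, exists_prop,
      exists_eq_right_right]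
    exact ⟨fun h => h.1, fun h => ⟨h, hT h⟩⟩
  rw [← Set.eq_of_subset_of_ncard_le h1 (by omega) (Set.toFinite _)]
  exact image_subset_range _ _

lemma nb_singleton_subset (hA : IsPresentation A M) {I X : Set α} (hI : M.IsBasis I X)
    {f : I → ι} (hf : Function.Injective f) (hfA : ∀ x : I, (x : α) ∈ A (f x))
    {x : α} (hx : x ∈ X) (hxc : x ∈ M.closure (X \ {x})) : nb A {x} ⊆ range f := by
  have main : ∀ y ∈ X, y ∉ I → nb A (M.fundCircuit y I) ⊆ range f := by
    intro y hy hyI
    have hC := hI.indep.fundCircuit_isCircuit (hI.subset_closure hy) hyI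
    have h1 := circuit_nb hA hC (M.mem_fundCircuit y I)
    rw [← h1.1]
    refine nb_subset_range hf hfA ?_ (by rw [h1.1, h1.2])
    intro z hz
    rcases M.fundCircuit_subset_insert y I hz.1 with rfl | h
    · exact absurd rfl hz.2
    · exact h
  by_cases hxI : x ∈ I
  · obtain ⟨y, hy, hyI, hxy⟩ : ∃ y ∈ X, y ∉ I ∧ x ∈ M.fundCircuit y I := by
      by_contra hcon
      push Not at hcon
      have h1 : X \ {x} ⊆ M.closure (I \ {x}) := by
        intro y hy
        by_cases hyI : y ∈ I
        · refine M.subset_closure (I \ {x}) (sdiff_subset.trans hI.indep.subset_ground) ⟨hyI, hy.2⟩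
        · have h2 := hcon y hy.1 hyI
          have hC := hI.indep.fundCircuit_isCircuit (hI.subset_closure hy.1) hyI
          have h3 := hC.mem_closure_sdiff_singleton_of_mem (M.mem_fundCircuit y I)
          refine M.closure_subset_closure ?_ h3
          intro z hz
          rcases M.fundCircuit_subset_insert y I hz.1 with rfl | h
          · exact absurd rfl hz.2
          · refine ⟨h, ?_⟩
            rintro rfl
            exact h2 hz.1
      have h2 : x ∈ M.closure (I \ {x}) := by
        have h3 := M.closure_subset_closure h1 hxc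
        rwa [Matroid.closure_closure] at h3
      exact hI.indep.notMem_closure_sdiff_of_mem hxI h2
    exact (nb_mono A (singleton_subset_iff.2 hxy)).trans (main y hy hyI)
  · exact (nb_mono A (singleton_subset_iff.2 (M.mem_fundCircuit x I))).trans (main x hx hxI)

lemma nb_subset_range_of_cyclic (hA : IsPresentation A M) {I X U : Set α} (hI : M.IsBasis I X)
    {f : I → ι} (hf : Function.Injective f) (hfA : ∀ x : I, (x : α) ∈ A (f x))
    (hU : IsCyclic M U) (hUX : U ⊆ X) : nb A U ⊆ range f := by
  rintro i ⟨x, hxA, hxU⟩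
  refine nb_singleton_subset hA hI hf hfA (hUX hxU) ?_ ⟨x, hxA, rfl⟩
  exact M.closure_subset_closure (sdiff_subset_sdiff_left hUX) (isCyclic_iff.1 hU x hxU)

lemma nb_ncard_of_cyclic (hA : IsPresentation A M) {U : Set α} (hU : IsCyclic M U) :
    (nb A U).ncard = rk M U := by
  obtain ⟨I, hI, hIr⟩ := exists_basis' M hU.subset_ground
  obtain ⟨f, hf, hfA⟩ := (hA.2 I).1 hI.indep
  apply le_antisymm
  · have h1 := Set.ncard_le_ncard (nb_subset_range_of_cyclic hA hI hf hfA hU Subset.rfl)
      (Set.toFinite _)
    rw [← image_univ, Set.ncard_image_of_injective _ hf, Set.ncard_univ] at h1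
    rw [← hIr]
    simpa using h1
  · rw [← hIr]
    exact (ncard_le_nb ((hA.2 I).1 hI.indep)).trans
      (Set.ncard_le_ncard (nb_mono A hI.subset) (Set.toFinite _))

/-- the labels in `B` whose set meets `X` -/
def NB (B : Set α) (A : α → Set α) (X : Set α) : Set α := {b | b ∈ B ∧ (A b ∩ X).Nonempty}

/-- a presentation indexed by a base -/
structure Half (M : Matroid α) (B : Set α) (A : α → Set α) : Prop where
  base : M.IsBase B
  sub : ∀ b ∈ B, A b ⊆ M.E
  mem : ∀ b ∈ B, b ∈ A b
  card : ∀ U, IsCyclic M U → (NB B A U).ncard = rk M U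
  hall : ∀ I, M.Indep I → (∃ U, IsCyclic M U ∧ I ⊆ U) → I.ncard ≤ (NB B A I).ncard
  flat : ∀ b ∈ B, M.IsFlat (M.E \ A b)

lemma exists_half (hA : IsPresentation A M) {B : Set α} (hB : M.IsBase B) :
    ∃ A' : α → Set α, Half M B A' := by
  classical
  obtain ⟨f, hf, hfA⟩ := (hA.2 B).1 hB.indep
  refine ⟨fun b => if h : b ∈ B then A (f ⟨b, h⟩) else ∅, ?_⟩
  have hcard : ∀ T U, IsCyclic M U → T ⊆ U →
      (NB B (fun b => if h : b ∈ B then A (f ⟨b, h⟩) else ∅) T).ncard = (nb A T).ncard := by
    intro T U hU hTU
    have h1 : nb A T ⊆ range f := (nb_mono A hTU).trans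
      (nb_subset_range_of_cyclic hA hB.isBasis_ground hf hfA hU hU.subset_ground)
    have h2 : nb A T = f '' {x : B | (A (f x) ∩ T).Nonempty} := by
      ext i
      constructor
      · intro hi
        obtain ⟨x, rfl⟩ := h1 hi
        exact ⟨x, hi, rfl⟩
      · rintro ⟨x, hx, rfl⟩
        exact hx
    rw [h2, Set.ncard_image_of_injective _ hf, ← Set.ncard_image_of_injective _
      Subtype.val_injective]
    congr 1
    ext y
    simp only [NB, mem_ofPred_eq, mem_image, Subtype.exists, exists_and_right, exists_eq_right]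
    constructor
    · rintro ⟨hy, h⟩
      rw [dif_pos hy] at h
      exact ⟨hy, h⟩
    · rintro ⟨hy, h⟩
      refine ⟨hy, ?_⟩
      rw [dif_pos hy]
      exact h
  refine ⟨hB, ?_, ?_, ?_, ?_, ?_⟩
  · intro b hb
    simp only [dif_pos hb]
    exact hA.1 _
  · intro b hb
    simp only [dif_pos hb]
    exact hfA _
  · intro U hU
    rw [hcard U U hU Subset.rfl]
    exact nb_ncard_of_cyclic hA hU
  · rintro I hI ⟨U, hU, hIU⟩
    rw [hcard I U hU hIU]
    exact ncard_le_nb ((hA.2 I).1 hI)
  · intro b hb
    simp only [dif_pos hb]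
    set i := f ⟨b, hb⟩
    obtain ⟨J, hJ⟩ := M.exists_isBasis (M.E \ A i) sdiff_subset
    rw [Matroid.isFlat_iff_closure_eq]
    apply subset_antisymm _ (M.subset_closure _ sdiff_subset)
    intro e he
    refine ⟨M.closure_subset_ground _ he, fun heA => ?_⟩
    rw [← hJ.closure_eq_closure] at he
    have heJ : e ∉ J := fun h => (hJ.subset h).2 heA
    have h2 := (hJ.indep.mem_closure_iff_of_notMem heJ).1 he
    apply h2.not_indep
    rw [hA.2]
    obtain ⟨g, hg, hgA⟩ := (hA.2 J).1 hJ.indep
    have hgi : ∀ x : J, g x ≠ i := by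
      intro x hx
      have := hgA x
      rw [hx] at this
      exact (hJ.subset x.2).2 this
    refine ⟨fun x => if h : (x : α) ∈ J then g ⟨x, h⟩ else i, ?_, ?_⟩
    · intro x y hxy
      simp only at hxy
      by_cases hx : (x : α) ∈ J <;> by_cases hy : (y : α) ∈ J
      · rw [dif_pos hx, dif_pos hy] at hxy
        have := hg hxy
        simpa [Subtype.ext_iff] using this
      · rw [dif_pos hx, dif_neg hy] at hxy
        exact absurd hxy (hgi _)
      · rw [dif_neg hx, dif_pos hy] at hxy
        exact absurd hxy.symm (hgi _)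
      · have hx' : (x : α) = e := by
          rcases x.2 with h | h
          · exact h
          · exact absurd h hx
        have hy' : (y : α) = e := by
          rcases y.2 with h | h
          · exact h
          · exact absurd h hy
        exact Subtype.ext (hx'.trans hy'.symm)
    · intro x
      by_cases hx : (x : α) ∈ J
      · simp only [dif_pos hx]
        exact hgA _
      · simp only [dif_neg hx]
        rcases x.2 with h | h
        · rw [h]; exact heA
        · exact absurd h hx

end Pool.Agent.Helper84.BT
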