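import Pool.Agent.Helper84.BT.Cyc

open Set

namespace Pool.Agent.Helper84.BT

set_option linter.unusedSectionVars false

variable {α : Type*}

/-- the labels adjacent to `T` -/
def nb {ι : Type*} (A : ι → Set α) (T : Set α) : Set ι := {i | (A i ∩ T).Nonempty}

variable [Finite α] {ι : Type*} [Finite ι]

lemma nb_mono (A : ι → Set α) {S T : Set α} (h : S ⊆ T) : nb A S ⊆ nb A T := by
  intro i hi
  exact hi.mono (inter_subset_inter_right _ h)

lemma nb_union (A : ι → Set α) (S T : Set α) : nb A (S ∪ T) = nb A S ∪ nb A T := by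
  ext i
  simp only [nb, mem_ofPred_eq, mem_union, inter_union_distrib_left, union_nonempty]

lemma hall (A : ι → Set α) (I : Set α) :
    IsPartialTransversal A I ↔ ∀ T ⊆ I, T.ncard ≤ (nb A T).ncard := by
  classical
  have := Fintype.ofFinite ι
  have := Fintype.ofFinite α
  have key := Finset.all_card_le_biUnion_card_iff_exists_injective
    (ι := I) (α := ι) (fun x => Finset.univ.filter (fun i => (x : α) ∈ A i))
  have e1 : IsPartialTransversal A I ↔
      ∃ f : I → ι, Function.Injective f ∧ ∀ x : I, f x ∈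
        Finset.univ.filter (fun i => (x : α) ∈ A i) := by
    simp [IsPartialTransversal]
  rw [e1, ← key]
  have e2 : ∀ s : Finset I, (nb A (((↑) : I → α) '' (s : Set I))).ncard =
      (s.biUnion (fun x => Finset.univ.filter (fun i => (x : α) ∈ A i))).card := by
    intro s
    rw [← Set.ncard_coe_finset]
    congr 1
    ext i
    simp only [nb, mem_ofPred_eq, Finset.coe_biUnion, Finset.coe_filter, Finset.mem_univ, true_and,
      mem_iUnion, exists_prop, Finset.mem_coe]
    constructor
    · rintro ⟨x, hx, y, hy, rfl⟩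
      exact ⟨y, hy, hx⟩
    · rintro ⟨y, hy, hx⟩
      exact ⟨y, hx, y, hy, rfl⟩
  have e3 : ∀ s : Finset I, (((↑) : I → α) '' (s : Set I)).ncard = s.card := by
    intro s
    rw [Set.ncard_image_of_injective _ Subtype.val_injective, Set.ncard_coe_finset]
  constructor
  · intro h T hT
    have h1 := h (Finset.univ.filter (fun x : I => (x : α) ∈ T))
    rw [← e2, ← e3] at h1
    have e4 : ((↑) : I → α) '' ((Finset.univ.filter (fun x : I => (x : α) ∈ T) : Finset I) : Set I)
        = T := by
      ext y
      simp only [Finset.coe_filter, Finset.mem_univ, true_and, mem_image, mem_ofPred_eq,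
        Subtype.exists, exists_and_left, exists_prop, exists_eq_right_right]
      exact ⟨fun h => h.1, fun h => ⟨h, hT h⟩⟩
    rwa [e4] at h1
  · intro h s
    rw [← e2, ← e3]
    exact h _ (by rintro _ ⟨x, -, rfl⟩; exact x.2)

lemma IsPartialTransversal.subset {A : ι → Set α} {I J : Set α} (h : IsPartialTransversal A I)
    (hJ : J ⊆ I) : IsPartialTransversal A J := by
  obtain ⟨f, hf, hA⟩ := h
  refine ⟨fun x => f ⟨x, hJ x.2⟩, ?_, fun x => hA ⟨x, hJ x.2⟩⟩
  intro x y hxy
  have := hf hxy
  simpa [Subtype.ext_iff] using this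

lemma ncard_le_nb {A : ι → Set α} {I : Set α} (h : IsPartialTransversal A I) :
    I.ncard ≤ (nb A I).ncard := (hall A I).1 h I Subset.rfl

/-- augmentation for partial transversals -/
lemma aug (A : ι → Set α) {I J : Set α} (hI : IsPartialTransversal A I)
    (hJ : IsPartialTransversal A J) (hlt : I.ncard < J.ncard) :
    ∃ e ∈ J, e ∉ I ∧ IsPartialTransversal A (insert e I) := by
  classical
  by_contra hcon
  push Not at hcon
  rw [hall] at hI hJ
  -- for each e ∈ J \ I there is a tight T ⊆ I with nb {e} ⊆ nb T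
  have h1 : ∀ e ∈ J, e ∉ I → ∃ T ⊆ I, (nb A T).ncard = T.ncard ∧ nb A {e} ⊆ nb A T := by
    intro e he heI
    have h2 := hcon e he heI
    rw [hall] at h2
    push Not at h2
    obtain ⟨T, hT, hlt2⟩ := h2
    have heT : e ∈ T := by
      by_contra heT
      have : T ⊆ I := fun x hx => by
        rcases hT hx with rfl | h
        · exact absurd hx heT
        · exact h
      exact absurd (hI T this) (by omega)
    refine ⟨T \ {e}, ?_, ?_⟩
    · intro x hx
      rcases hT hx.1 with rfl | h
      · exact absurd rfl hx.2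
      · exact h
    · have hsub : T \ {e} ⊆ I := by
        intro x hx
        rcases hT hx.1 with rfl | h
        · exact absurd rfl hx.2
        · exact h
      have h3 := hI _ hsub
      have h4 := Set.ncard_sdiff_singleton_add_one heT
      have h5 : nb A (T \ {e}) ⊆ nb A T := nb_mono A sdiff_subset
      have h6 := Set.ncard_le_ncard h5 (Set.toFinite _)
      have h7 : nb A (T \ {e}) = nb A T :=
        Set.eq_of_subset_of_ncard_le h5 (by omega) (Set.toFinite _)
      refine ⟨by rw [h7]; omega, ?_⟩
      rw [h7]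
      exact nb_mono A (singleton_subset_iff.2 heT)
  -- a maximal tight set
  obtain ⟨T, hTI, hTt, hTn⟩ : ∃ T ⊆ I, (nb A T).ncard = T.ncard ∧ nb A (J \ I) ⊆ nb A T := by
    have gen : ∀ s : Set α, s ⊆ J \ I → ∃ T ⊆ I, (nb A T).ncard = T.ncard ∧
        nb A s ⊆ nb A T := by
      intro s
      refine Set.Finite.induction_on (motive := fun s _ => s ⊆ J \ I → ∃ T ⊆ I,
        (nb A T).ncard = T.ncard ∧ nb A s ⊆ nb A T) s (Set.toFinite s) ?_ ?_
      · intro _
        refine ⟨∅, empty_subset _, ?_, Subset.rfl⟩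
        have : nb A ∅ = ∅ := by ext i; simp [nb]
        simp [this]
      · intro a s has hfin ih hsub
        obtain ⟨T1, hT1, ht1, hn1⟩ := ih ((subset_insert _ _).trans hsub)
        have ha := hsub (mem_insert a s)
        obtain ⟨T2, hT2, ht2, hn2⟩ := h1 a ha.1 ha.2
        refine ⟨T1 ∪ T2, union_subset hT1 hT2, ?_, ?_⟩
        · have h3 := hI _ (union_subset hT1 hT2)
          have h4 := hI _ (inter_subset_left.trans hT1 : T1 ∩ T2 ⊆ I)
          have h5 := Set.ncard_union_add_ncard_inter T1 T2
          have h6 := Set.ncard_union_add_ncard_inter (nb A T1) (nb A T2)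
          have h7 : nb A (T1 ∩ T2) ⊆ nb A T1 ∩ nb A T2 :=
            subset_inter (nb_mono A inter_subset_left) (nb_mono A inter_subset_right)
          have h8 := Set.ncard_le_ncard h7 (Set.toFinite _)
          rw [nb_union] at h3 ⊢
          omega
        · rw [← singleton_union, nb_union, nb_union]
          exact union_subset (hn2.trans subset_union_right) (hn1.trans subset_union_left)
    exact gen _ Subset.rfl
  have h2 := hJ (J ∩ (T ∪ (J \ I))) inter_subset_left
  have h3 : nb A (J ∩ (T ∪ (J \ I))) ⊆ nb A T := by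
    refine (nb_mono A inter_subset_right).trans ?_
    rw [nb_union]
    exact union_subset Subset.rfl hTn
  have h4 := Set.ncard_le_ncard h3 (Set.toFinite _)
  have h5 : J ⊆ (J ∩ (T ∪ (J \ I))) ∪ (I \ T) := by
    intro x hx
    by_cases hxT : x ∈ T
    · exact Or.inl ⟨hx, Or.inl hxT⟩
    · by_cases hxI : x ∈ I
      · exact Or.inr ⟨hxI, hxT⟩
      · exact Or.inl ⟨hx, Or.inr ⟨hx, hxI⟩⟩
  have h6 := Set.ncard_le_ncard h5 (Set.toFinite _)
  have h7 := Set.ncard_union_le (J ∩ (T ∪ (J \ I))) (I \ T)
  have h8 := Set.ncard_sdiff_add_ncard_of_subset hTI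
  omega

lemma IsPartialTransversal.subset_of {A : ι → Set α} {E I : Set α}
    (hI : IsPartialTransversal A I) (hA : ∀ i, A i ⊆ E) : I ⊆ E := by
  intro x hx
  obtain ⟨f, -, hf⟩ := hI
  exact hA _ (hf ⟨x, hx⟩)

lemma isPartialTransversal_empty (A : ι → Set α) : IsPartialTransversal A ∅ :=
  ⟨fun x => x.2.elim, fun x => x.2.elim, fun x => x.2.elim⟩

/-- the transversal matroid on `E` presented by `A` -/
noncomputable def transMatroid (E : Set α) (A : ι → Set α) (hA : ∀ i, A i ⊆ E) : Matroid α :=
  (IndepMatroid.ofFinite (E := E) (Set.toFinite E) (IsPartialTransversal A)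
    (isPartialTransversal_empty A)
    (fun _ _ hJ hIJ => hJ.subset hIJ)
    (fun _ _ hI hJ hlt => aug A hI hJ hlt)
    (fun _ hI => hI.subset_of hA)).matroid

lemma transMatroid_E (E : Set α) (A : ι → Set α) (hA : ∀ i, A i ⊆ E) :
    (transMatroid E A hA).E = E := rfl

lemma transMatroid_isPresentation (E : Set α) (A : ι → Set α) (hA : ∀ i, A i ⊆ E) :
    IsPresentation A (transMatroid E A hA) := by
  refine ⟨hA, fun I => ?_⟩
  rw [transMatroid, IndepMatroid.matroid_indep_iff, IndepMatroid.ofFinite_indep]

end Pool.Agent.Helper84.BT
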