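import Pool.Agent.Helper84.BT.Half

open Set

namespace Pool.Agent.Helper84.BT

set_option linter.unusedSectionVars false

variable {α : Type*} [Finite α] {M : Matroid α} {B : Set α} {A D : α → Set α}

/-- the labels outside `B` whose set lies in `X` -/
def QB (M : Matroid α) (B : Set α) (D : α → Set α) (X : Set α) : Set α :=
  {k | k ∈ M.E \ B ∧ D k ⊆ X}

/-- the label set of `X` -/
def hat (M : Matroid α) (B : Set α) (A D : α → Set α) (X : Set α) : Set α :=
  NB B A X ∪ QB M B D X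

lemma NB_mono (B : Set α) (A : α → Set α) {X Y : Set α} (h : X ⊆ Y) : NB B A X ⊆ NB B A Y :=
  fun _ hb => ⟨hb.1, hb.2.mono (inter_subset_inter_right _ h)⟩

lemma QB_mono (M : Matroid α) (B : Set α) (D : α → Set α) {X Y : Set α} (h : X ⊆ Y) :
    QB M B D X ⊆ QB M B D Y := fun _ hb => ⟨hb.1, hb.2.trans h⟩

lemma hat_mono (M : Matroid α) (B : Set α) (A D : α → Set α) {X Y : Set α} (h : X ⊆ Y) :
    hat M B A D X ⊆ hat M B A D Y := union_subset_union (NB_mono B A h) (QB_mono M B D h)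

lemma NB_subset (B : Set α) (A : α → Set α) (X : Set α) : NB B A X ⊆ B := fun _ hb => hb.1

lemma NB_union (B : Set α) (A : α → Set α) (X Y : Set α) :
    NB B A (X ∪ Y) = NB B A X ∪ NB B A Y := by
  ext b
  simp only [NB, mem_ofPred_eq, inter_union_distrib_left, union_nonempty, mem_union]
  tauto

lemma QB_subset (M : Matroid α) (B : Set α) (D : α → Set α) (X : Set α) :
    QB M B D X ⊆ M.E \ B := fun _ hb => hb.1

lemma disjoint_NB_QB (X : Set α) : Disjoint (NB B A X) (QB M B D X) := by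
  rw [Set.disjoint_left]
  intro b h1 h2
  exact h2.1.2 h1.1

lemma ncard_hat (X : Set α) :
    (hat M B A D X).ncard = (NB B A X).ncard + (QB M B D X).ncard :=
  Set.ncard_union_eq (disjoint_NB_QB X) (Set.toFinite _) (Set.toFinite _)

lemma hat_inter (X : Set α) : B ∩ hat M B A D X = NB B A X := by
  ext b
  constructor
  · rintro ⟨hb, h | h⟩
    · exact h
    · exact absurd hb h.1.2
  · intro h
    exact ⟨h.1, Or.inl h⟩

section

variable (hA : Half M B A) (hD : Half M✶ (M.E \ B) D)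
include hA hD

lemma D_cyclic {k : α} (hk : k ∈ M.E \ B) : IsCyclic M (D k) := by
  rw [isCyclic_iff_dual_flat (M := M) (show D k ⊆ M.E from hD.sub k hk)]
  exact hD.flat k hk

lemma ncard_QB {X : Set α} (hX : M.IsFlat X) : (QB M B D X).ncard + rk M X = X.ncard := by
  have h1 := hD.card _ ((isFlat_iff_dual_cyclic hX.subset_ground).1 hX)
  have h2 := rk_dual M (X := M.E \ X) sdiff_subset
  rw [sdiff_sdiff_right_self, inter_eq_self_of_subset_right hX.subset_ground] at h2
  have h3 : NB (M.E \ B) D (M.E \ X) ⊆ M.E \ B := NB_subset _ _ _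
  have h4 : (M.E \ B) \ NB (M.E \ B) D (M.E \ X) = QB M B D X := by
    ext k
    constructor
    · rintro ⟨hk, hk2⟩
      refine ⟨hk, fun x hx => ?_⟩
      by_contra hxX
      exact hk2 ⟨hk, x, hx, hD.sub k hk hx, hxX⟩
    · rintro ⟨hk, hk2⟩
      refine ⟨hk, ?_⟩
      rintro ⟨-, x, hx, hx2⟩
      exact hx2.2 (hk2 hx)
  have h5 := Set.ncard_sdiff_add_ncard_of_subset h3
  rw [h4] at h5
  have h6 := Set.ncard_sdiff_add_ncard_of_subset hA.base.subset_ground
  have h7 : B.ncard = rk M M.E := hA.base.isBasis_ground.ncard_eq_rk'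
  have h8 := Set.ncard_sdiff_add_ncard_of_subset hX.subset_ground
  omega

lemma ncard_hat_eq {X : Set α} (hX : IsCyclicFlat M X) :
    (hat M B A D X).ncard = X.ncard := by
  rw [ncard_hat, hA.card X hX.2, ← ncard_QB hA hD hX.1, add_comm]

lemma hat_subset_ground (X : Set α) : hat M B A D X ⊆ M.E := by
  rintro x (h | h)
  · exact hA.base.subset_ground h.1
  · exact h.1.1

lemma NB_closure {U : Set α} (hU : IsCyclic M U) : NB B A (M.closure U) = NB B A U := by
  symm
  apply Set.eq_of_subset_of_ncard_le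
    (NB_mono B A (M.subset_closure U hU.subset_ground)) _ (Set.toFinite _)
  rw [hA.card _ hU, hA.card _ hU.closure, rk_closure]

/-- every label of `NB X` is adjacent to a label of `QB X` -/
lemma exists_adj {X : Set α} (hX : IsCyclicFlat M X) {b : α} (hb : b ∈ NB B A X) :
    ∃ k ∈ QB M B D X, (A b ∩ D k).Nonempty := by
  by_contra hcon
  push Not at hcon
  have hcyc : IsCyclic M (⋃₀ (D '' QB M B D X)) := by
    apply IsCyclic.sUnion
    rintro _ ⟨k, hk, rfl⟩
    exact D_cyclic hA hD hk.1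
  set U := ⋃₀ (D '' QB M B D X) with hU
  have hUX : U ⊆ X := by
    rintro x ⟨_, ⟨k, hk, rfl⟩, hx⟩
    exact hk.2 hx
  set Y := M.closure U with hY
  have hYX : Y ⊆ X := by
    rw [← hX.1.closure]
    exact M.closure_subset_closure hUX
  have h1 : b ∉ NB B A U := by
    rintro ⟨-, x, hx, ⟨_, ⟨k, hk, rfl⟩, hx2⟩⟩
    exact (hcon k hk).subset ⟨hx, hx2⟩
  have hne : Y ≠ X := by
    intro h
    rw [← NB_closure hA hD hcyc, ← hY, h] at h1
    exact h1 hb
  have h2 := hX.isCyclic.nullity_lt hYX hne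
  have h3 := ncard_QB hA hD hX.1
  have h4 := ncard_QB hA hD (M.isFlat_closure U)
  rw [← hY] at h4
  have h5 : QB M B D X ⊆ QB M B D Y := by
    intro k hk
    refine ⟨hk.1, ?_⟩
    refine Subset.trans ?_ (M.subset_closure U hcyc.subset_ground)
    exact subset_sUnion_of_mem ⟨k, hk, rfl⟩
  have h6 := Set.ncard_le_ncard h5 (Set.toFinite _)
  omega

/-- the hat of an intersection bounds it -/
lemma ncard_le_hat {S : Set (Set α)} (hS : ∀ X ∈ S, IsCyclicFlat M X) (hne : S.Nonempty) :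
    (⋂₀ S).ncard ≤ (⋂₀ (hat M B A D '' S)).ncard := by
  obtain ⟨X0, hX0⟩ := hne
  have hflat : M.IsFlat (⋂₀ S) := by
    rw [sInter_eq_iInter]
    have : Nonempty S := ⟨⟨X0, hX0⟩⟩
    exact Matroid.IsFlat.iInter (fun X => (hS X X.2).1)
  have h1 := ncard_QB hA hD hflat
  obtain ⟨I, hI, hIr⟩ := exists_basis' M hflat.subset_ground
  have h2 := hA.hall I hI.indep ⟨X0, (hS X0 hX0).2, hI.subset.trans (sInter_subset_of_mem hX0)⟩
  have h3 := Set.ncard_le_ncard (NB_mono B A hI.subset) (Set.toFinite _)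
  have h4 : hat M B A D (⋂₀ S) ⊆ ⋂₀ (hat M B A D '' S) := by
    rintro x hx _ ⟨X, hX, rfl⟩
    exact hat_mono M B A D (sInter_subset_of_mem hX) hx
  have h5 := Set.ncard_le_ncard h4 (Set.toFinite _)
  rw [ncard_hat] at h5
  omega

end

lemma compl_hat (hA : Half M B A) (hD : Half M✶ (M.E \ B) D) (X : Set α) :
    M.E \ hat M B A D X = hat M✶ (M.E \ B) D A (M.E \ X) := by
  have hBE := hA.base.subset_ground
  ext x
  simp only [hat, NB, QB, mem_sdiff, mem_union, mem_ofPred_eq, Matroid.dual_ground, not_or]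
  constructor
  · rintro ⟨hx, h1, h2⟩
    by_cases hxB : x ∈ B
    · right
      refine ⟨⟨hx, fun h => h.2 hxB⟩, fun y hy => ⟨hA.sub x hxB hy, fun hyX => ?_⟩⟩
      exact h1 ⟨hxB, y, hy, hyX⟩
    · left
      refine ⟨⟨hx, hxB⟩, ?_⟩
      by_contra hcon
      apply h2
      refine ⟨⟨hx, hxB⟩, fun y hy => ?_⟩
      by_contra hyX
      exact hcon ⟨y, hy, hD.sub x ⟨hx, hxB⟩ hy, hyX⟩
  · rintro (⟨⟨hx, hxB⟩, y, hy, hyE, hyX⟩ | ⟨⟨hx, hxB⟩, h⟩)
    · exact ⟨hx, fun h => hxB h.1, fun h => hyX (h.2 hy)⟩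
    · refine ⟨hx, ?_, fun h2 => hxB h2.1⟩
      rintro ⟨-, y, hy, hyX⟩
      exact (h hy).2 hyX

lemma hat_union_le (hA : Half M B A) (hD : Half M✶ (M.E \ B) D) {S : Set (Set α)}
    (hS : ∀ X ∈ S, IsCyclicFlat M X) (hne : S.Nonempty) :
    (⋃₀ (hat M B A D '' S)).ncard ≤ (⋃₀ S).ncard := by
  have hA' : Half M✶✶ (M✶.E \ (M.E \ B)) A := by
    rw [Matroid.dual_dual, Matroid.dual_ground, sdiff_sdiff_right_self,
      inter_eq_self_of_subset_right hA.base.subset_ground]
    exact hA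
  have h1 := ncard_le_hat hD hA' (S := (fun X => M.E \ X) '' S)
    (by rintro _ ⟨X, hX, rfl⟩; exact (hS X hX).dual) (hne.image _)
  have e1 : ⋂₀ ((fun X => M.E \ X) '' S) = M.E \ ⋃₀ S := by
    obtain ⟨X0, hX0⟩ := hne
    ext x
    simp only [sInter_image, mem_iInter, mem_sdiff, mem_sUnion, not_exists, not_and]
    exact ⟨fun h => ⟨(h X0 hX0).1, fun X hX => (h X hX).2⟩, fun h X hX => ⟨h.1, h.2 X hX⟩⟩
  have e2 : ⋂₀ (hat M✶ (M.E \ B) D A '' ((fun X => M.E \ X) '' S))
      = M.E \ ⋃₀ (hat M B A D '' S) := by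
    rw [image_image]
    have : (fun X => hat M✶ (M.E \ B) D A (M.E \ X)) = fun X => M.E \ hat M B A D X := by
      funext X; rw [compl_hat hA hD]
    rw [this]
    obtain ⟨X0, hX0⟩ := hne
    ext x
    simp only [sInter_image, mem_iInter, mem_sdiff, mem_sUnion, not_exists, not_and,
      mem_image, forall_exists_index, and_imp, forall_apply_eq_imp_iff₂]
    exact ⟨fun h => ⟨(h X0 hX0).1, fun X hX => (h X hX).2⟩, fun h X hX => ⟨h.1, h.2 X hX⟩⟩
  rw [e1, e2] at h1
  have s1 : ⋃₀ S ⊆ M.E := sUnion_subset (fun X hX => (hS X hX).subset_ground)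
  have s2 : ⋃₀ (hat M B A D '' S) ⊆ M.E := by
    apply sUnion_subset
    rintro _ ⟨X, -, rfl⟩
    exact hat_subset_ground hA hD X
  have h2 := Set.ncard_sdiff_add_ncard_of_subset s1
  have h3 := Set.ncard_sdiff_add_ncard_of_subset s2
  omega

end Pool.Agent.Helper84.BT
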