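import Pool.Agent.Helper84.BT.Hat

open Set

namespace Pool.Agent.Helper84.BT

set_option linter.unusedSectionVars false

variable {α : Type*} [Finite α] {M : Matroid α} {B : Set α} {A D : α → Set α}

/-- the principal family on the base `B` defined from `A` and `D` -/
def hatFam (M : Matroid α) (B : Set α) (A D : α → Set α) (b : α) : Set α :=
  {x | b ∈ B ∧ (x = b ∨ (x ∈ M.E \ B ∧ (A b ∩ D x).Nonempty))}

lemma rk_le_nb {ι : Type*} [Finite ι] {F : ι → Set α} {N : Matroid α} (hN : IsPresentation F N)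
    {X : Set α} (hX : X ⊆ N.E) : rk N X ≤ (nb F X).ncard := by
  obtain ⟨I, hI, hIr⟩ := exists_basis' N hX
  rw [← hIr]
  exact (ncard_le_nb ((hN.2 I).1 hI.indep)).trans
    (Set.ncard_le_ncard (nb_mono F hI.subset) (Set.toFinite _))

section

variable (hA : Half M B A) (hD : Half M✶ (M.E \ B) D)
include hA hD

lemma hatFam_subset (b : α) : hatFam M B A D b ⊆ M.E := by
  rintro x ⟨hb, rfl | ⟨h, -⟩⟩
  · exact hA.base.subset_ground hb
  · exact h.1

/-- The principal transversal matroid associated with the two presentations. -/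
noncomputable def hatMatroid : Matroid α :=
  transMatroid M.E (hatFam M B A D) (hatFam_subset hA hD)

lemma hatMatroid_E : (hatMatroid hA hD).E = M.E := rfl

lemma hatMatroid_pres : IsPresentation (hatFam M B A D) (hatMatroid hA hD) :=
  transMatroid_isPresentation _ _ _

lemma hatFam_nb_base {b : α} (hb : b ∈ B) : nb (hatFam M B A D) {b} = {b} := by
  ext i
  simp only [nb, hatFam, mem_ofPred_eq, inter_singleton_nonempty, mem_singleton_iff]
  constructor
  · rintro ⟨-, h | h⟩
    · exact h.symm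
    · exact absurd hb h.1.2
  · rintro rfl
    exact ⟨hb, Or.inl rfl⟩

lemma hatFam_nb_compl {k : α} (hk : k ∈ M.E \ B) :
    nb (hatFam M B A D) {k} = NB B A (D k) := by
  ext i
  simp only [nb, hatFam, mem_ofPred_eq, inter_singleton_nonempty, NB]
  constructor
  · rintro ⟨hi, h | h⟩
    · rw [h] at hk; exact absurd hi hk.2
    · exact ⟨hi, h.2⟩
  · rintro ⟨hi, h⟩
    exact ⟨hi, Or.inr ⟨hk, h⟩⟩

lemma mem_nb_iff {F : Set α} (hF : F ⊆ M.E) {b : α} :
    b ∈ nb (hatFam M B A D) F ↔ b ∈ B ∧ (b ∈ F ∨ ∃ k ∈ F \ B, (A b ∩ D k).Nonempty) := by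
  constructor
  · rintro ⟨x, ⟨hb, h⟩, hxF⟩
    refine ⟨hb, ?_⟩
    rcases h with rfl | ⟨h, h2⟩
    · exact Or.inl hxF
    · exact Or.inr ⟨x, ⟨hxF, h.2⟩, h2⟩
  · rintro ⟨hb, h | ⟨k, hk, h⟩⟩
    · exact ⟨b, ⟨hb, Or.inl rfl⟩, h⟩
    · exact ⟨k, ⟨hb, Or.inr ⟨⟨hF hk.1, hk.2⟩, h⟩⟩, hk.1⟩

lemma nb_hat (X : Set α) : nb (hatFam M B A D) (hat M B A D X) = NB B A X := by
  ext b
  rw [mem_nb_iff hA hD (hat_subset_ground hA hD X)]
  constructor
  · rintro ⟨hb, h | ⟨k, hk, h⟩⟩
    · rw [← hat_inter (M := M) (D := D) X]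
      exact ⟨hb, h⟩
    · refine ⟨hb, h.mono (inter_subset_inter_right _ ?_)⟩
      rcases hk.1 with h1 | h1
      · exact absurd h1.1 hk.2
      · exact h1.2
  · intro h
    exact ⟨h.1, Or.inl (Or.inl h)⟩

lemma hat_indep_insert {B0 : Set α} (hB0 : B0 ⊆ B) {k b : α} (hk : k ∈ M.E \ B) (hb : b ∈ B)
    (hb0 : b ∉ B0) (h : (A b ∩ D k).Nonempty) : (hatMatroid hA hD).Indep (insert k B0) := by
  classical
  rw [(hatMatroid_pres hA hD).2]
  refine ⟨fun x => if (x : α) = k then b else x, ?_, ?_⟩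
  · intro x y hxy
    simp only at hxy
    have hx : (x : α) ≠ k → (x : α) ∈ B0 := fun h => by
      rcases x.2 with h1 | h1
      · exact absurd h1 h
      · exact h1
    have hy : (y : α) ≠ k → (y : α) ∈ B0 := fun h => by
      rcases y.2 with h1 | h1
      · exact absurd h1 h
      · exact h1
    apply Subtype.ext
    split_ifs at hxy with h1 h2 h2
    · rw [h1, h2]
    · rw [← hxy] at hy; exact absurd (hy (by rintro rfl; exact hk.2 hb)) hb0
    · rw [hxy] at hx; exact absurd (hx (by rintro rfl; exact hk.2 hb)) hb0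
    · exact hxy
  · intro x
    rcases x.2 with h1 | h1
    · simp only [h1, if_true]
      exact ⟨hb, Or.inr ⟨hk, h⟩⟩
    · have : (x : α) ≠ k := by
        intro h2; rw [h2] at h1; exact hk.2 (hB0 h1)
      simp only [this, if_false]
      exact ⟨hB0 h1, Or.inl rfl⟩

lemma hat_indep_base : (hatMatroid hA hD).Indep B := by
  rw [(hatMatroid_pres hA hD).2]
  refine ⟨fun x => x, Subtype.val_injective, fun x => ⟨x.2, Or.inl rfl⟩⟩

lemma hat_rk_le {X : Set α} (hX : X ⊆ M.E) :
    rk (hatMatroid hA hD) X ≤ (nb (hatFam M B A D) X).ncard :=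
  rk_le_nb (hatMatroid_pres hA hD) hX

lemma hat_isBase : (hatMatroid hA hD).IsBase B := by
  have h1 := hat_rk_le hA hD (X := M.E) Subset.rfl
  have h2 : nb (hatFam M B A D) M.E ⊆ B := by
    intro b hb
    exact ((mem_nb_iff hA hD Subset.rfl).1 hb).1
  have h3 := Set.ncard_le_ncard h2 (Set.toFinite _)
  have h4 := hat_indep_base hA hD
  rw [h4.isBase_iff_ground_subset_closure]
  apply subset_closure_of_rk (hatMatroid hA hD) (show B ⊆ (hatMatroid hA hD).E from
    hA.base.subset_ground) Subset.rfl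
  rw [h4.ncard_eq_rk', hatMatroid_E]
  omega

lemma hat_rk_hat (X : Set α) : rk (hatMatroid hA hD) (hat M B A D X) = (NB B A X).ncard := by
  apply le_antisymm
  · have := hat_rk_le hA hD (hat_subset_ground hA hD X)
    rwa [nb_hat hA hD] at this
  · exact ((hat_indep_base hA hD).subset (NB_subset B A X)).ncard_le_rk' subset_union_left

lemma hat_isBasis (X : Set α) :
    (hatMatroid hA hD).IsBasis (NB B A X) (hat M B A D X) := by
  have h1 := (hat_indep_base hA hD).subset (NB_subset B A X)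
  apply h1.isBasis_of_subset_of_subset_closure subset_union_left
  apply subset_closure_of_rk (hatMatroid hA hD) subset_union_left (hat_subset_ground hA hD X)
  change rk (hatMatroid hA hD) (hat M B A D X) ≤ _
  rw [hat_rk_hat, h1.ncard_eq_rk']

lemma hat_flat {X : Set α} (hX : IsCyclicFlat M X) :
    (hatMatroid hA hD).IsFlat (hat M B A D X) := by
  rw [Matroid.isFlat_iff_closure_eq]
  apply subset_antisymm _ ((hatMatroid hA hD).subset_closure _ (hat_subset_ground hA hD X))
  intro e he
  by_contra hcon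
  have heE : e ∈ M.E := (hatMatroid hA hD).closure_subset_ground _ he
  rw [← (hat_isBasis hA hD X).closure_eq_closure] at he
  have heN : e ∉ NB B A X := fun h => hcon (Or.inl h)
  have hI := (hat_indep_base hA hD).subset (NB_subset B A X)
  have hdep := ((hI.mem_closure_iff_of_notMem heN).1 he).not_indep
  apply hdep
  by_cases heB : e ∈ B
  · exact (hat_indep_base hA hD).subset (insert_subset heB (NB_subset B A X))
  · have hk : e ∈ M.E \ B := ⟨heE, heB⟩
    have hDX : ¬ D e ⊆ X := fun h => hcon (Or.inr ⟨hk, h⟩)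
    -- rank of X ∪ D e is bigger
    have hc1 : IsCyclic M (X ∪ D e) := hX.isCyclic.union (D_cyclic hA hD hk)
    have h1 : rk M X < rk M (X ∪ D e) := by
      by_contra hle
      push Not at hle
      have h2 := subset_closure_of_rk M subset_union_left hc1.subset_ground hle
      rw [hX.1.closure] at h2
      exact hDX (subset_union_right.trans h2)
    rw [← hA.card _ hc1, ← hA.card _ hX.isCyclic] at h1
    have h3 : ¬ NB B A (X ∪ D e) ⊆ NB B A X := by
      intro h
      have := Set.ncard_le_ncard h (Set.toFinite _)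
      omega
    rw [not_subset] at h3
    obtain ⟨b, hb, hbX⟩ := h3
    rw [NB_union] at hb
    rcases hb with hb | hb
    · exact absurd hb hbX
    · exact hat_indep_insert hA hD (NB_subset B A X) hk hb.1 hbX hb.2

lemma hat_cyclic {X : Set α} (hX : IsCyclicFlat M X) :
    IsCyclic (hatMatroid hA hD) (hat M B A D X) := by
  rw [isCyclic_iff]
  intro x hx
  have hsub := hat_subset_ground hA hD (D := D) (A := A) X
  have gen : ∀ J ⊆ hat M B A D X \ {x}, (hatMatroid hA hD).Indep J →
      (NB B A X).ncard ≤ J.ncard → x ∈ (hatMatroid hA hD).closure (hat M B A D X \ {x}) := by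
    intro J hJ hJi hc
    refine subset_closure_of_rk (hatMatroid hA hD) (sdiff_subset (s := hat M B A D X) (t := {x}))
      hsub ?_ hx
    rw [hat_rk_hat]
    exact hc.trans (hJi.ncard_le_rk' hJ)
  have hI := (hat_indep_base hA hD).subset (NB_subset B A X)
  by_cases hxB : x ∈ B
  · have hxN : x ∈ NB B A X := by
      rw [← hat_inter (M := M) (D := D) X]; exact ⟨hxB, hx⟩
    obtain ⟨k, hk, hadj⟩ := exists_adj hA hD hX hxN
    apply gen (insert k (NB B A X \ {x}))
    · rintro y (rfl | hy)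
      · exact ⟨Or.inr hk, fun h => hk.1.2 (by rw [mem_singleton_iff.1 h]; exact hxB)⟩
      · exact ⟨Or.inl hy.1, hy.2⟩
    · exact hat_indep_insert hA hD (sdiff_subset.trans (NB_subset B A X)) hk.1 hxB
        (fun h => h.2 rfl) hadj
    · rw [Set.ncard_insert_of_notMem (fun h => hk.1.2 h.1.1) (Set.toFinite _)]
      have := Set.ncard_sdiff_singleton_add_one hxN
      omega
  · apply gen (NB B A X) _ hI le_rfl
    intro y hy
    refine ⟨Or.inl hy, ?_⟩
    rintro rfl
    exact hxB hy.1

lemma hat_isCyclicFlat {X : Set α} (hX : IsCyclicFlat M X) :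
    IsCyclicFlat (hatMatroid hA hD) (hat M B A D X) :=
  ⟨hat_flat hA hD hX, hat_cyclic hA hD hX⟩

/-- every cyclic flat of the hat matroid is a hat -/
lemma hat_surj {F : Set α} (hF : IsCyclicFlat (hatMatroid hA hD) F) :
    ∃ X, IsCyclicFlat M X ∧ hat M B A D X = F := by
  have hFE : F ⊆ M.E := hF.subset_ground
  have hcyc : IsCyclic M (⋃₀ (D '' (F \ B))) := by
    apply IsCyclic.sUnion
    rintro _ ⟨k, hk, rfl⟩
    exact D_cyclic hA hD ⟨hFE hk.1, hk.2⟩
  have hUE := hcyc.subset_ground
  set U := ⋃₀ (D '' (F \ B)) with hU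
  have hrk : (nb (hatFam M B A D) F).ncard = rk (hatMatroid hA hD) F :=
    nb_ncard_of_cyclic (hatMatroid_pres hA hD) hF.isCyclic
  -- nb F ⊆ F
  have hgen : ∀ e ∈ M.E, nb (hatFam M B A D) {e} ⊆ nb (hatFam M B A D) F → e ∈ F := by
    intro e he h
    rw [← hF.1.closure]
    rw [mem_closure_iff_rk _ (by exact he)]
    apply le_antisymm _ (rk_mono _ (subset_insert _ _))
    rw [← hrk]
    refine (hat_rk_le hA hD (insert_subset he hFE)).trans ?_
    apply Set.ncard_le_ncard _ (Set.toFinite _)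
    rw [← singleton_union, nb_union]
    exact union_subset h Subset.rfl
  have h1 : nb (hatFam M B A D) F ⊆ F := by
    intro b hb
    have hbB := ((mem_nb_iff hA hD hFE).1 hb).1
    apply hgen b (hA.base.subset_ground hbB)
    rw [hatFam_nb_base hA hD hbB]
    exact singleton_subset_iff.2 hb
  have h2 : NB B A U ⊆ nb (hatFam M B A D) F := by
    rintro b ⟨hb, x, hxA, _, ⟨k, hk, rfl⟩, hx⟩
    exact (mem_nb_iff hA hD hFE).2 ⟨hb, Or.inr ⟨k, hk, x, hxA, hx⟩⟩
  have h3 : F ∩ B ⊆ NB B A U := by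
    rintro b ⟨hbF, hbB⟩
    by_contra hcon
    have h4 : nb (hatFam M B A D) (F \ {b}) ⊆ nb (hatFam M B A D) F \ {b} := by
      intro c hc
      refine ⟨nb_mono _ sdiff_subset hc, ?_⟩
      rintro rfl
      rw [mem_nb_iff hA hD (sdiff_subset.trans hFE)] at hc
      rcases hc.2 with h | ⟨k, hk, h⟩
      · exact h.2 rfl
      · apply hcon
        obtain ⟨x, hxA, hxD⟩ := h
        exact ⟨hbB, x, hxA, _, ⟨k, ⟨hk.1.1, hk.2⟩, rfl⟩, hxD⟩
    have h5 := isCyclic_iff.1 hF.isCyclic b hbF
    rw [mem_closure_iff_rk _ (by exact hFE hbF), insert_sdiff_singleton,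
      insert_eq_of_mem hbF] at h5
    have h6 := hat_rk_le hA hD (X := F \ {b}) (sdiff_subset.trans hFE)
    have h7 := Set.ncard_le_ncard h4 (Set.toFinite _)
    have h8 : b ∈ nb (hatFam M B A D) F := (mem_nb_iff hA hD hFE).2 ⟨hbB, Or.inl hbF⟩
    have h9 := Set.ncard_sdiff_singleton_add_one h8
    omega
  refine ⟨M.closure U, hcyc.isCyclicFlat_closure, ?_⟩
  rw [hat, NB_closure hA hD hcyc]
  ext x
  constructor
  · rintro (hx | hx)
    · exact h1 (h2 hx)
    · apply hgen x hx.1.1
      rw [hatFam_nb_compl hA hD hx.1]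
      refine Subset.trans (NB_mono B A hx.2) ?_
      rw [NB_closure hA hD hcyc]
      exact h2
  · intro hx
    by_cases hxB : x ∈ B
    · exact Or.inl (h3 ⟨hx, hxB⟩)
    · refine Or.inr ⟨⟨hFE hx, hxB⟩, ?_⟩
      refine Subset.trans ?_ (M.subset_closure U hUE)
      exact subset_sUnion_of_mem ⟨x, ⟨hx, hxB⟩, rfl⟩

lemma hat_le_iff {X Y : Set α} (hX : IsCyclicFlat M X) (hY : IsCyclicFlat M Y) :
    hat M B A D X ⊆ hat M B A D Y ↔ X ⊆ Y := by
  constructor
  · intro h
    have h1 : NB B A X ⊆ NB B A Y := by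
      rw [← hat_inter (M := M) (D := D) X, ← hat_inter (M := M) (D := D) Y]
      exact inter_subset_inter_right _ h
    have h2 : rk M (Y ∪ X) ≤ rk M Y := by
      rw [← hA.card _ (hY.isCyclic.union hX.isCyclic), ← hA.card _ hY.isCyclic, NB_union,
        union_eq_self_of_subset_right h1]
    have h3 := subset_closure_of_rk M subset_union_left
      (union_subset hY.subset_ground hX.subset_ground) h2
    rw [hY.1.closure] at h3
    exact subset_union_right.trans h3
  · exact hat_mono M B A D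

/-- the isomorphism of lattices of cyclic flats -/
noncomputable def hatIso : {X : Set α // IsCyclicFlat M X} ≃o
    {X : Set α // IsCyclicFlat (hatMatroid hA hD) X} where
  toEquiv := Equiv.ofBijective (fun X => ⟨hat M B A D X, hat_isCyclicFlat hA hD X.2⟩) (by
    constructor
    · intro X Y h
      have h1 : hat M B A D X.1 = hat M B A D Y.1 := congrArg Subtype.val h
      apply Subtype.ext
      exact subset_antisymm ((hat_le_iff hA hD X.2 Y.2).1 h1.subset)
        ((hat_le_iff hA hD Y.2 X.2).1 h1.symm.subset)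
    · rintro ⟨F, hF⟩
      obtain ⟨X, hX, hXF⟩ := hat_surj hA hD hF
      exact ⟨⟨X, hX⟩, Subtype.ext hXF⟩)
  map_rel_iff' := by
    intro X Y
    exact hat_le_iff hA hD X.2 Y.2

lemma hatIso_apply (X : {X : Set α // IsCyclicFlat M X}) :
    ((hatIso hA hD X : {X : Set α // IsCyclicFlat (hatMatroid hA hD) X}) : Set α)
      = hat M B A D X := rfl

lemma hat_rk_eq {X : Set α} (hX : IsCyclicFlat M X) :
    rk (hatMatroid hA hD) (hat M B A D X) = rk M X := by
  rw [hat_rk_hat, hA.card _ hX.isCyclic]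

end

end Pool.Agent.Helper84.BT
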