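import Pool.Agent.Helper84.BT.Config

open Set

namespace Pool.Agent.Helper84.BT

set_option linter.unusedSectionVars false

lemma IsPresentation.isTransversal {α ι : Type*} [Finite ι] {A : ι → Set α}
    {M : Matroid α} (h : IsPresentation A M) : IsTransversal M := by
  have := Fintype.ofFinite ι
  let e : ι ≃ Fin (Fintype.card ι) := Fintype.equivFin ι
  refine ⟨Fintype.card ι, fun i => A (e.symm i), fun i => h.1 _, fun I => ?_⟩
  rw [h.2]
  constructor
  · rintro ⟨f, hf, hfA⟩
    exact ⟨fun x => e (f x), e.injective.comp hf, fun x => by simpa using hfA x⟩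
  · rintro ⟨f, hf, hfA⟩
    exact ⟨fun x => e.symm (f x), e.symm.injective.comp hf, hfA⟩

section dual

variable {α β : Type*} [Finite α] [Finite β] {M : Matroid α} {N : Matroid β}

/-- complementation of cyclic flats -/
def coZ (X : Z M) : Z M✶ := ⟨M.E \ X, X.2.dual⟩

/-- complementation of cyclic flats -/
def coZ' (X : Z M✶) : Z M := ⟨M.E \ X, X.2.dual'⟩

lemma coZ_coZ' (X : Z M✶) : coZ (coZ' X) = X := by
  apply Subtype.ext
  change M.E \ (M.E \ (X : Set α)) = X
  rw [sdiff_sdiff_right_self]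
  exact inter_eq_self_of_subset_right X.2.subset_ground

lemma coZ'_coZ (X : Z M) : coZ' (coZ X) = X := by
  apply Subtype.ext
  change M.E \ (M.E \ (X : Set α)) = X
  rw [sdiff_sdiff_right_self]
  exact inter_eq_self_of_subset_right X.2.subset_ground

lemma coZ_le {X Y : Z M} : coZ X ≤ coZ Y ↔ Y ≤ X := by
  constructor
  · intro h x hx
    by_contra hcon
    exact (h ⟨Y.2.subset_ground hx, hcon⟩).2 hx
  · intro h x hx
    exact ⟨hx.1, fun hxY => hx.2 (h hxY)⟩

lemma coZ'_le {X Y : Z M✶} : coZ' X ≤ coZ' Y ↔ Y ≤ X := by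
  rw [← coZ_le, coZ_coZ', coZ_coZ']

/-- the dual isomorphism -/
def dualIso (φ : Z M ≃o Z N) : Z M✶ ≃o Z N✶ where
  toFun X := coZ (φ (coZ' X))
  invFun X := coZ (φ.symm (coZ' X))
  left_inv X := by simp [coZ'_coZ, coZ_coZ']
  right_inv X := by simp [coZ'_coZ, coZ_coZ']
  map_rel_iff' := by
    intro X Y
    change coZ (φ (coZ' X)) ≤ coZ (φ (coZ' Y)) ↔ X ≤ Y
    rw [coZ_le, φ.le_iff_le, coZ'_le]

lemma rk_coZ (X : Z M) : rk M✶ (coZ X) + rk M M.E + (X : Set α).ncard
    = rk M X + M.E.ncard := by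
  have h1 := rk_dual M (X := M.E \ X) sdiff_subset
  rw [sdiff_sdiff_right_self, inter_eq_self_of_subset_right X.2.subset_ground] at h1
  have h2 := Set.ncard_sdiff_add_ncard_of_subset X.2.subset_ground
  change rk M✶ (M.E \ X) + rk M M.E + _ = _
  omega

lemma ncard_coZ (X : Z M) : (coZ X : Set α).ncard + (X : Set α).ncard = M.E.ncard :=
  Set.ncard_sdiff_add_ncard_of_subset X.2.subset_ground

lemma iInter_coZ {S : Set (Z M)} (hS : S.Nonempty) :
    (⋂ X ∈ coZ '' S, (X : Set α)) = M.E \ ⋃ X ∈ S, (X : Set α) := by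
  obtain ⟨X0, hX0⟩ := hS
  rw [biInter_image]
  ext x
  simp only [mem_iInter, mem_sdiff, mem_iUnion, exists_prop, not_exists, not_and]
  constructor
  · intro h
    have h' : ∀ X ∈ S, x ∈ M.E \ (X : Set α) := h
    exact ⟨(h' X0 hX0).1, fun X hX => (h' X hX).2⟩
  · rintro ⟨h, h2⟩ X hX
    exact ⟨h, h2 X hX⟩

lemma iUnion_coZ (S : Set (Z M)) :
    (⋃ X ∈ coZ '' S, (X : Set α)) = M.E \ ⋂ X ∈ S, (X : Set α) := by
  rw [biUnion_image]
  ext x
  simp only [mem_iInter, mem_sdiff, mem_iUnion, exists_prop, not_forall]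
  constructor
  · rintro ⟨X, hX, hx⟩
    have h' : x ∈ M.E \ (X : Set α) := hx
    exact ⟨h'.1, X, hX, h'.2⟩
  · rintro ⟨hx, X, hX, hxX⟩
    exact ⟨X, hX, hx, hxX⟩

end dual

section main

variable {α β : Type*} [Finite α] [Finite β] {M : Matroid α} {N : Matroid β}

/-- The comparison relation between `M` and `N` along the isomorphism `φ` of their lattices of
cyclic flats. -/
structure Dom (φ : Z M ≃o Z N) : Prop where
  ground : N.E.ncard = M.E.ncard
  rk : ∀ X : Z M, rk N (φ X) = rk M X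
  card : ∀ X : Z M, (φ X : Set β).ncard = (X : Set α).ncard
  inter : ∀ S : Set (Z M), S.Nonempty →
      (⋂ X ∈ S, (X : Set α)).ncard ≤ (⋂ X ∈ S, (φ X : Set β)).ncard
  union : ∀ S : Set (Z M), S.Nonempty →
      (⋃ X ∈ S, (φ X : Set β)).ncard ≤ (⋃ X ∈ S, (X : Set α)).ncard

lemma Dom.dual {φ : Z M ≃o Z N} (h : Dom φ) : Dom (dualIso φ) := by
  have hrE := rk_ground_map φ h.rk h.card h.ground
  have key : ∀ X : Z M✶, ∃ Y : Z M, coZ Y = X := fun X => ⟨coZ' X, coZ_coZ' X⟩
  have happ : ∀ Y : Z M, dualIso φ (coZ Y) = coZ (φ Y) := by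
    intro Y
    change coZ (φ (coZ' (coZ Y))) = _
    rw [coZ'_coZ]
  have hsub : ∀ S : Set (Z M), (⋃ X ∈ S, (X : Set α)) ⊆ M.E := iUnion_subset_ground
  have hS' : ∀ S : Set (Z M✶), S = coZ '' (coZ' '' S) := by
    intro S
    rw [image_image]
    simp only [coZ_coZ', image_id']
  have hcomp : ∀ S : Set (Z M), (⋂ X ∈ coZ '' S, (dualIso φ X : Set β)) =
      ⋂ X ∈ coZ '' (φ '' S), (X : Set β) := by
    intro S
    rw [biInter_image, biInter_image, biInter_image]
    simp only [happ]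
  refine ⟨h.ground, ?_, ?_, ?_, ?_⟩
  · intro X
    obtain ⟨Y, rfl⟩ := key X
    rw [happ]
    have h1 := rk_coZ Y
    have h2 := rk_coZ (φ Y)
    have h3 := h.rk Y
    have h4 := h.card Y
    have h5 := h.ground
    have h6 := Set.ncard_le_ncard Y.2.subset_ground (Set.toFinite _)
    omega
  · intro X
    obtain ⟨Y, rfl⟩ := key X
    rw [happ]
    have h1 := ncard_coZ Y
    have h2 := ncard_coZ (φ Y)
    have h4 := h.card Y
    have h5 := h.ground
    omega
  · intro S hS
    obtain ⟨T, hT, rfl⟩ : ∃ T : Set (Z M), T.Nonempty ∧ S = coZ '' T :=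
      ⟨coZ' '' S, hS.image _, hS' S⟩
    rw [hcomp, iInter_coZ hT, iInter_coZ (hT.image φ), biUnion_image]
    have h1 := h.union T hT
    have h2 := Set.ncard_sdiff_add_ncard_of_subset (hsub T)
    have h3 := Set.ncard_sdiff_add_ncard_of_subset (iUnion_subset_ground (φ '' T))
    rw [biUnion_image] at h3
    have h5 := h.ground
    omega
  · intro S hS
    obtain ⟨T, hT, rfl⟩ : ∃ T : Set (Z M), T.Nonempty ∧ S = coZ '' T :=
      ⟨coZ' '' S, hS.image _, hS' S⟩
    have hcomp' : (⋃ X ∈ coZ '' T, (dualIso φ X : Set β)) =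
        ⋃ X ∈ coZ '' (φ '' T), (X : Set β) := by
      rw [biUnion_image, biUnion_image, biUnion_image]
      simp only [happ]
    rw [hcomp', iUnion_coZ T, iUnion_coZ (φ '' T), biInter_image]
    have h1 := h.inter T hT
    have h2 := Set.ncard_sdiff_add_ncard_of_subset (flat_iInter hT).subset_ground
    have h3 := Set.ncard_sdiff_add_ncard_of_subset (flat_iInter (hT.image φ)).subset_ground
    rw [biInter_image] at h3
    have h5 := h.ground
    omega

/-- one direction of the characterization -/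
theorem Dom.isTransversal {φ : Z M ≃o Z N} (h : Dom φ) (hN : IsPrincipal N) :
    IsTransversal M := by
  obtain ⟨B, hB⟩ := hN.exists_fund
  exact (conf_presentation φ h.rk h.card hB h.ground h.inter).isTransversal

theorem Dom.isTransversal_dual {φ : Z M ≃o Z N} (h : Dom φ) (hN : IsPrincipal N) :
    IsTransversal M✶ := by
  obtain ⟨B, hB⟩ := hN.exists_fund
  exact h.dual.isTransversal hB.dual.isPrincipal

/-- the other direction -/
theorem exists_dom (h1 : IsTransversal M) (h2 : IsTransversal M✶) :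
    ∃ N : Matroid α, IsPrincipal N ∧ N.E = M.E ∧ ∃ φ : Z M ≃o Z N, Dom φ := by
  obtain ⟨m1, A0, hA0⟩ := h1
  obtain ⟨m2, D0, hD0⟩ := h2
  obtain ⟨B, hB⟩ := M.exists_isBase
  obtain ⟨A, hA⟩ := exists_half hA0 hB
  obtain ⟨D, hD⟩ := exists_half hD0 hB.compl_isBase_dual
  refine ⟨hatMatroid hA hD, (hat_fund hA hD).isPrincipal, rfl, hatIso hA hD, rfl, ?_, ?_, ?_, ?_⟩
  · intro X
    exact hat_rk_eq hA hD X.2
  · intro X
    exact ncard_hat_eq hA hD X.2
  · intro S hS
    have := ncard_le_hat hA hD (S := Subtype.val '' S)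
      (by rintro _ ⟨X, -, rfl⟩; exact X.2) (hS.image _)
    rw [sInter_image, image_image, sInter_image] at this
    exact this
  · intro S hS
    have := hat_union_le hA hD (S := Subtype.val '' S)
      (by rintro _ ⟨X, -, rfl⟩; exact X.2) (hS.image _)
    rw [sUnion_image, biUnion_image, sUnion_image] at this
    exact this

end main

end Pool.Agent.Helper84.BT
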