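import Pool.Agent.Helper84.BT.Main
import Pool.Agent.Helper84.BT.Count

open Set

namespace Pool.Agent.Helper84.BT

set_option linter.unusedSectionVars false

/-- every two cyclic flats form a modular pair -/
def ModZ {α : Type*} (M : Matroid α) : Prop :=
  ∀ X Y : Z M, rk M (X : Set α) + rk M Y = rk M ((X : Set α) ∪ Y) + rk M ((X : Set α) ∩ Y)

section pre

variable {α β : Type*} [Finite α] [Finite β] {M : Matroid α} {N : Matroid β}

/-- in a principal transversal matroid every two cyclic flats form a modular pair -/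
lemma Fund.modular {B : Set β} (h : Fund N B) {X Y : Set β} (hX : IsCyclicFlat N X)
    (hY : IsCyclicFlat N Y) : rk N X + rk N Y = rk N (X ∪ Y) + rk N (X ∩ Y) := by
  have h1 := h.rk_eq hX
  have h2 := h.rk_eq hY
  have h3 := (h.isBasis_sInter (S := {X, Y}) ⟨X, by simp⟩
    (by rintro Z (rfl | rfl) <;> assumption)).ncard_eq_rk'
  rw [sInter_pair] at h3
  have h4 : rk N (X ∪ Y) = (B ∩ (X ∪ Y)).ncard := by
    have hI : N.Indep (B ∩ (X ∪ Y)) := h.base.indep.subset inter_subset_left
    symm
    apply Matroid.IsBasis.ncard_eq_rk'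
    apply hI.isBasis_of_subset_of_subset_closure inter_subset_right
    apply union_subset
    · exact (h.basis X hX).subset_closure.trans (N.closure_subset_closure
        (inter_subset_inter_right _ subset_union_left))
    · exact (h.basis Y hY).subset_closure.trans (N.closure_subset_closure
        (inter_subset_inter_right _ subset_union_right))
  have h5 := Set.ncard_union_add_ncard_inter (B ∩ X) (B ∩ Y)
  rw [← inter_union_distrib_left, ← inter_inter_distrib_left] at h5
  omega

lemma incl_excl {γ : Type*} [Finite γ] {A J X Y : Set γ} (hX : X ⊆ J) (hY : Y ⊆ J) :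
    (A ∩ J).ncard + (A ∩ X ∩ Y).ncard =
      ((A ∩ J) \ (X ∪ Y)).ncard + (A ∩ X).ncard + (A ∩ Y).ncard := by
  have h1 := Set.ncard_union_add_ncard_inter (A ∩ X) (A ∩ Y)
  rw [← inter_union_distrib_left, ← inter_inter_distrib_left, ← inter_assoc] at h1
  have h2 := Set.ncard_sdiff_add_ncard_of_subset
    (show A ∩ (X ∪ Y) ⊆ A ∩ J from inter_subset_inter_right _ (union_subset hX hY))
  have h3 : (A ∩ J) \ (A ∩ (X ∪ Y)) = (A ∩ J) \ (X ∪ Y) := by
    ext x
    simp only [mem_sdiff, mem_inter_iff, not_and]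
    tauto
  rw [h3] at h2
  omega

variable {φ : Z M ≃o Z N}

lemma Dom.pair (h : Dom φ) {B : Set β} (hB : Fund N B)
    (hmod : ModZ M)
    (X Y : Z M) : ((X : Set α) ∩ Y).ncard = ((φ X : Set β) ∩ φ Y).ncard := by
  have h1 := hmod X Y
  have h2 := hB.modular (φ X).2 (φ Y).2
  have h3 := rk_iUnion_map φ h.rk {X, Y}
  have h4 := nullity_iInter_map φ h.rk h.card (S := {X, Y}) ⟨X, by simp⟩
  rw [biUnion_pair, biUnion_pair] at h3
  rw [biInter_pair, biInter_pair] at h4
  rw [h.rk, h.rk] at h2
  omega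

lemma three {γ : Type*} [Finite γ] (X Y W : Set γ) :
    (X ∪ Y ∪ W).ncard + (X ∩ Y).ncard + (X ∩ W).ncard + (Y ∩ W).ncard =
      X.ncard + Y.ncard + W.ncard + (X ∩ Y ∩ W).ncard := by
  have h1 := Set.ncard_union_add_ncard_inter (X ∪ Y) W
  have h2 := Set.ncard_union_add_ncard_inter X Y
  have h3 := Set.ncard_union_add_ncard_inter (X ∩ W) (Y ∩ W)
  rw [← union_inter_distrib_right] at h3
  have h4 : X ∩ W ∩ (Y ∩ W) = X ∩ Y ∩ W := by
    ext x; simp only [mem_inter_iff]; tauto
  rw [h4] at h3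
  omega

lemma Dom.triple (h : Dom φ) {B : Set β} (hB : Fund N B)
    (hmod : ModZ M)
    (X Y W : Z M) :
    ((X : Set α) ∩ Y ∩ W).ncard = ((φ X : Set β) ∩ φ Y ∩ φ W).ncard := by
  have h1 := h.inter {X, Y, W} ⟨X, by simp⟩
  have h2 := h.union {X, Y, W} ⟨X, by simp⟩
  rw [biInter_insert, biInter_pair, biInter_insert, biInter_pair, ← inter_assoc,
    ← inter_assoc] at h1
  rw [biUnion_insert, biUnion_pair, biUnion_insert, biUnion_pair, ← union_assoc,
    ← union_assoc] at h2
  have h3 := three (X : Set α) Y W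
  have h4 := three (φ X : Set β) (φ Y) (φ W)
  have h5 := h.pair hB hmod X Y
  have h6 := h.pair hB hmod X W
  have h7 := h.pair hB hmod Y W
  have h8 := h.card X
  have h9 := h.card Y
  have h10 := h.card W
  omega

lemma Dom.all_aux (h : Dom φ) {B : Set β} (hB : Fund N B)
    (hmod : ModZ M)
    (S : Set (Z M)) (hS : S.Nonempty) :
    ∀ X Y : Z M, ((⋂ X ∈ S, (X : Set α)) ∩ X ∩ Y).ncard =
      ((⋂ X ∈ S, (φ X : Set β)) ∩ φ X ∩ φ Y).ncard := by
  have hfin : S.Finite := Set.toFinite S
  induction S, hfin using Set.Finite.induction_on with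
  | empty => exact absurd hS (by simp)
  | insert hnot hfin ih =>
    rename_i t S
    intro X Y
    by_cases hSe : S.Nonempty
    · have ih' := ih hSe
      set I := (⋂ X ∈ insert t S, (X : Set α)) with hI
      set I' := (⋂ X ∈ insert t S, (φ X : Set β)) with hI'
      have eI : I = (⋂ X ∈ S, (X : Set α)) ∩ t := by rw [hI, biInter_insert, inter_comm]
      have eI' : I' = (⋂ X ∈ S, (φ X : Set β)) ∩ φ t := by rw [hI', biInter_insert, inter_comm]
      have hTne : (insert t S).Nonempty := ⟨t, by simp⟩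
      set W := meetZ M (insert t S) hTne with hW
      set J := joinZ M {X, Y} with hJ
      have hXJ : X ≤ J := (isLUB_joinZ _).1 (by simp)
      have hYJ : Y ≤ J := (isLUB_joinZ _).1 (by simp)
      have a1 := ih' t J
      have a2 := ih' t X
      have a3 := ih' t Y
      rw [← eI, ← eI'] at a1 a2 a3
      have a4 : (I ∩ X ∩ Y).ncard ≤ (I' ∩ φ X ∩ φ Y).ncard := by
        have := h.inter (insert X (insert Y (insert t S))) ⟨X, by simp⟩
        rw [biInter_insert X, biInter_insert Y, biInter_insert X, biInter_insert Y, ← hI, ← hI']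
          at this
        have e1 : (X : Set α) ∩ (Y ∩ I) = I ∩ X ∩ Y := by
          ext x; simp only [mem_inter_iff]; tauto
        have e2 : (φ X : Set β) ∩ (φ Y ∩ I') = I' ∩ φ X ∩ φ Y := by
          ext x; simp only [mem_inter_iff]; tauto
        rwa [e1, e2] at this
      have b1 := h.pair hB hmod W J
      have b2 := h.pair hB hmod W X
      have b3 := h.pair hB hmod W Y
      have b4 := h.triple hB hmod W X Y
      have hXJ' : (φ X : Set β) ⊆ φ J := φ.monotone hXJ
      have hYJ' : (φ Y : Set β) ⊆ φ J := φ.monotone hYJ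
      have c1 := incl_excl (A := I) (show (X : Set α) ⊆ J from hXJ) (show (Y : Set α) ⊆ J from hYJ)
      have c2 := incl_excl (A := I') hXJ' hYJ'
      have c3 := incl_excl (A := (W : Set α)) (show (X : Set α) ⊆ J from hXJ)
        (show (Y : Set α) ⊆ J from hYJ)
      have c4 := incl_excl (A := (φ W : Set β)) hXJ' hYJ'
      have hWI : (W : Set α) ⊆ I := cyc_subset
      have d1 : ((W : Set α) ∩ J) \ (X ∪ Y) ⊆ (I ∩ J) \ (X ∪ Y) :=
        sdiff_subset_sdiff_left (inter_subset_inter_left _ hWI)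
      have d2 : (I' ∩ φ J) \ ((φ X : Set β) ∪ φ Y) ⊆ ((φ W : Set β) ∩ φ J) \ (φ X ∪ φ Y) := by
        rintro x ⟨⟨hx1, hx2⟩, hx3⟩
        refine ⟨⟨?_, hx2⟩, hx3⟩
        have hxB : x ∉ B := by
          intro hxB
          have h1 := hB.closure_sUnion (S := {(φ X : Set β), (φ Y : Set β)})
            (by rintro Z (rfl | rfl); exacts [(φ X).2, (φ Y).2])
          have h2 : (φ J : Set β) = N.closure (⋃₀ {(φ X : Set β), (φ Y : Set β)}) := by
            rw [hJ, map_joinZ]
            change N.closure (⋃ X' ∈ φ '' {X, Y}, (X' : Set β)) = _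
            rw [biUnion_image, biUnion_pair, sUnion_pair]
          have h3 : x ∈ B ∩ (φ J : Set β) := ⟨hxB, hx2⟩
          rw [h2, h1, sUnion_pair] at h3
          exact hx3 h3.2
        have h1 := hB.sInter_sdiff (S := Subtype.val '' (φ '' (insert t S)))
          ((hTne.image _).image _) (by rintro _ ⟨X, -, rfl⟩; exact X.2)
        rw [sInter_image, biInter_image, ← hI'] at h1
        have h2 : (φ W : Set β) = cyc N I' := by
          rw [hW, map_meetZ]
          change cyc N (⋂ X' ∈ φ '' (insert t S), (X' : Set β)) = _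
          rw [biInter_image]
        rw [h2]
        exact h1 ⟨hx1, hxB⟩
      have e1 := Set.ncard_le_ncard d1 (Set.toFinite _)
      have e2 := Set.ncard_le_ncard d2 (Set.toFinite _)
      omega
    · rw [not_nonempty_iff_eq_empty] at hSe
      subst hSe
      simp only [insert_empty_eq, biInter_singleton]
      exact h.triple hB hmod t X Y

lemma Dom.all (h : Dom φ) {B : Set β} (hB : Fund N B)
    (hmod : ModZ M)
    (S : Set (Z M)) (hS : S.Nonempty) :
    (⋂ X ∈ S, (X : Set α)).ncard = (⋂ X ∈ S, (φ X : Set β)).ncard := by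
  obtain ⟨X, hX⟩ := hS
  have h1 := h.all_aux hB hmod S ⟨X, hX⟩ X X
  have e1 : (⋂ X ∈ S, (X : Set α)) ∩ X ∩ X = ⋂ X ∈ S, (X : Set α) := by
    rw [inter_assoc, inter_self]
    exact inter_eq_self_of_subset_left (biInter_subset_of_mem hX)
  have e2 : (⋂ X ∈ S, (φ X : Set β)) ∩ φ X ∩ φ X = ⋂ X ∈ S, (φ X : Set β) := by
    rw [inter_assoc, inter_self]
    exact inter_eq_self_of_subset_left (biInter_subset_of_mem hX)
  rwa [e1, e2] at h1

/-- a bijection of the ground sets matching all cyclic flats -/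
lemma exists_equiv (hE : N.E.ncard = M.E.ncard)
    (hall : ∀ S : Set (Z M), S.Nonempty →
      (⋂ X ∈ S, (X : Set α)).ncard = (⋂ X ∈ S, (φ X : Set β)).ncard) :
    ∃ e : M.E ≃ N.E, ∀ (X : Z M) (a : M.E), (a : α) ∈ (X : Set α) ↔ (e a : β) ∈ (φ X : Set β) := by
  apply exists_equiv_of_inter_card (fun X : Z M => {a : M.E | (a : α) ∈ (X : Set α)})
    (fun X : Z M => {b : N.E | (b : β) ∈ (φ X : Set β)})
  intro S
  rw [← Set.ncard_image_of_injective _ Subtype.val_injective,
    ← Set.ncard_image_of_injective {b : N.E | _} Subtype.val_injective]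
  rcases S.eq_empty_or_nonempty with rfl | hS
  · have e1 : Subtype.val '' {a : M.E | ∀ i ∈ (∅ : Set (Z M)), a ∈ {a : M.E | (a : α) ∈ (i : Set α)}}
        = M.E := by
      ext x; simp
    have e2 : Subtype.val '' {a : N.E | ∀ i ∈ (∅ : Set (Z M)), a ∈ {a : N.E | (a : β) ∈ (φ i : Set β)}}
        = N.E := by
      ext x; simp
    rw [e1, e2, hE]
  · have e1 : Subtype.val '' {a : M.E | ∀ i ∈ S, a ∈ {a : M.E | (a : α) ∈ (i : Set α)}}
        = ⋂ X ∈ S, (X : Set α) := by
      ext x
      simp only [mem_ofPred_eq, mem_image, Subtype.exists, exists_and_left, exists_prop,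
        exists_eq_right_right, mem_iInter]
      obtain ⟨X0, hX0⟩ := hS
      exact ⟨fun h => h.1, fun h => ⟨h, X0.2.subset_ground (h X0 hX0)⟩⟩
    have e2 : Subtype.val '' {a : N.E | ∀ i ∈ S, a ∈ {a : N.E | (a : β) ∈ (φ i : Set β)}}
        = ⋂ X ∈ S, (φ X : Set β) := by
      ext x
      simp only [mem_ofPred_eq, mem_image, Subtype.exists, exists_and_left, exists_prop,
        exists_eq_right_right, mem_iInter]
      obtain ⟨X0, hX0⟩ := hS
      exact ⟨fun h => h.1, fun h => ⟨h, (φ X0).2.subset_ground (h X0 hX0)⟩⟩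
    rw [e1, e2]
    exact hall S hS

end pre

end Pool.Agent.Helper84.BT
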