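import Pool.Agent.Helper84.BT.Main

/-!
# Mutually expanding families: duality of transversal matroids
-/

open Set

namespace Pool.Agent.Helper84.BT

set_option linter.unusedSectionVars false

/-- the indices of the members of `Y` that meet `T` -/
abbrev meets {α κ : Type*} (Y : κ → Set α) (T : Set α) : Set κ := {j | (Y j ∩ T).Nonempty}

section expand

variable {α ι κ : Type*} [Finite α] [Finite ι] [Finite κ]

/-- counting form of the expansion property -/
def Exps (A : ι → Set α) (Y : κ → Set α) : Prop :=
  ∀ I : Set ι, I.ncard + (meets Y (⋃ i ∈ I, A i)).ncard ≤ (⋃ i ∈ I, A i).ncard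

/-- counting form of the tight expansion property -/
def ExpsEq (A : ι → Set α) (Y : κ → Set α) : Prop :=
  ∀ I : Set ι, I.ncard + (meets Y (⋃ i ∈ I, A i)).ncard = (⋃ i ∈ I, A i).ncard

lemma ExpsEq.exps {A : ι → Set α} {Y : κ → Set α} (h : ExpsEq A Y) : Exps A Y :=
  fun I => (h I).le

/-- Hall's theorem from the side of the indices -/
lemma exists_sdr (Y : κ → Set α) (T : Set α)
    (h : ∀ J : Set κ, J.ncard ≤ ((⋃ j ∈ J, Y j) ∩ T).ncard) :
    ∃ f : κ → α, Function.Injective f ∧ ∀ j, f j ∈ Y j ∩ T := by
  classical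
  have := Fintype.ofFinite κ
  have := Fintype.ofFinite α
  have key := (Finset.all_card_le_biUnion_card_iff_exists_injective
    (ι := κ) (α := α) (fun j => Finset.univ.filter (fun x => x ∈ Y j ∩ T))).1 (by
      intro s
      have h1 := h (s : Set κ)
      rw [Set.ncard_coe_finset] at h1
      refine h1.trans ?_
      rw [← Set.ncard_coe_finset]
      apply Set.ncard_le_ncard _ (Set.toFinite _)
      rintro x ⟨hx, hxT⟩
      simp only [mem_iUnion, Finset.mem_coe, exists_prop] at hx
      obtain ⟨j, hj, hxj⟩ := hx
      simp only [Finset.coe_biUnion, Finset.coe_filter, Finset.mem_univ, true_and, mem_iUnion,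
        Finset.mem_coe, mem_ofPred_eq, exists_prop]
      exact ⟨j, hj, hxj, hxT⟩)
  obtain ⟨f, hf, hfY⟩ := key
  refine ⟨f, hf, fun j => ?_⟩
  have := hfY j
  simpa only [Finset.mem_filter, Finset.mem_univ, true_and] using this

/-- a system of distinct representatives inside a set of the right size covers it -/
lemma isPartialTransversal_of_sdr {Y : κ → Set α} {T : Set α} {f : κ → α}
    (hf : Function.Injective f) (hfY : ∀ j, f j ∈ Y j ∩ T) (hT : T.ncard ≤ Nat.card κ) :
    IsPartialTransversal Y T := by
  classical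
  have h1 : range f = T := by
    apply Set.eq_of_subset_of_ncard_le (by rintro _ ⟨j, rfl⟩; exact (hfY j).2) _ (Set.toFinite _)
    rw [← image_univ, Set.ncard_image_of_injective _ hf, Set.ncard_univ]
    exact hT
  have h2 : ∀ x : T, ∃ j, f j = x := fun x => by
    have : (x : α) ∈ range f := by rw [h1]; exact x.2
    exact this
  choose g hg using h2
  refine ⟨g, fun x y hxy => ?_, fun x => ?_⟩
  · apply Subtype.ext
    rw [← hg x, ← hg y, hxy]
  · have := (hfY (g x)).1
    rwa [hg x] at this

lemma ncard_le_card_of_pt {A : ι → Set α} {I : Set α} (h : IsPartialTransversal A I) :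
    I.ncard ≤ Nat.card ι := by
  obtain ⟨f, hf, -⟩ := h
  have h1 := Nat.card_le_card_of_injective f hf
  rwa [Nat.card_coe_set_eq] at h1

/-- the complement of a full transversal is a transversal -/
lemma compl_pt {E : Set α} {A : ι → Set α} {Y : κ → Set α} (hY : ∀ j, Y j ⊆ E)
    (hcard : E.ncard = Nat.card ι + Nat.card κ) (hexp : Exps Y A) {C : Set α} (hCE : C ⊆ E)
    (hC : IsPartialTransversal A C) (hCr : C.ncard = Nat.card ι) :
    IsPartialTransversal Y (E \ C) := by
  classical
  have hm : (E \ C).ncard = Nat.card κ := by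
    have := Set.ncard_sdiff_add_ncard_of_subset hCE
    omega
  obtain ⟨g, hg, hgA⟩ := hC
  obtain ⟨f, hf, hfY⟩ := exists_sdr Y (E \ C) (by
    intro J
    have h1 := hexp J
    set T := ⋃ j ∈ J, Y j with hT
    have hTE : T ⊆ E := iUnion₂_subset fun j _ => hY j
    -- the elements of C in T are matched to members of A meeting T
    have h2 : (C ∩ T).ncard ≤ (meets A T).ncard := by
      have h3 : (g '' {x : C | (x : α) ∈ T}) ⊆ meets A T := by
        rintro _ ⟨x, hx, rfl⟩
        exact ⟨x, hgA x, hx⟩
      have h4 := Set.ncard_le_ncard h3 (Set.toFinite _)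
      rw [Set.ncard_image_of_injective _ hg] at h4
      have h5 : (C ∩ T) = Subtype.val '' {x : C | (x : α) ∈ T} := by
        ext y
        constructor
        · rintro ⟨hy, hyT⟩
          exact ⟨⟨y, hy⟩, hyT, rfl⟩
        · rintro ⟨x, hx, rfl⟩
          exact ⟨x.2, hx⟩
      rw [h5, Set.ncard_image_of_injective _ Subtype.val_injective]
      exact h4
    have h6 : T = (C ∩ T) ∪ (T ∩ (E \ C)) := by
      ext y
      constructor
      · intro hy
        by_cases hyC : y ∈ C
        · exact Or.inl ⟨hyC, hy⟩
        · exact Or.inr ⟨hy, hTE hy, hyC⟩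
      · rintro (h | h)
        · exact h.2
        · exact h.1
    have h7 : T.ncard ≤ (C ∩ T).ncard + (T ∩ (E \ C)).ncard := by
      conv_lhs => rw [h6]
      exact Set.ncard_union_le _ _
    omega)
  exact isPartialTransversal_of_sdr hf hfY hm.le

/-- existence of a full transversal -/
lemma exists_full {A : ι → Set α} {Y : κ → Set α} (hexp : Exps A Y) :
    ∃ C, IsPartialTransversal A C ∧ C.ncard = Nat.card ι := by
  obtain ⟨f, hf, hfA⟩ := exists_sdr A Set.univ (by
    intro I
    rw [inter_univ]
    have := hexp I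
    omega)
  have h1 : (range f).ncard = Nat.card ι := by
    rw [← image_univ, Set.ncard_image_of_injective _ hf, Set.ncard_univ]
  exact ⟨range f, isPartialTransversal_of_sdr hf (fun j => ⟨(hfA j).1, mem_range_self j⟩) h1.le, h1⟩

lemma isBase_iff_of_full {M : Matroid α} {A : ι → Set α} (hA : IsPresentation A M)
    (hfull : ∃ C, IsPartialTransversal A C ∧ C.ncard = Nat.card ι) {C : Set α} :
    M.IsBase C ↔ IsPartialTransversal A C ∧ C.ncard = Nat.card ι := by
  have key : ∀ C, IsPartialTransversal A C → C.ncard = Nat.card ι → M.IsBase C := by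
    intro C hC hCr
    obtain ⟨B, hB, hCB⟩ := ((hA.2 C).2 hC).exists_isBase_superset
    have h1 := ncard_le_card_of_pt ((hA.2 B).1 hB.indep)
    have h2 : C = B := Set.eq_of_subset_of_ncard_le hCB (by omega) (Set.toFinite _)
    rw [h2]; exact hB
  constructor
  · intro hC
    obtain ⟨C0, hC0, hr⟩ := hfull
    have h0 := key C0 hC0 hr
    refine ⟨(hA.2 C).1 hC.indep, ?_⟩
    have h1 := hC.encard_eq_encard_of_isBase h0
    rw [← Set.Finite.cast_ncard_eq (Set.toFinite C), ← Set.Finite.cast_ncard_eq (Set.toFinite C0)]
      at h1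
    rw [← hr]
    exact_mod_cast h1
  · rintro ⟨h1, h2⟩
    exact key C h1 h2

/-- mutually expanding families present dual matroids -/
theorem dual_of_exps {E : Set α} {A : ι → Set α} {Y : κ → Set α} (hA : ∀ i, A i ⊆ E)
    (hY : ∀ j, Y j ⊆ E) (hcard : E.ncard = Nat.card ι + Nat.card κ) (h1 : Exps A Y)
    (h2 : Exps Y A) : IsPresentation Y (transMatroid E A hA)✶ := by
  have e1 : (transMatroid E A hA)✶ = transMatroid E Y hY := by
    apply Matroid.ext_isBase
    · rfl
    · intro B hB
      have hBE : B ⊆ E := hB
      rw [Matroid.dual_isBase_iff (M := transMatroid E A hA) hBE]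
      rw [isBase_iff_of_full (transMatroid_isPresentation E A hA) (exists_full h1),
        isBase_iff_of_full (transMatroid_isPresentation E Y hY) (exists_full h2)]
      change IsPartialTransversal A (E \ B) ∧ (E \ B).ncard = Nat.card ι ↔ _
      have hn := Set.ncard_sdiff_add_ncard_of_subset hBE
      constructor
      · rintro ⟨h3, h4⟩
        have h5 := compl_pt hY hcard h2 (sdiff_subset : E \ B ⊆ E) h3 h4
        rw [sdiff_sdiff_right_self, inter_eq_self_of_subset_right hBE] at h5
        exact ⟨h5, by omega⟩
      · rintro ⟨h3, h4⟩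
        refine ⟨compl_pt hA (by omega) h1 hBE h3 h4, by omega⟩
  rw [e1]
  exact transMatroid_isPresentation E Y hY

end expand

section half

variable {α : Type*} [Finite α] {M : Matroid α} {B : Set α} {A D : α → Set α}

/-- a Half is a presentation indexed by the base -/
lemma Half.presentation (hA : Half M B A) : IsPresentation (fun b : B => A (b : α)) M := by
  classical
  have hnbNB : ∀ T, (nb (fun b : B => A (b : α)) T).ncard = (NB B A T).ncard := by
    intro T
    rw [← Set.ncard_image_of_injective _ Subtype.val_injective]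
    congr 1
    ext y
    simp only [nb, NB, mem_ofPred_eq, mem_image, Subtype.exists, exists_and_right,
      exists_eq_right]
    constructor
    · rintro ⟨hy, h⟩; exact ⟨hy, h⟩
    · rintro ⟨hy, h⟩; exact ⟨hy, h⟩
  refine ⟨fun b => hA.sub b b.2, fun I => ?_⟩
  constructor
  · intro hI
    rw [Pool.Agent.Helper84.BT.hall]
    intro T hT
    rw [hnbNB]
    have hTi := hI.subset hT
    have hTE : T ⊆ M.E := hTi.subset_ground
    -- the greatest cyclic set
    set U := cyc M M.E with hU
    have hUc : IsCyclic M U := isCyclic_cyc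
    have hUE : U ⊆ M.E := hUc.subset_ground
    -- elements outside U are coloops, hence in every base
    have hcol : ∀ x ∈ M.E \ U, x ∈ B := by
      intro x hx
      by_contra hxB
      have h1 := hA.base.fundCircuit_isCircuit hx.1 hxB
      have h2 : IsCyclic M (M.fundCircuit x B) := fun y hy => ⟨_, Subset.rfl, h1, hy⟩
      exact hx.2 (h2.subset_cyc h1.subset_ground (M.mem_fundCircuit x B))
    have hNBU : NB B A U = B ∩ U := by
      symm
      apply Set.eq_of_subset_of_ncard_le
      · rintro b ⟨hb, hbU⟩
        exact ⟨hb, b, hA.mem b hb, hbU⟩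
      · rw [hA.card U hUc]
        -- rk U ≤ |B ∩ U|
        have h1 : rk M (B ∩ U) = rk M U := by
          have hsub : (B ∩ U) ⊆ U := inter_subset_right
          have h2 := nullity_cyc (M := M) (Y := M.E) Subset.rfl
          have h3 : rk M M.E = B.ncard := (hA.base.isBasis_ground.ncard_eq_rk').symm
          have h4 : (B ∩ U).ncard + (M.E \ U).ncard = B.ncard := by
            have h5 : B = (B ∩ U) ∪ (M.E \ U) := by
              ext x
              constructor
              · intro hx
                by_cases hxU : x ∈ U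
                · exact Or.inl ⟨hx, hxU⟩
                · exact Or.inr ⟨hA.base.subset_ground hx, hxU⟩
              · rintro (h | h)
                · exact h.1
                · exact hcol x h
            have h6 : Disjoint (B ∩ U) (M.E \ U) := by
              rw [Set.disjoint_left]
              intro x hx1 hx2
              exact hx2.2 hx1.2
            conv_rhs => rw [h5]
            exact (Set.ncard_union_eq h6 (Set.toFinite _) (Set.toFinite _)).symm
          have h7 := Set.ncard_sdiff_add_ncard_of_subset hUE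
          have h8 := (hA.base.indep.subset (inter_subset_left : B ∩ U ⊆ B)).ncard_eq_rk'
          rw [← hU] at h2
          omega
        rw [← h1, (hA.base.indep.subset (inter_subset_left : B ∩ U ⊆ B)).ncard_eq_rk']
      · exact Set.toFinite _
    have h1 := hA.hall (T ∩ U) (hTi.subset inter_subset_left) ⟨U, hUc, inter_subset_right⟩
    have h2 : NB B A (T ∩ U) ∪ (T \ U) ⊆ NB B A T := by
      rintro x (hx | hx)
      · exact NB_mono B A inter_subset_left hx
      · have hxB := hcol x ⟨hTE hx.1, hx.2⟩
        exact ⟨hxB, x, hA.mem x hxB, hx.1⟩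
    have h3 : Disjoint (NB B A (T ∩ U)) (T \ U) := by
      rw [Set.disjoint_left]
      intro x hx1 hx2
      have := NB_mono B A (inter_subset_right : T ∩ U ⊆ U) hx1
      rw [hNBU] at this
      exact hx2.2 this.2
    have h4 := Set.ncard_le_ncard h2 (Set.toFinite _)
    rw [Set.ncard_union_eq h3 (Set.toFinite _) (Set.toFinite _)] at h4
    have h5 := Set.ncard_inter_add_ncard_sdiff_eq_ncard T U (Set.toFinite _)
    omega
  · intro hI
    by_contra hdep
    have hIE : I ⊆ M.E := by
      obtain ⟨f, -, hf⟩ := hI
      intro x hx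
      exact hA.sub _ (f ⟨x, hx⟩).2 (hf ⟨x, hx⟩)
    have hD : M.Dep I := ⟨hdep, hIE⟩
    obtain ⟨C, hCI, hC⟩ := hD.exists_isCircuit_subset
    have h1 : IsCyclic M C := fun x hx => ⟨C, Subset.rfl, hC, hx⟩
    have h2 := hA.card C h1
    have h3 := (Pool.Agent.Helper84.BT.hall _ I).1 hI C hCI
    rw [hnbNB, h2] at h3
    exact hC.dep.not_indep (indep_of_ncard_le_rk M h3)

/-- the expansion property of the two halves -/
lemma half_exps (hA : Half M B A) (hD : Half M✶ (M.E \ B) D) {I : Set α} (hI : I ⊆ B) :
    I.ncard + {k | k ∈ M.E \ B ∧ (D k ∩ ⋃ b ∈ I, A b).Nonempty}.ncard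
      ≤ (⋃ b ∈ I, A b).ncard := by
  classical
  set T := ⋃ b ∈ I, A b with hT
  have hTE : T ⊆ M.E := iUnion₂_subset fun b hb => hA.sub b (hI hb)
  have hflat : M.IsFlat (M.E \ T) := by
    rcases eq_empty_or_nonempty I with h | h
    · have : T = ∅ := by rw [hT, h]; simp
      rw [this, sdiff_empty]; exact M.ground_isFlat
    · have : M.E \ T = ⋂ b : I, (M.E \ A b) := by
        ext x
        simp only [hT, mem_sdiff, mem_iUnion, exists_prop, not_exists, not_and, mem_iInter,
          Subtype.forall]
        constructor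
        · rintro ⟨hx, h2⟩ b hb; exact ⟨hx, h2 b hb⟩
        · intro h2
          obtain ⟨b0, hb0⟩ := h
          exact ⟨(h2 b0 hb0).1, fun b hb => (h2 b hb).2⟩
      rw [this]
      have : Nonempty I := h.to_subtype
      exact Matroid.IsFlat.iInter fun b => hA.flat b (hI b.2)
  have h1 := ncard_QB hA hD hflat
  have h2 : rk M (M.E \ T) + I.ncard ≤ B.ncard := by
    have h3 := rk_le_nb hA.presentation (X := M.E \ T) sdiff_subset
    have h4 : (nb (fun b : B => A (b : α)) (M.E \ T)).ncard ≤ (B \ I).ncard := by
      rw [← Set.ncard_image_of_injective _ Subtype.val_injective]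
      apply Set.ncard_le_ncard _ (Set.toFinite _)
      rintro _ ⟨b, ⟨x, hx, hxT⟩, rfl⟩
      refine ⟨b.2, fun hbI => hxT.2 ?_⟩
      rw [hT]
      exact mem_iUnion₂.2 ⟨b, hbI, hx⟩
    have h5 := Set.ncard_sdiff_add_ncard_of_subset hI
    omega
  have h6 := Set.ncard_sdiff_add_ncard_of_subset hTE
  have h7 := Set.ncard_sdiff_add_ncard_of_subset hA.base.subset_ground
  have h8 : (QB M B D (M.E \ T)).ncard +
      {k | k ∈ M.E \ B ∧ (D k ∩ T).Nonempty}.ncard = (M.E \ B).ncard := by
    rw [← Set.ncard_union_eq]
    · congr 1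
      ext k
      constructor
      · rintro (h | h)
        · exact h.1
        · exact h.1
      · intro hk
        by_cases hm : (D k ∩ T).Nonempty
        · exact Or.inr ⟨hk, hm⟩
        · refine Or.inl ⟨hk, fun x hx => ⟨hD.sub k hk hx, fun hxT => hm ⟨x, hx, hxT⟩⟩⟩
    · rw [Set.disjoint_left]
      rintro k hk1 ⟨-, x, hx, hxT⟩
      exact (hk1.2 hx).2 hxT
  omega

end half

end Pool.Agent.Helper84.BT
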