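import Pool.Agent.Helper84.BT.Mutual
import Pool.Agent.Helper84.BT.Count

/-!
# Mutually expanding families: existence for all transversal and cotransversal matroids,
tight families and principal transversal matroids
-/

open Set

namespace Pool.Agent.Helper84.BT

set_option linter.unusedSectionVars false

section reindex

variable {α ι κ ι' κ' : Type*} [Finite α] [Finite ι] [Finite κ] [Finite ι'] [Finite κ']

lemma pt_reindex (e : ι' ≃ ι) (A : ι → Set α) (I : Set α) :
    IsPartialTransversal (fun k => A (e k)) I ↔ IsPartialTransversal A I := by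
  constructor
  · rintro ⟨f, hf, hA⟩
    exact ⟨fun x => e (f x), e.injective.comp hf, hA⟩
  · rintro ⟨f, hf, hA⟩
    refine ⟨fun x => e.symm (f x), e.symm.injective.comp hf, fun x => ?_⟩
    simp only [Equiv.apply_symm_apply]
    exact hA x

lemma IsPresentation.reindex {M : Matroid α} {A : ι → Set α} (h : IsPresentation A M)
    (e : ι' ≃ ι) : IsPresentation (fun k => A (e k)) M :=
  ⟨fun i => h.1 _, fun I => by rw [h.2, pt_reindex]⟩

lemma reindex_union (e : ι' ≃ ι) (A : ι → Set α) (I : Set ι') :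
    (⋃ i ∈ I, A (e i)) = ⋃ i ∈ e '' I, A i := by
  rw [biUnion_image]

lemma reindex_meets (e' : κ' ≃ κ) (Y : κ → Set α) (T : Set α) :
    (meets (fun j => Y (e' j)) T).ncard = (meets Y T).ncard := by
  rw [← Set.ncard_image_of_injective _ e'.injective]
  congr 1
  ext j
  constructor
  · rintro ⟨i, hi, rfl⟩
    exact hi
  · intro hj
    refine ⟨e'.symm j, ?_, e'.apply_symm_apply j⟩
    change (Y (e' (e'.symm j)) ∩ T).Nonempty
    rw [e'.apply_symm_apply]
    exact hj

lemma Exps.reindex {A : ι → Set α} {Y : κ → Set α} (h : Exps A Y) (e : ι' ≃ ι) (e' : κ' ≃ κ) :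
    Exps (fun i => A (e i)) (fun j => Y (e' j)) := by
  intro I
  have h1 := h (e '' I)
  rw [reindex_meets, reindex_union]
  rwa [Set.ncard_image_of_injective _ e.injective] at h1

lemma ExpsEq.reindex {A : ι → Set α} {Y : κ → Set α} (h : ExpsEq A Y) (e : ι' ≃ ι)
    (e' : κ' ≃ κ) : ExpsEq (fun i => A (e i)) (fun j => Y (e' j)) := by
  intro I
  have h1 := h (e '' I)
  rw [reindex_meets, reindex_union]
  rwa [Set.ncard_image_of_injective _ e.injective] at h1

end reindex

section sub

variable {α : Type*} [Finite α] {B C : Set α} {A D : α → Set α}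

lemma sub_union (I : Set B) : (⋃ b ∈ I, A (b : α)) = ⋃ b ∈ Subtype.val '' I, A b := by
  rw [biUnion_image]

lemma sub_meets (T : Set α) :
    (meets (fun k : C => D (k : α)) T).ncard = {k | k ∈ C ∧ (D k ∩ T).Nonempty}.ncard := by
  rw [← Set.ncard_image_of_injective _ Subtype.val_injective]
  congr 1
  ext j
  constructor
  · rintro ⟨i, hi, rfl⟩
    exact ⟨i.2, hi⟩
  · rintro ⟨h1, h2⟩
    exact ⟨⟨j, h1⟩, h2, rfl⟩

lemma exps_sub (h : ∀ I ⊆ B, I.ncard + {k | k ∈ C ∧ (D k ∩ ⋃ b ∈ I, A b).Nonempty}.ncard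
      ≤ (⋃ b ∈ I, A b).ncard) :
    Exps (fun b : B => A (b : α)) (fun k : C => D (k : α)) := by
  intro I
  rw [sub_meets, sub_union, ← Set.ncard_image_of_injective I Subtype.val_injective]
  exact h _ (by rintro _ ⟨b, -, rfl⟩; exact b.2)

lemma expsEq_sub (h : ∀ I ⊆ B, I.ncard + {k | k ∈ C ∧ (D k ∩ ⋃ b ∈ I, A b).Nonempty}.ncard
      = (⋃ b ∈ I, A b).ncard) :
    ExpsEq (fun b : B => A (b : α)) (fun k : C => D (k : α)) := by
  intro I
  rw [sub_meets, sub_union, ← Set.ncard_image_of_injective I Subtype.val_injective]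
  exact h _ (by rintro _ ⟨b, -, rfl⟩; exact b.2)

end sub

section main

variable {α : Type*} [Finite α] {M : Matroid α}

/-- existence of mutually expanding presentations -/
theorem exists_exps (h1 : IsTransversal M) (h2 : IsTransversal M✶) :
    ∃ (r m : ℕ) (A : Fin r → Set α) (Y : Fin m → Set α), IsPresentation A M ∧
      IsPresentation Y M✶ ∧ M.E.ncard = r + m ∧ Exps A Y ∧ Exps Y A := by
  classical
  obtain ⟨_, A0, hA0⟩ := h1
  obtain ⟨_, D0, hD0⟩ := h2
  obtain ⟨B, hB⟩ := M.exists_isBase
  have hBd : M✶.IsBase (M.E \ B) := hB.compl_isBase_dual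
  obtain ⟨A, hA⟩ := exists_half hA0 hB
  obtain ⟨D, hD⟩ := exists_half hD0 hBd
  have hA' : Half M✶✶ (M✶.E \ (M.E \ B)) A := by
    rw [Matroid.dual_dual, Matroid.dual_ground, sdiff_sdiff_right_self,
      inter_eq_self_of_subset_right hA.base.subset_ground]
    exact hA
  have hBE : M.E \ (M.E \ B) = B := by
    rw [sdiff_sdiff_right_self]; exact inter_eq_self_of_subset_right hB.subset_ground
  have e1 : Exps (fun b : B => A (b : α)) (fun k : (M.E \ B : Set α) => D (k : α)) :=
    exps_sub fun I hI => half_exps hA hD hI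
  have e2 : Exps (fun k : (M.E \ B : Set α) => D (k : α)) (fun b : B => A (b : α)) := by
    apply exps_sub
    intro I hI
    have h3 := half_exps hD hA' hI
    rw [Matroid.dual_ground, hBE] at h3
    exact h3
  have f1 : Fin (Nat.card B) ≃ B := (Finite.equivFin B).symm
  have f2 : Fin (Nat.card (M.E \ B : Set α)) ≃ (M.E \ B : Set α) := (Finite.equivFin _).symm
  refine ⟨Nat.card B, Nat.card (M.E \ B : Set α), fun i => A (f1 i), fun j => D (f2 j),
    hA.presentation.reindex f1, hD.presentation.reindex f2, ?_, e1.reindex f1 f2,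
    e2.reindex f2 f1⟩
  rw [Nat.card_coe_set_eq, Nat.card_coe_set_eq]
  have := Set.ncard_sdiff_add_ncard_of_subset hB.subset_ground
  omega

/-- a principal transversal matroid has tight presentations -/
theorem exists_expsEq (h : IsPrincipal M) :
    ∃ (r m : ℕ) (A : Fin r → Set α) (Y : Fin m → Set α), IsPresentation A M ∧
      IsPresentation Y M✶ ∧ M.E.ncard = r + m ∧ ExpsEq A Y ∧ ExpsEq Y A := by
  classical
  obtain ⟨B, hB⟩ := h.exists_fund
  have hBE := hB.base.subset_ground
  have hBd := hB.dual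
  -- the relation
  set R : α → α → Prop := fun b k => ∀ X, IsCyclicFlat M X → k ∈ X → b ∈ X with hR
  have hA : ∀ b ∈ B, fundFam M B b = {b} ∪ {k | k ∈ M.E \ B ∧ R b k} := by
    intro b hb
    ext x
    simp only [fundFam, mem_ofPred_eq, mem_union, mem_singleton_iff]
    tauto
  have hD : ∀ k ∈ M.E \ B, fundFam M✶ (M.E \ B) k = {k} ∪ {b | b ∈ B ∧ R b k} := by
    intro k hk
    ext x
    simp only [fundFam, mem_ofPred_eq, mem_union, mem_singleton_iff, Matroid.dual_ground,
      sdiff_sdiff_right_self, mem_inter_iff, hR]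
    constructor
    · rintro ⟨-, h | ⟨⟨hxE, hxB⟩, h⟩⟩
      · exact Or.inl h
      · refine Or.inr ⟨hxB, fun X hX hkX => ?_⟩
        by_contra hxX
        exact (h (M.E \ X) hX.dual ⟨hxE, hxX⟩).2 hkX
    · rintro (h | ⟨hxB, h⟩)
      · exact ⟨hk, Or.inl h⟩
      · refine ⟨hk, Or.inr ⟨⟨hBE hxB, hxB⟩, fun X hX hxX => ?_⟩⟩
        by_contra hkX
        exact (h (M.E \ X) hX.dual' ⟨hk.1, hkX⟩).2 hxX
  have gen : ∀ (P Q : Set α) (F G : α → Set α) (S : α → α → Prop), Disjoint P Q →
      (∀ b ∈ P, F b = {b} ∪ {k | k ∈ Q ∧ S b k}) → (∀ k ∈ Q, G k = {k} ∪ {b | b ∈ P ∧ S b k}) →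
      ExpsEq (fun b : P => F (b : α)) (fun k : Q => G (k : α)) := by
    intro P Q F G S hPQ hF hG
    apply expsEq_sub
    intro I hI
    have hU : (⋃ b ∈ I, F b) = I ∪ {k | k ∈ Q ∧ ∃ b ∈ I, S b k} := by
      ext x
      simp only [mem_iUnion, exists_prop, mem_union, mem_ofPred_eq]
      constructor
      · rintro ⟨b, hb, hx⟩
        rw [hF b (hI hb)] at hx
        rcases hx with hx | hx
        · rw [mem_singleton_iff] at hx
          rw [hx]; exact Or.inl hb
        · exact Or.inr ⟨hx.1, b, hb, hx.2⟩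
      · rintro (hx | ⟨hx, b, hb, hS⟩)
        · refine ⟨x, hx, ?_⟩
          rw [hF x (hI hx)]; exact Or.inl rfl
        · refine ⟨b, hb, ?_⟩
          rw [hF b (hI hb)]; exact Or.inr ⟨hx, hS⟩
    have hmt : {k | k ∈ Q ∧ (G k ∩ ⋃ b ∈ I, F b).Nonempty} = {k | k ∈ Q ∧ ∃ b ∈ I, S b k} := by
      ext k
      simp only [mem_ofPred_eq]
      constructor
      · rintro ⟨hk, x, hxG, hxU⟩
        rw [hU] at hxU
        rw [hG k hk] at hxG
        refine ⟨hk, ?_⟩
        rcases hxG with hxG | hxG
        · rw [mem_singleton_iff] at hxG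
          rw [hxG] at hxU
          rcases hxU with hxU | hxU
          · exact absurd hk (Set.disjoint_left.1 hPQ (hI hxU))
          · exact hxU.2
        · rcases hxU with hxU | hxU
          · exact ⟨x, hxU, hxG.2⟩
          · exact absurd hxU.1 (Set.disjoint_left.1 hPQ hxG.1)
      · rintro ⟨hk, b, hb, hS⟩
        refine ⟨hk, b, ?_, ?_⟩
        · rw [hG k hk]; exact Or.inr ⟨hI hb, hS⟩
        · rw [hU]; exact Or.inl hb
    rw [hmt, hU, Set.ncard_union_eq _ (Set.toFinite _) (Set.toFinite _)]
    rw [Set.disjoint_left]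
    intro x hx hx2
    exact Set.disjoint_left.1 hPQ (hI hx) hx2.1
  have hdis : Disjoint B (M.E \ B) := Set.disjoint_sdiff_right
  have e1 : ExpsEq (fun b : B => fundFam M B (b : α))
      (fun k : (M.E \ B : Set α) => fundFam M✶ (M.E \ B) (k : α)) :=
    gen B (M.E \ B) _ _ R hdis hA hD
  have e2 : ExpsEq (fun k : (M.E \ B : Set α) => fundFam M✶ (M.E \ B) (k : α))
      (fun b : B => fundFam M B (b : α)) :=
    gen (M.E \ B) B _ _ (fun k b => R b k) hdis.symm hD hA
  -- presentations indexed by the base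
  have hpres : ∀ {M' : Matroid α} {B' : Set α}, Fund M' B' →
      IsPresentation (fun b : B' => fundFam M' B' (b : α)) M' := by
    intro M' B' hB'
    have h1 := hB'.presentation
    refine ⟨fun b => h1.1 b, fun I => ?_⟩
    rw [h1.2]
    constructor
    · rintro ⟨f, hf, hfA⟩
      refine ⟨fun x => ⟨f x, (hfA x).1⟩, fun x y hxy => hf (by simpa using hxy), fun x => hfA x⟩
    · rintro ⟨f, hf, hfA⟩
      exact ⟨fun x => f x, Subtype.val_injective.comp hf, fun x => hfA x⟩
  have f1 : Fin (Nat.card B) ≃ B := (Finite.equivFin B).symm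
  have f2 : Fin (Nat.card (M.E \ B : Set α)) ≃ (M.E \ B : Set α) := (Finite.equivFin _).symm
  refine ⟨Nat.card B, Nat.card (M.E \ B : Set α), fun i => fundFam M B (f1 i),
    fun j => fundFam M✶ (M.E \ B) (f2 j),
    (hpres hB).reindex f1, (hpres hBd).reindex f2, ?_, e1.reindex f1 f2, e2.reindex f2 f1⟩
  rw [Nat.card_coe_set_eq, Nat.card_coe_set_eq]
  have := Set.ncard_sdiff_add_ncard_of_subset hB.base.subset_ground
  omega

/-- tight families present principal transversal matroids -/
theorem isPrincipal_of_expsEq {r m : ℕ} {A : Fin r → Set α} {Y : Fin m → Set α}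
    (hA : IsPresentation A M) (hY : ∀ j, Y j ⊆ M.E) (hcard : M.E.ncard = r + m)
    (h : ExpsEq A Y) : IsPrincipal M := by
  classical
  set star : Fin r → Set (Fin r ⊕ Fin m) := fun i =>
    {z | z = Sum.inl i ∨ ∃ j, z = Sum.inr j ∧ (Y j ∩ A i).Nonempty} with hstar
  obtain ⟨e, he⟩ := exists_equiv_of_inter_card (α := M.E) (β := Fin r ⊕ Fin m) (ι := Fin r)
    (fun i => {x | (x : α) ∉ A i}) (fun i => {z | z ∉ star i}) (by
      intro S
      have h1 := h S
      have hsub : (⋃ i ∈ S, A i) ⊆ M.E := iUnion₂_subset fun i _ => hA.1 i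
      have h2 := Set.ncard_sdiff_add_ncard_of_subset hsub
      have h3 : {a : M.E | ∀ i ∈ S, a ∈ {x : M.E | (x : α) ∉ A i}}.ncard
          = (M.E \ ⋃ i ∈ S, A i).ncard := by
        rw [← Set.ncard_image_of_injective _ Subtype.val_injective]
        congr 1
        ext x
        simp only [mem_image, mem_ofPred_eq, Subtype.exists, exists_and_right, exists_eq_right,
          mem_sdiff, mem_iUnion, exists_prop, not_exists, not_and]
      have h4 : {b : Fin r ⊕ Fin m | ∀ i ∈ S, b ∈ {z | z ∉ star i}}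
          = Sum.inl '' Sᶜ ∪ Sum.inr '' (meets Y (⋃ i ∈ S, A i))ᶜ := by
        ext z
        rcases z with i | j
        · simp only [hstar, mem_ofPred_eq, Sum.inl.injEq, reduceCtorEq, false_and, exists_false,
            or_false, mem_union, mem_image, mem_compl_iff, exists_eq_right, and_false]
          constructor
          · intro h5 hi; exact h5 i hi rfl
          · rintro h5 i' hi' rfl; exact h5 hi'
        · simp only [hstar, mem_ofPred_eq, Sum.inr.injEq, reduceCtorEq, false_or, mem_union,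
            mem_image, mem_compl_iff, exists_eq_right, and_false, exists_false]
          constructor
          · rintro h5 ⟨x, hxY, hxA⟩
            simp only [mem_iUnion, exists_prop] at hxA
            obtain ⟨i, hi, hxi⟩ := hxA
            exact h5 i hi ⟨j, rfl, x, hxY, hxi⟩
          · rintro h5 i hi ⟨j', rfl, x, hxY, hxi⟩
            exact h5 ⟨x, hxY, mem_iUnion₂.2 ⟨i, hi, hxi⟩⟩
      rw [h3, h4, Set.ncard_union_eq _ (Set.toFinite _) (Set.toFinite _),
        Set.ncard_image_of_injective _ Sum.inl_injective,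
        Set.ncard_image_of_injective _ Sum.inr_injective]
      · have h5 := Set.ncard_add_ncard_compl S
        have h6 := Set.ncard_add_ncard_compl (meets Y (⋃ i ∈ S, A i))
        rw [Nat.card_eq_fintype_card, Fintype.card_fin] at h5 h6
        omega
      · rw [Set.disjoint_left]
        rintro _ ⟨i, -, rfl⟩ ⟨j, -, hj⟩
        exact absurd hj (by simp))
  have hmem : ∀ i j, ((e.symm (Sum.inl i) : M.E) : α) ∈ A j ↔ i = j := by
    intro i j
    have h1 := he j (e.symm (Sum.inl i))
    rw [e.apply_symm_apply] at h1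
    simp only [mem_ofPred_eq, hstar, Sum.inl.injEq, reduceCtorEq, false_and, exists_false,
      or_false] at h1
    exact not_iff_not.1 h1
  refine ⟨r, A, fun i => ((e.symm (Sum.inl i) : M.E) : α), hA, ?_, hmem⟩
  have hinj : Function.Injective (fun i => ((e.symm (Sum.inl i) : M.E) : α)) :=
    Subtype.val_injective.comp (e.symm.injective.comp Sum.inl_injective)
  have h1 : (range (fun i => ((e.symm (Sum.inl i) : M.E) : α))).ncard = Nat.card (Fin r) := by
    rw [← image_univ, Set.ncard_image_of_injective _ hinj, Set.ncard_univ]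
  have h2 : IsPartialTransversal A (range (fun i => ((e.symm (Sum.inl i) : M.E) : α))) :=
    isPartialTransversal_of_sdr hinj (fun j => ⟨(hmem j j).2 rfl, mem_range_self j⟩) h1.le
  exact (isBase_iff_of_full hA ⟨_, h2, h1⟩).2 ⟨h2, h1⟩

end main

end Pool.Agent.Helper84.BT
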