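import Pool.Agent.Helper84.BT.Mutual2

/-!
# Presentations of dual matroids by rank many sets expand over each other
-/

open Set

namespace Pool.Agent.Helper84.BT

set_option linter.unusedSectionVars false

section conv

variable {α ι κ : Type*} [Finite α] [Finite ι] [Finite κ]

/-- Hall's theorem for a subfamily -/
lemma exists_sdr_on (Y : κ → Set α) (T : Set α) (L : Set κ)
    (h : ∀ J ⊆ L, J.ncard ≤ ((⋃ j ∈ J, Y j) ∩ T).ncard) :
    ∃ f : L → α, Function.Injective f ∧ ∀ j : L, f j ∈ Y j ∩ T := by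
  apply exists_sdr (fun j : L => Y j) T
  intro J
  have h1 := h (Subtype.val '' J) (by rintro _ ⟨x, -, rfl⟩; exact x.2)
  rw [Set.ncard_image_of_injective _ Subtype.val_injective] at h1
  refine h1.trans (le_of_eq ?_)
  congr 2
  ext x
  simp only [mem_image, Subtype.exists, exists_and_right, exists_eq_right, mem_iUnion, exists_prop]

/-- a set `Z` containing `Y(J) ∩ T` and matched into `J` can be added to every partial transversal
in `T` -/
lemma union_pt {Y : κ → Set α} {T P Z : Set α} {J : Set κ}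
    (hP : IsPartialTransversal Y P) (hPT : P ⊆ T) (hZ : (⋃ j ∈ J, Y j) ∩ T ⊆ Z)
    (hZJ : IsPartialTransversal (fun j : J => Y j) Z) : IsPartialTransversal Y (P ∪ Z) := by
  classical
  obtain ⟨g, hg, hgY⟩ := hP
  obtain ⟨f, hf, hfY⟩ := hZJ
  have hout : ∀ x : P, (x : α) ∉ Z → g x ∉ J := by
    intro x hxZ hxJ
    exact hxZ (hZ ⟨mem_iUnion₂.2 ⟨g x, hxJ, hgY x⟩, hPT x.2⟩)
  refine ⟨fun x => if h : (x : α) ∈ Z then (f ⟨x, h⟩ : κ) else
    g ⟨x, x.2.resolve_right h⟩, ?_, ?_⟩
  · intro x y hxy
    by_cases hx : (x : α) ∈ Z <;> by_cases hy : (y : α) ∈ Z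
    · simp only [hx, hy, dif_pos] at hxy
      have := hf (Subtype.ext hxy)
      exact Subtype.ext (by simpa using this)
    · simp only [hx, hy, dif_pos, dif_neg, not_false_eq_true] at hxy
      exact absurd (hxy ▸ (f ⟨x, hx⟩).2) (hout ⟨y, y.2.resolve_right hy⟩ hy)
    · simp only [hx, hy, dif_pos, dif_neg, not_false_eq_true] at hxy
      exact absurd (hxy ▸ (f ⟨y, hy⟩).2) (hout ⟨x, x.2.resolve_right hx⟩ hx)
    · simp only [hx, hy, dif_neg, not_false_eq_true] at hxy
      have := hg hxy
      exact Subtype.ext (by simpa using this)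
  · intro x
    by_cases hx : (x : α) ∈ Z
    · simp only [hx, dif_pos]
      exact hfY ⟨x, hx⟩
    · simp only [hx, dif_neg, not_false_eq_true]
      exact hgY ⟨x, x.2.resolve_right hx⟩

/-- if the members of `Y` meeting `T` have no system of distinct representatives in `T`, some
element of `T` can be added to every partial transversal in `T` -/
lemma exists_forced {Y : κ → Set α} {T : Set α}
    (hno : ¬ ∃ f : (meets Y T) → α, Function.Injective f ∧ ∀ j : (meets Y T), f j ∈ Y j ∩ T) :
    ∃ x ∈ T, ∀ P ⊆ T, IsPartialTransversal Y P → IsPartialTransversal Y (insert x P) := by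
  classical
  have h1 : ∃ J : Set κ, J ⊆ meets Y T ∧ ((⋃ j ∈ J, Y j) ∩ T).ncard < J.ncard := by
    by_contra hcon
    apply hno
    apply exists_sdr_on
    intro J hJ
    by_contra hlt
    exact hcon ⟨J, hJ, not_le.1 hlt⟩
  have h2 : ∃ n, ∃ J : Set κ, J ⊆ meets Y T ∧ ((⋃ j ∈ J, Y j) ∩ T).ncard < J.ncard ∧
      J.ncard = n := by
    obtain ⟨J, hJ, hlt⟩ := h1
    exact ⟨_, J, hJ, hlt, rfl⟩
  obtain ⟨J, hJ, hlt, hn⟩ := Nat.find_spec h2
  have hmin : ∀ K : Set κ, K ⊆ J → K ≠ J → K.ncard ≤ ((⋃ j ∈ K, Y j) ∩ T).ncard := by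
    intro K hK hne
    by_contra hcon
    have h3 := Nat.find_min' h2 ⟨K, hK.trans hJ, not_le.1 hcon, rfl⟩
    have h4 : K.ncard < J.ncard := Set.ncard_lt_ncard (hK.ssubset_of_ne hne) (Set.toFinite _)
    omega
  have hJne : J.Nonempty := by
    rw [Set.nonempty_iff_ne_empty]
    rintro rfl
    simp at hlt
  obtain ⟨j0, hj0⟩ := hJne
  obtain ⟨x, hx0, hxT⟩ := hJ hj0
  set Z : Set α := (⋃ j ∈ J, Y j) ∩ T with hZ
  obtain ⟨f, hf, hfY⟩ := exists_sdr_on Y T (J \ {j0}) (by
    intro K hK
    apply hmin K (hK.trans sdiff_subset)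
    rintro rfl
    exact (hK hj0).2 rfl)
  have hcard : (J \ {j0}).ncard + 1 = J.ncard := Set.ncard_sdiff_singleton_add_one hj0 (Set.toFinite _)
  have hpt : IsPartialTransversal (fun j : (J \ {j0} : Set κ) => Y j) Z := by
    apply isPartialTransversal_of_sdr hf
    · intro j
      refine ⟨(hfY j).1, mem_iUnion₂.2 ⟨j, j.2.1, (hfY j).1⟩, (hfY j).2⟩
    · rw [Nat.card_coe_set_eq]
      omega
  have hptJ : IsPartialTransversal (fun j : J => Y j) Z := by
    obtain ⟨g, hg, hgY⟩ := hpt
    refine ⟨fun z => ⟨g z, (g z).2.1⟩, fun a b hab => hg (Subtype.ext ?_), fun z => hgY z⟩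
    simpa using hab
  refine ⟨x, hxT, fun P hPT hP => ?_⟩
  refine (union_pt hP hPT Subset.rfl hptJ).subset ?_
  rintro y (rfl | hy)
  · exact Or.inr ⟨mem_iUnion₂.2 ⟨j0, hj0, hx0⟩, hxT⟩
  · exact Or.inl hy

/-- presentations of a matroid and of its dual by rank many sets expand over each other -/
theorem exps_of_dual {M : Matroid α} {A : ι → Set α} {Y : κ → Set α} (hA : IsPresentation A M)
    (hY : IsPresentation Y M✶) (hcard : M.E.ncard = Nat.card ι + Nat.card κ) : Exps A Y := by
  classical
  -- all bases are full transversals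
  have hbase : ∀ B, M.IsBase B → B.ncard = Nat.card ι ∧ (M.E \ B).ncard = Nat.card κ := by
    intro B hB
    have h1 := ncard_le_card_of_pt ((hA.2 B).1 hB.indep)
    have h2 := ncard_le_card_of_pt ((hY.2 (M.E \ B)).1 hB.compl_isBase_dual.indep)
    have h3 := Set.ncard_sdiff_add_ncard_of_subset hB.subset_ground
    omega
  have hfull : ∃ C, IsPartialTransversal A C ∧ C.ncard = Nat.card ι := by
    obtain ⟨B, hB⟩ := M.exists_isBase
    exact ⟨B, (hA.2 B).1 hB.indep, (hbase B hB).1⟩
  intro I
  set T := ⋃ i ∈ I, A i with hT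
  have hTE : T ⊆ M.E := iUnion₂_subset fun i _ => hA.1 i
  -- the key inequality for one cobase
  have key : ∀ D, M✶.IsBase D → I.ncard + (D ∩ T).ncard ≤ T.ncard := by
    intro D hD
    have hDE : D ⊆ M.E := hD.subset_ground
    have hB : M.IsBase (M.E \ D) := hD.compl_isBase_of_dual
    obtain ⟨g, hg, hgA⟩ := (hA.2 _).1 hB.indep
    have hsurj : Function.Surjective g := by
      have := Fintype.ofFinite ι
      have := Fintype.ofFinite (M.E \ D : Set α)
      have h1 : Nat.card (M.E \ D : Set α) = Nat.card ι := by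
        rw [Nat.card_coe_set_eq]; exact (hbase _ hB).1
      exact (Function.Injective.bijective_of_nat_card_le hg h1.ge).2
    -- I injects into (E \ D) ∩ T
    have h2 : I.ncard ≤ ((M.E \ D) ∩ T).ncard := by
      have h3 : I ⊆ g '' {x : (M.E \ D : Set α) | (x : α) ∈ T} := by
        intro i hi
        obtain ⟨x, rfl⟩ := hsurj i
        exact ⟨x, mem_iUnion₂.2 ⟨g x, hi, hgA x⟩, rfl⟩
      have h4 := Set.ncard_le_ncard h3 (Set.toFinite _)
      rw [Set.ncard_image_of_injective _ hg] at h4
      have h5 : (M.E \ D) ∩ T = Subtype.val '' {x : (M.E \ D : Set α) | (x : α) ∈ T} := by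
        ext y
        constructor
        · rintro ⟨hy, hyT⟩
          exact ⟨⟨y, hy⟩, hyT, rfl⟩
        · rintro ⟨x, hx, rfl⟩
          exact ⟨x.2, hx⟩
      rw [h5, Set.ncard_image_of_injective _ Subtype.val_injective]
      exact h4
    have h6 : ((M.E \ D) ∩ T) ∪ (D ∩ T) = T := by
      ext y
      constructor
      · rintro (h | h)
        · exact h.2
        · exact h.2
      · intro hy
        by_cases hyD : y ∈ D
        · exact Or.inr ⟨hyD, hy⟩
        · exact Or.inl ⟨⟨hTE hy, hyD⟩, hy⟩
    have h7 : (((M.E \ D) ∩ T) ∪ (D ∩ T)).ncard = ((M.E \ D) ∩ T).ncard + (D ∩ T).ncard := by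
      apply Set.ncard_union_eq _ (Set.toFinite _) (Set.toFinite _)
      rw [Set.disjoint_left]
      intro y hy1 hy2
      exact hy1.1.2 hy2.1
    rw [h6] at h7
    omega
  by_cases hsdr : ∃ f : (meets Y T) → α, Function.Injective f ∧
      ∀ j : (meets Y T), f j ∈ Y j ∩ T
  · obtain ⟨f, hf, hfY⟩ := hsdr
    have h1 : (range f).ncard = (meets Y T).ncard := by
      rw [← image_univ, Set.ncard_image_of_injective _ hf, Set.ncard_univ, Nat.card_coe_set_eq]
    have h2 : IsPartialTransversal Y (range f) := by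
      have h3 : IsPartialTransversal (fun j : (meets Y T) => Y j) (range f) := by
        apply isPartialTransversal_of_sdr hf (fun j => ⟨(hfY j).1, mem_range_self j⟩)
        rw [h1, Nat.card_coe_set_eq]
      obtain ⟨g, hg, hgY⟩ := h3
      exact ⟨fun z => g z, Subtype.val_injective.comp hg, fun z => hgY z⟩
    obtain ⟨D, hD, hsub⟩ := ((hY.2 _).2 h2).exists_isBase_superset
    have h3 := key D hD
    have h4 : (range f).ncard ≤ (D ∩ T).ncard := by
      apply Set.ncard_le_ncard _ (Set.toFinite _)
      rintro _ ⟨j, rfl⟩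
      exact ⟨hsub (mem_range_self j), (hfY j).2⟩
    omega
  · exfalso
    obtain ⟨x, hxT, hx⟩ := exists_forced hsdr
    -- a cobase with the largest intersection with T
    have hne : ({D | M✶.IsBase D} : Set (Set α)).Nonempty := M✶.exists_isBase
    obtain ⟨D, hD, hmax⟩ := Set.exists_max_image {D | M✶.IsBase D} (fun D => (D ∩ T).ncard)
      (Set.toFinite _) hne
    have hforce : ∀ D', M✶.IsBase D' → (D ∩ T).ncard ≤ (D' ∩ T).ncard → x ∈ D' := by
      intro D' hD' hle
      by_contra hxD
      have h1 : IsPartialTransversal Y (D' ∩ T) :=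
        ((hY.2 D').1 hD'.indep).subset inter_subset_left
      have h2 := hx _ inter_subset_right h1
      obtain ⟨D2, hD2, hsub⟩ := ((hY.2 _).2 h2).exists_isBase_superset
      have h3 : (D2 ∩ T).ncard ≤ (D ∩ T).ncard := hmax D2 hD2
      have h4 : (insert x (D' ∩ T)).ncard ≤ (D2 ∩ T).ncard := by
        apply Set.ncard_le_ncard _ (Set.toFinite _)
        rintro y hy
        refine ⟨hsub hy, ?_⟩
        rcases hy with rfl | hy
        · exact hxT
        · exact hy.2
      rw [Set.ncard_insert_of_notMem (fun h => hxD h.1) (Set.toFinite _)] at h4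
      omega
    replace hD : M✶.IsBase D := hD
    have hxD : x ∈ D := hforce D hD le_rfl
    have hDE : D ⊆ M.E := hD.subset_ground
    have hB : M.IsBase (M.E \ D) := hD.compl_isBase_of_dual
    obtain ⟨i, hi, hxi⟩ := mem_iUnion₂.1 hxT
    obtain ⟨g, hg, hgA⟩ := (hA.2 _).1 hB.indep
    have hsurj : Function.Surjective g := by
      have h1 : Nat.card (M.E \ D : Set α) = Nat.card ι := by
        rw [Nat.card_coe_set_eq]; exact (hbase _ hB).1
      exact (Function.Injective.bijective_of_nat_card_le hg h1.ge).2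
    obtain ⟨y, hy⟩ := hsurj i
    have hyA : (y : α) ∈ A i := hy ▸ hgA y
    have hyT : (y : α) ∈ T := mem_iUnion₂.2 ⟨i, hi, hyA⟩
    have hxy : x ≠ y := fun h => y.2.2 (h ▸ hxD)
    -- exchange
    set C : Set α := insert x ((M.E \ D) \ {(y : α)}) with hC
    have hCpt : IsPartialTransversal A C := by
      refine ⟨fun z => if h : (z : α) = x then i else g ⟨z, ((mem_insert_iff.1 z.2).resolve_left
        h).1⟩, ?_, ?_⟩
      · intro a b hab
        by_cases ha : (a : α) = x <;> by_cases hb : (b : α) = x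
        · exact Subtype.ext (ha.trans hb.symm)
        · simp only [ha, hb, dif_pos, dif_neg, not_false_eq_true] at hab
          rw [← hy] at hab
          have := hg hab
          have h2 := ((mem_insert_iff.1 b.2).resolve_left hb).2
          exact absurd (by rw [this]; rfl) h2
        · simp only [ha, hb, dif_pos, dif_neg, not_false_eq_true] at hab
          rw [← hy] at hab
          have := hg hab
          have h2 := ((mem_insert_iff.1 a.2).resolve_left ha).2
          exact absurd (by rw [← this]; rfl) h2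
        · simp only [ha, hb, dif_neg, not_false_eq_true] at hab
          have := hg hab
          exact Subtype.ext (by simpa using this)
      · intro z
        by_cases hz : (z : α) = x
        · simp only [hz, dif_pos]
          exact hxi
        · simp only [hz, dif_neg, not_false_eq_true]
          exact hgA ⟨z, ((mem_insert_iff.1 z.2).resolve_left hz).1⟩
    have hCcard : C.ncard = Nat.card ι := by
      rw [hC, Set.ncard_insert_of_notMem _ (Set.toFinite _),
        Set.ncard_sdiff_singleton_add_one y.2 (Set.toFinite _)]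
      · exact (hbase _ hB).1
      · exact fun h => h.1.2 hxD
    have hCbase : M.IsBase C := (isBase_iff_of_full hA hfull).2 ⟨hCpt, hCcard⟩
    have hCE := hCbase.subset_ground
    have hD' : M✶.IsBase (M.E \ C) := hCbase.compl_isBase_dual
    have hcount : (D ∩ T).ncard ≤ ((M.E \ C) ∩ T).ncard := by
      have h1 : insert (y : α) ((D ∩ T) \ {x}) ⊆ (M.E \ C) ∩ T := by
        rintro z (rfl | ⟨⟨hzD, hzT⟩, hzx⟩)
        · refine ⟨⟨hTE hyT, ?_⟩, hyT⟩
          rintro (h | h)
          · exact hxy h.symm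
          · exact h.2 rfl
        · refine ⟨⟨hDE hzD, ?_⟩, hzT⟩
          rintro (h | h)
          · exact hzx h
          · exact h.1.2 hzD
      have h2 := Set.ncard_le_ncard h1 (Set.toFinite _)
      rw [Set.ncard_insert_of_notMem _ (Set.toFinite _),
        Set.ncard_sdiff_singleton_add_one (show x ∈ D ∩ T from ⟨hxD, hxT⟩) (Set.toFinite _)] at h2
      · exact h2
      · exact fun h => y.2.2 h.1.1
    have := hforce _ hD' hcount
    exact this.2 (mem_insert x _)

/-- duality criterion: mutual expansion -/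
theorem exps_iff_dual {E : Set α} {A : ι → Set α} {Y : κ → Set α} (hA : ∀ i, A i ⊆ E)
    (hY : ∀ j, Y j ⊆ E) (hcard : E.ncard = Nat.card ι + Nat.card κ) :
    (Exps A Y ∧ Exps Y A) ↔ ∃ M : Matroid α, M.E = E ∧ IsPresentation A M ∧
      IsPresentation Y M✶ := by
  constructor
  · rintro ⟨h1, h2⟩
    exact ⟨transMatroid E A hA, rfl, transMatroid_isPresentation E A hA,
      dual_of_exps hA hY hcard h1 h2⟩
  · rintro ⟨M, rfl, h1, h2⟩
    refine ⟨exps_of_dual h1 h2 hcard, exps_of_dual h2 (by rwa [Matroid.dual_dual]) ?_⟩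
    rw [Matroid.dual_ground, hcard, add_comm]

end conv

end Pool.Agent.Helper84.BT
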