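import Pool.Agent.Helper84.BT.Transport

open Set

namespace Pool.Agent.Helper84.BT

set_option linter.unusedSectionVars false

section

variable {α : Type*} [Finite α] {N M : Matroid α} {B : Set α} {ψ : Z N → Set α}

/-- natural-number version of admissibility -/
structure Adm (N : Matroid α) (ψ : Z N → Set α) : Prop where
  sub : ∀ X, ψ X ⊆ N.E
  mono : ∀ X Y : Z N, (X : Set α) ⊆ Y → ψ X ⊆ ψ Y
  card : ∀ X, (ψ X).ncard = (X : Set α).ncard
  inter : ∀ S : Set (Z N), S.Nonempty → (⋂ X ∈ S, ψ X).ncard ≤ (⋂ X ∈ S, (X : Set α)).ncard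
  union : ∀ S : Set (Z N), S.Nonempty → (⋃ X ∈ S, (X : Set α)).ncard ≤ (⋃ X ∈ S, ψ X).ncard

/-- the largest cyclic flat avoiding `b` -/
def avoid (N : Matroid α) (b : α) : Z N := joinZ N {X | b ∉ (X : Set α)}

lemma Fund.notMem_avoid (h : Fund N B) {b : α} (hb : b ∈ B) : b ∉ (avoid N b : Set α) := by
  intro hcon
  have h1 := h.closure_sUnion (S := Subtype.val '' {X : Z N | b ∉ (X : Set α)})
    (by rintro _ ⟨X, -, rfl⟩; exact X.2)
  rw [sUnion_image] at h1
  have h2 : b ∈ B ∩ N.closure (⋃ X ∈ {X : Z N | b ∉ (X : Set α)}, (X : Set α)) := ⟨hb, hcon⟩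
  rw [h1] at h2
  obtain ⟨-, h2⟩ := h2
  simp only [mem_iUnion, exists_prop] at h2
  obtain ⟨X, hX, hbX⟩ := h2
  exact hX hbX

lemma le_avoid {X : Z N} {b : α} (hb : b ∉ (X : Set α)) : (X : Set α) ⊆ avoid N b :=
  (isLUB_joinZ {X : Z N | b ∉ (X : Set α)}).1 hb

/-- the family presenting the matroid of the rearrangement `ψ` -/
def pfam (N : Matroid α) (B : Set α) (ψ : Z N → Set α) (b : α) : Set α :=
  {x | b ∈ B ∧ x ∈ N.E \ ψ (avoid N b)}

lemma pfam_subset (b : α) : pfam N B ψ b ⊆ N.E := fun _ hx => hx.2.1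

lemma pfam_inter (hB : Fund N B) (hψ : Adm N ψ) {b : α} (hb : b ∈ B) (X : Z N) :
    (pfam N B ψ b ∩ ψ X).Nonempty ↔ b ∈ (X : Set α) := by
  constructor
  · rintro ⟨x, hx, hxX⟩
    by_contra hcon
    exact hx.2.2 (hψ.mono _ _ (le_avoid hcon) hxX)
  · intro h
    by_contra hcon
    have h1 : ψ X ⊆ ψ (avoid N b) := by
      intro x hx
      by_contra hx2
      exact hcon ⟨x, ⟨hb, hψ.sub X hx, hx2⟩, hx⟩
    have h2 := hψ.inter {X, avoid N b} ⟨X, by simp⟩
    rw [biInter_pair, biInter_pair, inter_eq_self_of_subset_left h1, hψ.card] at h2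
    have h3 : (X : Set α) ∩ avoid N b ⊆ (X : Set α) \ {b} := by
      rintro y ⟨hy, hy2⟩
      refine ⟨hy, ?_⟩
      rintro rfl
      exact hB.notMem_avoid hb hy2
    have h4 := Set.ncard_le_ncard h3 (Set.toFinite _)
    have h5 := Set.ncard_sdiff_singleton_add_one h
    omega

lemma nb_pfam (hB : Fund N B) (hψ : Adm N ψ) (X : Z N) :
    nb (pfam N B ψ) (ψ X) = B ∩ X := by
  ext b
  constructor
  · rintro ⟨x, hx, hxX⟩
    exact ⟨hx.1, (pfam_inter hB hψ hx.1 X).1 ⟨x, hx, hxX⟩⟩
  · rintro ⟨hb, h⟩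
    exact (pfam_inter hB hψ hb X).2 h

/-- partial transversals of the family are the sets meeting each `ψ X` in at most `r X` points -/
lemma pt_iff (hB : Fund N B) (hψ : Adm N ψ) {I : Set α} (hIE : I ⊆ N.E) :
    IsPartialTransversal (pfam N B ψ) I ↔ ∀ X : Z N, (I ∩ ψ X).ncard ≤ rk N X := by
  constructor
  · intro hI X
    have h1 := ncard_le_nb (hI.subset (inter_subset_left : I ∩ ψ X ⊆ I))
    refine h1.trans ?_
    rw [← hB.rk_eq X.2, ← nb_pfam hB hψ X]
    exact Set.ncard_le_ncard (nb_mono _ inter_subset_right) (Set.toFinite _)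
  · intro hI
    rw [hall]
    intro T hT
    have hTE := hT.trans hIE
    have hBr : B.ncard = rk N N.E := hB.base.isBasis_ground.ncard_eq_rk'
    have hnbB : nb (pfam N B ψ) T ⊆ B := fun b hb => by
      obtain ⟨x, hx, -⟩ := hb
      exact hx.1
    by_cases hne : (B \ nb (pfam N B ψ) T).Nonempty
    · set S : Set (Z N) := avoid N '' (B \ nb (pfam N B ψ) T) with hS
      have hSne : S.Nonempty := hne.image _
      have h1 : T ⊆ ⋂ X ∈ S, ψ X := by
        apply subset_iInter₂
        rintro _ ⟨b, hb, rfl⟩ x hx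
        by_contra hcon
        exact hb.2 ⟨x, ⟨hb.1, hTE hx, hcon⟩, hx⟩
      set W := meetZ N S hSne with hW
      have hWS : ∀ X ∈ S, (W : Set α) ⊆ X := fun X hX => (isGLB_meetZ hSne).1 hX
      have h2 : ψ W ⊆ ⋂ X ∈ S, ψ X := subset_iInter₂ fun X hX => hψ.mono _ _ (hWS X hX)
      have h3 := hψ.inter S hSne
      have h4 : (T ∩ ψ W).ncard ≤ rk N W :=
        (Set.ncard_le_ncard (inter_subset_inter_left _ hT) (Set.toFinite _)).trans (hI W)
      have h5 : T \ ψ W ⊆ (⋂ X ∈ S, ψ X) \ ψ W := sdiff_subset_sdiff_left h1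
      have h6 := Set.ncard_le_ncard h5 (Set.toFinite _)
      have h7 := Set.ncard_sdiff_add_ncard_of_subset h2
      have h8 := Set.ncard_inter_add_ncard_sdiff_eq_ncard T (ψ W)
      have h9 := hψ.card W
      have h10 := fund_inter_sdiff hB hSne
      rw [← hW] at h10
      have h11 : B ∩ (⋂ X ∈ S, (X : Set α)) ⊆ nb (pfam N B ψ) T := by
        rintro b ⟨hb, hbS⟩
        by_contra hcon
        simp only [mem_iInter] at hbS
        exact hB.notMem_avoid hb (hbS (avoid N b) ⟨b, ⟨hb, hcon⟩, rfl⟩)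
      have h12 := Set.ncard_le_ncard h11 (Set.toFinite _)
      have h13 := Set.ncard_inter_add_ncard_sdiff_eq_ncard (⋂ X ∈ S, (X : Set α)) B
      rw [inter_comm] at h13
      omega
    · rw [not_nonempty_iff_eq_empty, sdiff_eq_empty] at hne
      have h0 := Set.ncard_le_ncard hne (Set.toFinite _)
      have h1 := hI (topZ N)
      have h2 := nullity_topZ (M := N)
      have h3 : (T \ ψ (topZ N)).ncard ≤ (N.E \ ψ (topZ N)).ncard :=
        Set.ncard_le_ncard (sdiff_subset_sdiff_left hTE) (Set.toFinite _)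
      have h4 := Set.ncard_sdiff_add_ncard_of_subset (hψ.sub (topZ N))
      have h5 := hψ.card (topZ N)
      have h6 := Set.ncard_inter_add_ncard_sdiff_eq_ncard T (ψ (topZ N))
      have h7 : (T ∩ ψ (topZ N)).ncard ≤ (I ∩ ψ (topZ N)).ncard :=
        Set.ncard_le_ncard (inter_subset_inter_left _ hT) (Set.toFinite _)
      omega

/-- `M` is the matroid of the rearrangement `ψ` of the cyclic flats of `N` -/
def Real (M N : Matroid α) (ψ : Z N → Set α) : Prop :=
  M.E = N.E ∧ ∀ I ⊆ M.E, (M.Indep I ↔ ∀ X : Z N, (I ∩ ψ X).ncard ≤ rk N X)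

lemma Real.presentation (hM : Real M N ψ) (hB : Fund N B) (hψ : Adm N ψ) :
    IsPresentation (pfam N B ψ) M := by
  refine ⟨fun b => by rw [hM.1]; exact pfam_subset b, fun I => ?_⟩
  constructor
  · intro hI
    have hIE := hI.subset_ground
    rw [hM.2 I hIE] at hI
    rw [hM.1] at hIE
    rwa [pt_iff hB hψ hIE]
  · intro hI
    have hIE := hI.subset_of pfam_subset
    rw [pt_iff hB hψ hIE] at hI
    rw [← hM.1] at hIE
    rwa [hM.2 I hIE]

lemma exists_real (hB : Fund N B) (hψ : Adm N ψ) : ∃ M, Real M N ψ := by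
  refine ⟨transMatroid N.E (pfam N B ψ) pfam_subset, rfl, fun I hI => ?_⟩
  rw [(transMatroid_isPresentation N.E (pfam N B ψ) pfam_subset).2 I]
  exact pt_iff hB hψ hI

lemma Real.unique {M' : Matroid α} (hM : Real M N ψ) (hM' : Real M' N ψ) : M = M' := by
  apply Matroid.ext_indep (hM.1.trans hM'.1.symm)
  intro I hI
  rw [hM.2 I hI, hM'.2 I (by rw [hM'.1, ← hM.1]; exact hI)]

/-- a transversal of the labels in `B ∩ X` inside a set `F` -/
lemma exists_indep_of_labels (hM : Real M N ψ) (hB : Fund N B) (hψ : Adm N ψ)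
    {J F : Set α} (hJ : J ⊆ B)
    (h : ∀ J0 ⊆ J, J0.Nonempty → J0.ncard ≤ (F \ ⋂ b ∈ J0, ψ (avoid N b)).ncard)
    (hF : F ⊆ N.E) : J.ncard ≤ rk M F := by
  classical
  -- Hall's theorem for the labels
  have h1 : IsPartialTransversal (fun x : α => {b | b ∈ J ∧ x ∈ F ∩ pfam N B ψ b}) J := by
    rw [hall]
    intro J0 hJ0
    rcases J0.eq_empty_or_nonempty with rfl | hne
    · simp
    · refine (h J0 hJ0 hne).trans (Set.ncard_le_ncard ?_ (Set.toFinite _))
      rintro x ⟨hxF, hx⟩
      simp only [mem_iInter, not_forall] at hx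
      obtain ⟨b, hb, hxb⟩ := hx
      exact ⟨b, ⟨hJ0 hb, hxF, hJ (hJ0 hb), hF hxF, hxb⟩, hb⟩
  obtain ⟨f, hf, hfA⟩ := h1
  have hI : M.Indep (range f) := by
    rw [(hM.presentation hB hψ).2]
    refine ⟨fun x => (x.2.choose : J), ?_, ?_⟩
    · intro x y hxy
      have h2 := x.2.choose_spec
      have h3 := y.2.choose_spec
      apply Subtype.ext
      rw [← h2, ← h3]
      congr 1
      exact Subtype.ext hxy
    · intro x
      have h2 := x.2.choose_spec
      have h3 := (hfA x.2.choose).2.2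
      rw [h2] at h3
      exact h3
  have h2 : range f ⊆ F := by
    rintro _ ⟨b, rfl⟩
    exact (hfA b).2.1
  have h3 := hI.ncard_le_rk' h2
  rw [← image_univ, Set.ncard_image_of_injective _ hf, Set.ncard_univ] at h3
  simpa using h3

lemma Real.rk_ground (hM : Real M N ψ) (hB : Fund N B) (hψ : Adm N ψ) :
    rk M M.E = rk N N.E := by
  have hBr : B.ncard = rk N N.E := hB.base.isBasis_ground.ncard_eq_rk'
  apply le_antisymm
  · rw [← hBr]
    refine (rk_le_nb (hM.presentation hB hψ) Subset.rfl).trans ?_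
    apply Set.ncard_le_ncard _ (Set.toFinite _)
    rintro b ⟨x, hx, -⟩
    exact hx.1
  · rw [← hBr, hM.1]
    apply exists_indep_of_labels hM hB hψ Subset.rfl _ Subset.rfl
    intro J0 hJ0 hne
    have h1 := hψ.inter (avoid N '' J0) (hne.image _)
    rw [biInter_image, biInter_image] at h1
    have h2 : (⋂ b ∈ J0, ψ (avoid N b)) ⊆ N.E := by
      obtain ⟨b, hb⟩ := hne
      exact (biInter_subset_of_mem hb).trans (hψ.sub _)
    have h3 := Set.ncard_sdiff_add_ncard_of_subset h2
    have h4 : (⋂ b ∈ J0, (avoid N b : Set α)) ⊆ N.E \ J0 := by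
      intro x hx
      simp only [mem_iInter] at hx
      obtain ⟨b, hb⟩ := hne
      refine ⟨(avoid N b).2.subset_ground (hx b hb), fun hxJ => ?_⟩
      exact hB.notMem_avoid (hJ0 hxJ) (hx x hxJ)
    have h5 := Set.ncard_le_ncard h4 (Set.toFinite _)
    have h6 := Set.ncard_sdiff_add_ncard_of_subset (hJ0.trans hB.base.subset_ground)
    omega

lemma Real.rk_eq (hM : Real M N ψ) (hB : Fund N B) (hψ : Adm N ψ) (X : Z N) :
    rk M (ψ X) = rk N X := by
  apply le_antisymm
  · rw [← hB.rk_eq X.2, ← nb_pfam hB hψ X]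
    apply rk_le_nb (hM.presentation hB hψ)
    rw [hM.1]; exact hψ.sub X
  · rw [← hB.rk_eq X.2]
    apply exists_indep_of_labels hM hB hψ inter_subset_left _ (hψ.sub X)
    intro J0 hJ0 hne
    have h1 := hψ.inter (insert X (avoid N '' J0)) ⟨X, by simp⟩
    rw [biInter_insert, biInter_image, biInter_insert, biInter_image] at h1
    have h3 := Set.ncard_inter_add_ncard_sdiff_eq_ncard (ψ X) (⋂ b ∈ J0, ψ (avoid N b))
    have h4 : (X : Set α) ∩ (⋂ b ∈ J0, (avoid N b : Set α)) ⊆ (X : Set α) \ J0 := by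
      rintro x ⟨hxX, hx⟩
      simp only [mem_iInter] at hx
      exact ⟨hxX, fun hxJ => hB.notMem_avoid (hJ0 hxJ).1 (hx x hxJ)⟩
    have h5 := Set.ncard_le_ncard h4 (Set.toFinite _)
    have h6 := Set.ncard_sdiff_add_ncard_of_subset (hJ0.trans inter_subset_right)
    have h7 := hψ.card X
    omega

/-- the dual rearrangement -/
def dualPsi (N : Matroid α) (ψ : Z N → Set α) (X : Z N✶) : Set α := N.E \ ψ (coZ' X)

lemma Adm.dual (hψ : Adm N ψ) : Adm N✶ (dualPsi N ψ) := by
  have hS' : ∀ S : Set (Z N✶), S = coZ '' (coZ' '' S) := by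
    intro S
    rw [image_image]
    simp only [coZ_coZ', image_id']
  refine ⟨fun X => sdiff_subset, ?_, ?_, ?_, ?_⟩
  · intro X Y h
    apply sdiff_subset_sdiff_right
    apply hψ.mono
    exact coZ'_le.2 h
  · intro X
    have h1 := Set.ncard_sdiff_add_ncard_of_subset (hψ.sub (coZ' X))
    have h2 := ncard_coZ (coZ' X)
    rw [coZ_coZ'] at h2
    have h3 := hψ.card (coZ' X)
    change (N.E \ ψ (coZ' X)).ncard = _
    omega
  · intro S hS
    obtain ⟨T, hT, rfl⟩ : ∃ T : Set (Z N), T.Nonempty ∧ S = coZ '' T :=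
      ⟨coZ' '' S, hS.image _, hS' S⟩
    have e1 : (⋂ X ∈ coZ '' T, dualPsi N ψ X) = N.E \ ⋃ X ∈ T, ψ X := by
      obtain ⟨X0, hX0⟩ := hT
      rw [biInter_image]
      ext x
      simp only [dualPsi, coZ'_coZ, mem_iInter, mem_sdiff, mem_iUnion, exists_prop, not_exists,
        not_and]
      exact ⟨fun h => ⟨(h X0 hX0).1, fun X hX => (h X hX).2⟩, fun h X hX => ⟨h.1, h.2 X hX⟩⟩
    rw [e1, iInter_coZ hT]
    have h1 := hψ.union T hT
    have h2 := Set.ncard_sdiff_add_ncard_of_subset (iUnion_subset_ground T)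
    have h3 := Set.ncard_sdiff_add_ncard_of_subset
      (show (⋃ X ∈ T, ψ X) ⊆ N.E from iUnion₂_subset fun X _ => hψ.sub X)
    omega
  · intro S hS
    obtain ⟨T, hT, rfl⟩ : ∃ T : Set (Z N), T.Nonempty ∧ S = coZ '' T :=
      ⟨coZ' '' S, hS.image _, hS' S⟩
    have e1 : (⋃ X ∈ coZ '' T, dualPsi N ψ X) = N.E \ ⋂ X ∈ T, ψ X := by
      rw [biUnion_image]
      ext x
      simp only [dualPsi, coZ'_coZ, mem_iInter, mem_sdiff, mem_iUnion, exists_prop, not_forall]
      constructor
      · rintro ⟨X, hX, hx⟩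
        exact ⟨hx.1, X, hX, hx.2⟩
      · rintro ⟨hx, X, hX, hxX⟩
        exact ⟨X, hX, hx, hxX⟩
    rw [e1, iUnion_coZ T]
    have h1 := hψ.inter T hT
    have h2 := Set.ncard_sdiff_add_ncard_of_subset (flat_iInter hT).subset_ground
    have h3 := Set.ncard_sdiff_add_ncard_of_subset
      (show (⋂ X ∈ T, ψ X) ⊆ N.E from by
        obtain ⟨X0, hX0⟩ := hT
        exact (biInter_subset_of_mem hX0).trans (hψ.sub X0))
    omega

lemma Real.isBase_iff (hM : Real M N ψ) (hB : Fund N B) (hψ : Adm N ψ) {C : Set α}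
    (hC : C ⊆ N.E) : M.IsBase C ↔ C.ncard = rk N N.E ∧ ∀ X : Z N, (C ∩ ψ X).ncard ≤ rk N X := by
  have hr := hM.rk_ground hB hψ
  constructor
  · intro h
    refine ⟨?_, (hM.2 C h.subset_ground).1 h.indep⟩
    rw [← hr]
    exact h.isBasis_ground.ncard_eq_rk'
  · rintro ⟨h1, h2⟩
    have hI : M.Indep C := (hM.2 C (by rw [hM.1]; exact hC)).2 h2
    rw [hI.isBase_iff_ground_subset_closure]
    apply subset_closure_of_rk M hI.subset_ground Subset.rfl
    rw [hI.ncard_eq_rk', hr, h1]

lemma Real.dual (hM : Real M N ψ) (hB : Fund N B) (hψ : Adm N ψ) :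
    Real M✶ N✶ (dualPsi N ψ) := by
  obtain ⟨M', hM'⟩ := exists_real hB.dual hψ.dual
  have h : M✶ = M' := by
    apply Matroid.ext_isBase
    · rw [hM'.1]; exact hM.1
    · intro C hC
      have hCE : C ⊆ N.E := by rw [← hM.1]; exact hC
      have hCE' : C ⊆ M.E := hC
      rw [Matroid.dual_isBase_iff hCE', hM'.isBase_iff hB.dual hψ.dual hCE, hM.1,
        hM.isBase_iff hB hψ sdiff_subset]
      have h1 := Set.ncard_sdiff_add_ncard_of_subset hCE
      have h2 := rk_dual N (X := N.E) Subset.rfl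
      rw [sdiff_self] at h2
      have h3 : rk N ∅ = 0 := by
        have := rk_le_ncard N ∅
        simpa using this
      have hrk : rk N✶ N✶.E = rk N✶ N.E := rfl
      have key2 : ∀ X : Z N, ((N.E \ C) ∩ ψ X).ncard + C.ncard =
          (C ∩ (N.E \ ψ X)).ncard + (X : Set α).ncard := by
        intro X
        have a1 := Set.ncard_inter_add_ncard_sdiff_eq_ncard (ψ X) C
        have a2 := Set.ncard_inter_add_ncard_sdiff_eq_ncard C (ψ X)
        have a3 : (N.E \ C) ∩ ψ X = ψ X \ C := by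
          ext x
          simp only [mem_inter_iff, mem_sdiff]
          exact ⟨fun h => ⟨h.2, h.1.2⟩, fun h => ⟨⟨hψ.sub X h.1, h.2⟩, h.1⟩⟩
        have a4 : C ∩ (N.E \ ψ X) = C \ ψ X := by
          ext x
          simp only [mem_inter_iff, mem_sdiff]
          exact ⟨fun h => ⟨h.1, h.2.2⟩, fun h => ⟨h.1, hCE h.1, h.2⟩⟩
        rw [a3, a4]
        rw [inter_comm] at a1
        have a5 := hψ.card X
        omega
      constructor
      · rintro ⟨b1, b2⟩
        refine ⟨by rw [hrk]; omega, fun X => ?_⟩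
        obtain ⟨Y, rfl⟩ : ∃ Y : Z N, coZ Y = X := ⟨coZ' X, coZ_coZ' X⟩
        rw [dualPsi, coZ'_coZ]
        have c1 := b2 Y
        have c2 := key2 Y
        have c3 := rk_coZ Y
        omega
      · rintro ⟨b1, b2⟩
        rw [hrk] at b1
        refine ⟨by omega, fun Y => ?_⟩
        have c1 := b2 (coZ Y)
        rw [dualPsi, coZ'_coZ] at c1
        have c2 := key2 Y
        have c3 := rk_coZ Y
        omega
  rw [h]
  exact hM'

lemma Real.flat (hM : Real M N ψ) (hB : Fund N B) (hψ : Adm N ψ) (X : Z N) :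
    M.IsFlat (ψ X) := by
  have hXE : ψ X ⊆ M.E := by rw [hM.1]; exact hψ.sub X
  rw [Matroid.isFlat_iff_closure_eq]
  apply subset_antisymm _ (M.subset_closure _ hXE)
  intro e he
  by_contra hcon
  have heE : e ∈ M.E := M.closure_subset_ground _ he
  have hpres := hM.presentation hB hψ
  -- a label outside X whose set contains e
  have hlab : ∃ b ∈ B, b ∉ (X : Set α) ∧ e ∈ pfam N B ψ b := by
    by_contra hno
    push Not at hno
    have hmem : ∀ b ∈ B \ (X : Set α), e ∈ ψ (avoid N b) := by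
      intro b hb
      by_contra h
      exact hno b hb.1 hb.2 ⟨hb.1, by rw [← hM.1]; exact heE, h⟩
    have h1 := hψ.inter (insert X (avoid N '' (B \ (X : Set α)))) ⟨X, by simp⟩
    have h2 := hψ.card X
    by_cases hne : (B \ (X : Set α)).Nonempty
    · have h1 := hψ.inter (avoid N '' (B \ (X : Set α))) (hne.image _)
      rw [biInter_image, biInter_image] at h1
      have h3 : (⋂ b ∈ B \ (X : Set α), (avoid N b : Set α)) ⊆ X := by
        have h4 := hB.isBasis_sInter (S := Subtype.val '' (avoid N '' (B \ (X : Set α))))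
          ((hne.image _).image _) (by rintro _ ⟨X, -, rfl⟩; exact X.2)
        rw [sInter_image, biInter_image] at h4
        have h5 : B ∩ (⋂ b ∈ B \ (X : Set α), (avoid N b : Set α)) ⊆ X := by
          rintro c ⟨hc, hc2⟩
          by_contra hcX
          simp only [mem_iInter] at hc2
          exact hB.notMem_avoid hc (hc2 c ⟨hc, hcX⟩)
        exact h4.subset_closure.trans ((N.closure_subset_closure h5).trans
          X.2.1.closure.subset)
      have h6 : ψ X ∪ {e} ⊆ ⋂ b ∈ B \ (X : Set α), ψ (avoid N b) := by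
        apply subset_iInter₂
        intro b hb
        apply union_subset
        · exact hψ.mono _ _ (le_avoid hb.2)
        · exact singleton_subset_iff.2 (hmem b hb)
      have h7 := Set.ncard_le_ncard h6 (Set.toFinite _)
      have h8 := Set.ncard_le_ncard h3 (Set.toFinite _)
      rw [union_singleton, Set.ncard_insert_of_notMem hcon (Set.toFinite _)] at h7
      omega
    · rw [not_nonempty_iff_eq_empty, sdiff_eq_empty] at hne
      have h3 : N.E ⊆ X := by
        rw [← hB.base.closure_eq, ← X.2.1.closure]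
        exact N.closure_subset_closure hne
      have h4 : ψ X ∪ {e} ⊆ N.E :=
        union_subset (hψ.sub X) (singleton_subset_iff.2 (by rw [← hM.1]; exact heE))
      have h5 := Set.ncard_le_ncard h4 (Set.toFinite _)
      rw [union_singleton, Set.ncard_insert_of_notMem hcon (Set.toFinite _)] at h5
      have h6 := Set.ncard_le_ncard h3 (Set.toFinite _)
      omega
  obtain ⟨b, hb, hbX, heb⟩ := hlab
  obtain ⟨I, hI, hIr⟩ := exists_basis' M hXE
  rw [← hI.closure_eq_closure] at he
  have heI : e ∉ I := fun h => hcon (hI.subset h)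
  have h2 := (hI.indep.mem_closure_iff_of_notMem heI).1 he
  apply h2.not_indep
  rw [hpres.2]
  classical
  obtain ⟨g, hg, hgA⟩ := (hpres.2 I).1 hI.indep
  have hgb : ∀ x : I, g x ≠ b := by
    intro x hx
    have := hgA x
    rw [hx] at this
    exact hbX ((pfam_inter hB hψ hb X).1 ⟨x, this, hI.subset x.2⟩)
  refine ⟨fun x => if h : (x : α) ∈ I then g ⟨x, h⟩ else b, ?_, ?_⟩
  · intro x y hxy
    simp only at hxy
    by_cases hx : (x : α) ∈ I <;> by_cases hy : (y : α) ∈ I
    · rw [dif_pos hx, dif_pos hy] at hxy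
      have := hg hxy
      simpa [Subtype.ext_iff] using this
    · rw [dif_pos hx, dif_neg hy] at hxy
      exact absurd hxy (hgb _)
    · rw [dif_neg hx, dif_pos hy] at hxy
      exact absurd hxy.symm (hgb _)
    · have hx' : (x : α) = e := x.2.resolve_right hx
      have hy' : (y : α) = e := y.2.resolve_right hy
      exact Subtype.ext (hx'.trans hy'.symm)
  · intro x
    by_cases hx : (x : α) ∈ I
    · simp only [dif_pos hx]
      exact hgA _
    · simp only [dif_neg hx]
      rw [x.2.resolve_right hx]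
      exact heb

lemma Real.cyclic (hM : Real M N ψ) (hB : Fund N B) (hψ : Adm N ψ) (X : Z N) :
    IsCyclic M (ψ X) := by
  rw [isCyclic_iff_dual_flat (by rw [hM.1]; exact hψ.sub X)]
  have := (hM.dual hB hψ).flat hB.dual hψ.dual (coZ X)
  rwa [dualPsi, coZ'_coZ, ← hM.1] at this

lemma Real.surj (hM : Real M N ψ) (hB : Fund N B) (hψ : Adm N ψ) {F : Set α}
    (hF : IsCyclicFlat M F) : ∃ X : Z N, ψ X = F := by
  -- closures of circuits
  have hC : ∀ C, M.IsCircuit C → ∃ X : Z N, C ⊆ ψ X ∧ M.closure C = ψ X := by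
    intro C hC
    have h1 : ¬ M.Indep C := hC.not_indep
    rw [hM.2 C hC.subset_ground] at h1
    push Not at h1
    obtain ⟨X, hX⟩ := h1
    have h2 : C ∩ ψ X = C := by
      by_contra hne
      have h3 := hC.ssubset_indep (inter_subset_left.ssubset_of_ne hne)
      have h4 := (hM.2 _ h3.subset_ground).1 h3 X
      rw [inter_assoc, inter_self] at h4
      omega
    have h3 : C ⊆ ψ X := by rw [← h2]; exact inter_subset_right
    refine ⟨X, h3, ?_⟩
    apply subset_antisymm
    · rw [← (hM.flat hB hψ X).closure]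
      exact M.closure_subset_closure h3
    · apply subset_closure_of_rk M h3 (by rw [hM.1]; exact hψ.sub X)
      rw [hM.rk_eq hB hψ X]
      rw [h2] at hX
      obtain ⟨x, hx⟩ := hC.nonempty
      have h4 := (hC.sdiff_singleton_indep hx).ncard_le_rk' (sdiff_subset (s := C) (t := {x}))
      have h5 := Set.ncard_sdiff_singleton_add_one hx
      omega
  set S : Set (Z N) := {X | ψ X ⊆ F} with hS
  have hFU : F = ⋃ X ∈ S, ψ X := by
    apply subset_antisymm
    · intro x hx
      obtain ⟨C, hCF, hCc, hxC⟩ := hF.2 x hx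
      obtain ⟨X, hCX, hX⟩ := hC C hCc
      have : X ∈ S := by
        change ψ X ⊆ F
        rw [← hX, ← hF.1.closure]
        exact M.closure_subset_closure hCF
      exact mem_biUnion this (hCX hxC)
    · exact iUnion₂_subset fun X hX => hX
  refine ⟨joinZ N S, ?_⟩
  have h1 : F ⊆ ψ (joinZ N S) := by
    rw [hFU]
    exact iUnion₂_subset fun X hX => hψ.mono _ _ ((isLUB_joinZ S).1 hX)
  apply subset_antisymm _ h1
  rw [← hF.1.closure]
  apply subset_closure_of_rk M h1 (by rw [hM.1]; exact hψ.sub _)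
  rw [hM.rk_eq hB hψ, ← nb_ncard_of_cyclic (hM.presentation hB hψ) hF.isCyclic,
    ← hB.rk_eq (joinZ N S).2]
  apply Set.ncard_le_ncard _ (Set.toFinite _)
  have h2 := hB.closure_sUnion (S := Subtype.val '' S) (by rintro _ ⟨X, -, rfl⟩; exact X.2)
  rw [sUnion_image] at h2
  change B ∩ N.closure (⋃ X ∈ S, (X : Set α)) ⊆ _
  rw [h2]
  rintro b ⟨hb, hb2⟩
  simp only [mem_iUnion, exists_prop] at hb2
  obtain ⟨X, hX, hbX⟩ := hb2
  exact ((pfam_inter hB hψ hb X).2 hbX).mono (inter_subset_inter_right _ hX)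

lemma Real.le_iff (hM : Real M N ψ) (hB : Fund N B) (hψ : Adm N ψ) (X Y : Z N) :
    ψ X ⊆ ψ Y ↔ X ≤ Y := by
  constructor
  · intro h
    have h1 : B ∩ (X : Set α) ⊆ B ∩ Y := by
      rw [← nb_pfam hB hψ X, ← nb_pfam hB hψ Y]
      exact nb_mono _ h
    change (X : Set α) ⊆ Y
    refine (hB.basis X X.2).subset_closure.trans ?_
    rw [← Y.2.1.closure]
    exact N.closure_subset_closure (h1.trans inter_subset_right)
  · exact hψ.mono X Y

/-- the isomorphism of the lattices of cyclic flats -/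
noncomputable def Real.iso (hM : Real M N ψ) (hB : Fund N B) (hψ : Adm N ψ) : Z N ≃o Z M where
  toEquiv := Equiv.ofBijective (fun X => ⟨ψ X, hM.flat hB hψ X, hM.cyclic hB hψ X⟩) (by
    constructor
    · intro X Y h
      have h1 : ψ X = ψ Y := congrArg Subtype.val h
      exact le_antisymm ((hM.le_iff hB hψ X Y).1 h1.subset)
        ((hM.le_iff hB hψ Y X).1 h1.symm.subset)
    · rintro ⟨F, hF⟩
      obtain ⟨X, hX⟩ := hM.surj hB hψ hF
      exact ⟨X, Subtype.ext hX⟩)
  map_rel_iff' := by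
    intro X Y
    exact hM.le_iff hB hψ X Y

lemma Real.iso_apply (hM : Real M N ψ) (hB : Fund N B) (hψ : Adm N ψ) (X : Z N) :
    ((hM.iso hB hψ X : Z M) : Set α) = ψ X := rfl

end

end Pool.Agent.Helper84.BT
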