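import Pool.Agent.Helper84.BT.Modular

open Set

namespace Pool.Agent.Helper84.BT

set_option linter.unusedSectionVars false

section

variable {α β : Type*} [Finite α] [Finite β] {M : Matroid α} {N : Matroid β} {φ : Z M ≃o Z N}

/-- transport of sets along a bijection of the ground sets -/
def pull (e : M.E ≃ N.E) (F : Set β) : Set α := {a | ∃ h : a ∈ M.E, (e ⟨a, h⟩ : β) ∈ F}

lemma pull_eq (e : M.E ≃ N.E) (F : Set β) :
    pull e F = Subtype.val '' (e ⁻¹' (Subtype.val ⁻¹' F)) := by
  ext a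
  simp only [pull, mem_ofPred_eq, mem_image, mem_preimage, Subtype.exists, exists_and_right,
    exists_eq_right]

lemma ncard_pull (e : M.E ≃ N.E) {F : Set β} (hF : F ⊆ N.E) : (pull e F).ncard = F.ncard := by
  rw [pull_eq, Set.ncard_image_of_injective _ Subtype.val_injective,
    ← Set.ncard_image_of_injective _ e.injective, Equiv.image_preimage,
    ← Set.ncard_image_of_injective _ Subtype.val_injective, Subtype.image_preimage_coe,
    inter_eq_self_of_subset_right hF]

lemma pull_subset (e : M.E ≃ N.E) (F : Set β) : pull e F ⊆ M.E := fun _ h => h.1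

lemma pull_inter (e : M.E ≃ N.E)
    (he : ∀ (X : Z M) (a : M.E), (a : α) ∈ (X : Set α) ↔ (e a : β) ∈ (φ X : Set β))
    (F : Set β) (X : Z M) : pull e (F ∩ φ X) = pull e F ∩ X := by
  ext a
  constructor
  · rintro ⟨h, h1, h2⟩
    exact ⟨⟨h, h1⟩, (he X ⟨a, h⟩).2 h2⟩
  · rintro ⟨⟨h, h1⟩, h2⟩
    exact ⟨h, h1, (he X ⟨a, h⟩).1 h2⟩

lemma indep_pull (e : M.E ≃ N.E)
    (he : ∀ (X : Z M) (a : M.E), (a : α) ∈ (X : Set α) ↔ (e a : β) ∈ (φ X : Set β))
    (hr : ∀ X : Z M, rk N (φ X) = rk M X) {F : Set β} (hF : F ⊆ N.E) :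
    M.Indep (pull e F) ↔ N.Indep F := by
  rw [indep_iff_cyclicFlat (pull_subset e F), indep_iff_cyclicFlat hF]
  have key : ∀ X : Z M, (pull e F ∩ X).ncard = (F ∩ φ X).ncard := by
    intro X
    rw [← pull_inter e he, ncard_pull e (inter_subset_left.trans hF)]
  constructor
  · intro h Y hY
    obtain ⟨X, hX⟩ := φ.surjective ⟨Y, hY⟩
    have h1 := h X X.2
    rw [key, hX, ← hr, hX] at h1
    exact h1
  · intro h X hX
    have h1 := h _ (φ ⟨X, hX⟩).2
    rw [← key ⟨X, hX⟩, hr] at h1
    exact h1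

lemma fund_pull (e : M.E ≃ N.E)
    (he : ∀ (X : Z M) (a : M.E), (a : α) ∈ (X : Set α) ↔ (e a : β) ∈ (φ X : Set β))
    (hr : ∀ X : Z M, rk N (φ X) = rk M X) (hrE : rk N N.E = rk M M.E)
    {B : Set β} (hB : Fund N B) : Fund M (pull e B) := by
  have hI : M.Indep (pull e B) := (indep_pull e he hr hB.base.subset_ground).2 hB.base.indep
  constructor
  · rw [hI.isBase_iff_ground_subset_closure]
    apply subset_closure_of_rk M (pull_subset e B) Subset.rfl
    rw [hI.ncard_eq_rk', ncard_pull e hB.base.subset_ground, ← hrE,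
      hB.base.isBasis_ground.ncard_eq_rk']
  · intro X hX
    have hI2 : M.Indep (pull e B ∩ X) := hI.subset inter_subset_left
    apply hI2.isBasis_of_subset_of_subset_closure inter_subset_right
    apply subset_closure_of_rk M inter_subset_right hX.subset_ground
    rw [hI2.ncard_eq_rk', ← pull_inter e he B ⟨X, hX⟩,
      ncard_pull e (inter_subset_left.trans hB.base.subset_ground), hB.rk_eq (φ ⟨X, hX⟩).2, hr]

/-- a bitransversal matroid with modular pairs of cyclic flats is principal -/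
theorem isPrincipal_of_modZ (h1 : IsTransversal M) (h2 : IsTransversal M✶) (hmod : ModZ M) :
    IsPrincipal M := by
  obtain ⟨N, hN, -, φ, hφ⟩ := exists_dom h1 h2
  obtain ⟨B, hB⟩ := hN.exists_fund
  obtain ⟨e, he⟩ := exists_equiv hφ.ground (hφ.all hB hmod)
  exact (fund_pull e he hφ.rk (rk_ground_map φ hφ.rk hφ.card hφ.ground) hB).isPrincipal

theorem modZ_of_isPrincipal (h : IsPrincipal M) : ModZ M := by
  obtain ⟨B, hB⟩ := h.exists_fund
  exact fun X Y => hB.modular X.2 Y.2

end

section unique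

variable {α β : Type*} [Finite α] [Finite β] {M : Matroid α} {N : Matroid β} {φ : Z M ≃o Z N}

lemma fund_union_card {B : Set α} (hB : Fund M B) (T : Set (Z M)) :
    (B ∩ ⋃ X ∈ T, (X : Set α)).ncard = rk M (⋃ X ∈ T, (X : Set α)) := by
  have hI : M.Indep (B ∩ ⋃ X ∈ T, (X : Set α)) := hB.base.indep.subset inter_subset_left
  apply Matroid.IsBasis.ncard_eq_rk'
  apply hI.isBasis_of_subset_of_subset_closure inter_subset_right
  apply iUnion₂_subset
  intro X hX
  refine (hB.basis X X.2).subset_closure.trans (M.closure_subset_closure ?_)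
  exact inter_subset_inter_right _ (subset_biUnion_of_mem (u := fun X : Z M => (X : Set α)) hX)

lemma fund_inter_sdiff {B : Set α} (hB : Fund M B) {S : Set (Z M)} (hS : S.Nonempty) :
    ((⋂ X ∈ S, (X : Set α)) \ B).ncard + rk M (meetZ M S hS : Set α) =
      (meetZ M S hS : Set α).ncard := by
  have h1 := hB.sInter_sdiff (S := Subtype.val '' S) (hS.image _)
    (by rintro _ ⟨X, -, rfl⟩; exact X.2)
  rw [sInter_image] at h1
  have h2 : (⋂ X ∈ S, (X : Set α)) \ B = (meetZ M S hS : Set α) \ B := by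
    apply subset_antisymm
    · exact fun x hx => ⟨h1 hx, hx.2⟩
    · exact sdiff_subset_sdiff_left cyc_subset
  rw [h2, ← hB.rk_eq (meetZ M S hS).2, add_comm, inter_comm]
  exact Set.ncard_inter_add_ncard_sdiff_eq_ncard _ _

lemma ncard_notMem_union (B : Set α) (S : Set (Z M)) :
    {b : B | ∀ X ∈ S, b ∈ {b : B | (b : α) ∉ (X : Set α)}}.ncard +
      (B ∩ ⋃ X ∈ S, (X : Set α)).ncard = B.ncard := by
  rw [← Set.ncard_image_of_injective _ Subtype.val_injective]
  have : Subtype.val '' {b : B | ∀ X ∈ S, b ∈ {b : B | (b : α) ∉ (X : Set α)}} =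
      B \ ⋃ X ∈ S, (X : Set α) := by
    ext x
    constructor
    · rintro ⟨b, hb, rfl⟩
      refine ⟨b.2, ?_⟩
      simp only [mem_iUnion, not_exists]
      exact fun X hX hx => hb X hX hx
    · rintro ⟨hx, hx2⟩
      simp only [mem_iUnion, not_exists] at hx2
      exact ⟨⟨x, hx⟩, fun X hX h => hx2 X hX h, rfl⟩
  rw [this, add_comm]
  exact Set.ncard_inter_add_ncard_sdiff_eq_ncard _ _

/-- in principal matroids the configuration determines the sizes of all intersections -/
lemma fund_inter_card (hr : ∀ X : Z M, rk N (φ X) = rk M X)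
    (hc : ∀ X : Z M, (φ X : Set β).ncard = (X : Set α).ncard)
    (hE : N.E.ncard = M.E.ncard) {B : Set α} {B' : Set β} (hB : Fund M B) (hB' : Fund N B')
    (S : Set (Z M)) (hS : S.Nonempty) :
    (⋂ X ∈ S, (X : Set α)).ncard = (⋂ X ∈ S, (φ X : Set β)).ncard := by
  have hrE := rk_ground_map φ hr hc hE
  have hBc : B.ncard = B'.ncard := by
    rw [hB.base.isBasis_ground.ncard_eq_rk', hB'.base.isBasis_ground.ncard_eq_rk', hrE]
  obtain ⟨e, he⟩ := exists_equiv_of_inter_card
    (fun X : Z M => {b : B | (b : α) ∉ (X : Set α)})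
    (fun X : Z M => {b : B' | (b : β) ∉ (φ X : Set β)}) (by
      intro T
      have h1 := ncard_notMem_union B T
      have h2 := ncard_notMem_union B' (φ '' T)
      have h3 := fund_union_card hB T
      have h4 := fund_union_card hB' (φ '' T)
      rw [biUnion_image] at h2 h4
      have h5 := rk_iUnion_map φ hr T
      have e1 : {b : B' | ∀ X ∈ φ '' T, b ∈ {b : B' | (b : β) ∉ (X : Set β)}} =
          {b : B' | ∀ i ∈ T, b ∈ {b : B' | (b : β) ∉ (φ i : Set β)}} := by
        ext b
        simp only [mem_image, forall_exists_index, and_imp, forall_apply_eq_imp_iff₂,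
          mem_ofPred_eq]
      rw [e1] at h2
      omega)
  have he' : ∀ (X : Z M) (b : B), (b : α) ∈ (X : Set α) ↔ (e b : β) ∈ (φ X : Set β) := by
    intro X b
    have := he X b
    simp only [mem_ofPred_eq] at this
    exact not_iff_not.1 this
  have h1 : (B ∩ ⋂ X ∈ S, (X : Set α)).ncard = (B' ∩ ⋂ X ∈ S, (φ X : Set β)).ncard := by
    have e1 : B ∩ ⋂ X ∈ S, (X : Set α) =
        Subtype.val '' {b : B | ∀ X ∈ S, (b : α) ∈ (X : Set α)} := by
      ext x
      simp only [mem_image, mem_ofPred_eq, Subtype.exists, exists_and_left, exists_prop,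
        exists_eq_right_right, mem_inter_iff, mem_iInter]
      tauto
    have e2 : B' ∩ ⋂ X ∈ S, (φ X : Set β) =
        Subtype.val '' (e '' {b : B | ∀ X ∈ S, (b : α) ∈ (X : Set α)}) := by
      ext x
      constructor
      · rintro ⟨hx, hx2⟩
        obtain ⟨b, hb⟩ := e.surjective ⟨x, hx⟩
        refine ⟨⟨x, hx⟩, ⟨b, ?_, hb⟩, rfl⟩
        intro X hX
        rw [he' X b, hb]
        simp only [mem_iInter] at hx2
        exact hx2 X hX
      · rintro ⟨_, ⟨b, hb, rfl⟩, rfl⟩
        refine ⟨(e b).2, ?_⟩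
        simp only [mem_iInter]
        intro X hX
        exact (he' X b).1 (hb X hX)
    rw [e1, e2, Set.ncard_image_of_injective _ Subtype.val_injective,
      Set.ncard_image_of_injective _ Subtype.val_injective,
      Set.ncard_image_of_injective _ e.injective]
  have h2 := fund_inter_sdiff hB hS
  have h3 := fund_inter_sdiff hB' (hS.image φ)
  rw [← map_meetZ φ hS, biInter_image, hr, hc] at h3
  have h4 := Set.ncard_inter_add_ncard_sdiff_eq_ncard (⋂ X ∈ S, (X : Set α)) B
  have h5 := Set.ncard_inter_add_ncard_sdiff_eq_ncard (⋂ X ∈ S, (φ X : Set β)) B'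
  rw [inter_comm] at h4 h5
  omega

/-- principal transversal matroids are determined by their configuration -/
theorem principal_unique (hr : ∀ X : Z M, rk N (φ X) = rk M X)
    (hc : ∀ X : Z M, (φ X : Set β).ncard = (X : Set α).ncard)
    (hE : N.E.ncard = M.E.ncard) (hM : IsPrincipal M) (hN : IsPrincipal N) :
    ∃ e : M.E ≃ N.E, (∀ I : Set M.E, M.Indep (Subtype.val '' I) ↔
      N.Indep (Subtype.val '' (e '' I))) ∧
      ∀ (X : Z M) (a : M.E), (a : α) ∈ (X : Set α) ↔ (e a : β) ∈ (φ X : Set β) := by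
  obtain ⟨B, hB⟩ := hM.exists_fund
  obtain ⟨B', hB'⟩ := hN.exists_fund
  obtain ⟨e, he⟩ := exists_equiv hE (fund_inter_card hr hc hE hB hB')
  refine ⟨e, fun I => ?_, he⟩
  rw [← indep_pull e he hr (by rintro _ ⟨x, -, rfl⟩; exact x.2), pull_eq,
    preimage_image_eq _ Subtype.val_injective, preimage_image_eq _ e.injective]

end unique

end Pool.Agent.Helper84.BT
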